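import Mathlib

open Finset

namespace Pool.Agent.Helper119.DistA

/-- Positive differences of a finite set of naturals. -/
def diffs (A : Finset ℕ) : Finset ℕ :=
  ((A ×ˢ A).filter (fun p => p.1 < p.2)).image (fun p => p.2 - p.1)

lemma mem_diffs {A : Finset ℕ} {d : ℕ} :
    d ∈ diffs A ↔ ∃ x ∈ A, ∃ y ∈ A, x < y ∧ y - x = d := by
  simp only [diffs, mem_image, mem_filter, mem_product, Prod.exists]
  constructor
  · rintro ⟨x, y, ⟨⟨hx, hy⟩, hxy⟩, rfl⟩
    exact ⟨x, hx, y, hy, hxy, rfl⟩
  · rintro ⟨x, hx, y, hy, hxy, rfl⟩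
    exact ⟨x, y, ⟨⟨hx, hy⟩, hxy⟩, rfl⟩

/-- The arithmetic progression 0..n-1 with one further point. -/
lemma diffs_ap (n t : ℕ) (hn : 1 ≤ n) (ht : 1 ≤ t) (htn : t ≤ n) :
    diffs (insert (n - 1 + t) (range n)) = Icc 1 (n - 1 + t) := by
  ext d
  rw [mem_diffs, mem_Icc]
  constructor
  · rintro ⟨x, hx, y, hy, hxy, rfl⟩
    rw [mem_insert, mem_range] at hx hy
    omega
  · rintro ⟨h1, h2⟩
    by_cases h : d ≤ n - 1
    · exact ⟨0, by rw [mem_insert, mem_range]; omega, d, by rw [mem_insert, mem_range]; omega,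
        by omega, by omega⟩
    · refine ⟨n - 1 + t - d, ?_, n - 1 + t, mem_insert_self _ _, by omega, by omega⟩
      rw [mem_insert, mem_range]
      omega

/-- Adding a far point adds as many new differences as there are points. -/
lemma diffs_far (A : Finset ℕ) (N : ℕ) (hN : ∀ x ∈ A, x ≤ N) :
    (diffs (insert (2 * N + 1) A)).card = (diffs A).card + A.card := by
  have hnot : 2 * N + 1 ∉ A := fun h => by have := hN _ h; omega
  have e : diffs (insert (2 * N + 1) A) = diffs A ∪ A.image (fun x => 2 * N + 1 - x) := by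
    ext d
    rw [mem_union, mem_diffs, mem_diffs, mem_image]
    constructor
    · rintro ⟨x, hx, y, hy, hxy, rfl⟩
      rw [mem_insert] at hx hy
      rcases hx with rfl | hx
      · rcases hy with rfl | hy
        · omega
        · have := hN _ hy; omega
      · rcases hy with rfl | hy
        · right; exact ⟨x, hx, rfl⟩
        · left; exact ⟨x, hx, y, hy, hxy, rfl⟩
    · rintro (⟨x, hx, y, hy, hxy, rfl⟩ | ⟨x, hx, rfl⟩)
      · exact ⟨x, mem_insert_of_mem hx, y, mem_insert_of_mem hy, hxy, rfl⟩
      · exact ⟨x, mem_insert_of_mem hx, 2 * N + 1, mem_insert_self _ _,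
          by have := hN _ hx; omega, rfl⟩
  rw [e, card_union_of_disjoint, card_image_of_injOn]
  · intro x hx y hy hxy
    have h1 := hN x hx
    have h2 := hN y hy
    simp only at hxy
    omega
  · rw [disjoint_left]
    intro d hd hd'
    rw [mem_diffs] at hd
    rw [mem_image] at hd'
    obtain ⟨x, hx, y, hy, hxy, rfl⟩ := hd
    obtain ⟨z, hz, hz'⟩ := hd'
    have h1 := hN x hx
    have h2 := hN y hy
    have h3 := hN z hz
    omega

/-- All values between n-1 and n choose 2 are numbers of differences. -/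
theorem line_values (n : ℕ) (hn : 1 ≤ n) : ∀ m, n - 1 ≤ m → m ≤ n.choose 2 →
    ∃ A : Finset ℕ, A.card = n ∧ (diffs A).card = m := by
  induction n, hn using Nat.le_induction with
  | base =>
    intro m _ h
    refine ⟨{0}, rfl, ?_⟩
    have : m = 0 := by simpa using h
    rw [this]
    decide
  | succ n hn ih =>
    intro m h1 h2
    have hch : (n + 1).choose 2 = n + n.choose 2 := by
      rw [Nat.choose_succ_succ' n 1, Nat.choose_one_right]
    by_cases h : 2 * n - 1 ≤ m
    · obtain ⟨A, hA, hd⟩ := ih (m - n) (by omega) (by omega)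
      obtain ⟨N, hN⟩ : ∃ N, ∀ x ∈ A, x ≤ N := ⟨A.sup id, fun x hx => le_sup (f := id) hx⟩
      refine ⟨insert (2 * N + 1) A, ?_, ?_⟩
      · rw [card_insert_of_notMem, hA]
        intro h'
        have := hN _ h'
        omega
      · rw [diffs_far A N hN, hd, hA]
        omega
    · have ht1 : 1 ≤ m - (n - 1) := by omega
      have ht2 : m - (n - 1) ≤ n := by omega
      refine ⟨insert (n - 1 + (m - (n - 1))) (range n), ?_, ?_⟩
      · rw [card_insert_of_notMem, card_range]
        rw [mem_range]
        omega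
      · rw [diffs_ap n _ hn ht1 ht2, Nat.card_Icc]
        omega

end Pool.Agent.Helper119.DistA
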