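import Mathlib
import Pool.Agent.Helper119.DistA

open Finset

namespace Pool.Agent.Helper119.DistB

/-- Euclidean space of dimension k. -/
abbrev E (k : ℕ) := EuclideanSpace ℝ (Fin k)

/-- The number m is a number of distinct distances of n distinct points of E k. -/
def Val (k n m : ℕ) : Prop :=
  ∃ X : Fin n → E k, Function.Injective X ∧
    Set.ncard {d : ℝ | ∃ i j : Fin n, i < j ∧ dist (X i) (X j) = d} = m

lemma val_of_finset {k n : ℕ} (Q : Finset (E k)) (hQ : Q.card = n) (D : Finset ℝ)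
    (h1 : ∀ x ∈ Q, ∀ y ∈ Q, x ≠ y → dist x y ∈ D)
    (h2 : ∀ δ ∈ D, ∃ x ∈ Q, ∃ y ∈ Q, x ≠ y ∧ dist x y = δ) : Val k n D.card := by
  classical
  let e := Q.equivFinOfCardEq hQ
  refine ⟨fun i => (e.symm i).1, ?_, ?_⟩
  · intro i j hij
    exact e.symm.injective (Subtype.ext hij)
  · have : {d : ℝ | ∃ i j : Fin n, i < j ∧ dist (e.symm i).1 (e.symm j).1 = d} = (D : Set ℝ) := by
      ext δ
      constructor
      · rintro ⟨i, j, hij, rfl⟩
        apply h1 _ (e.symm i).2 _ (e.symm j).2
        intro h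
        exact hij.ne (e.symm.injective (Subtype.ext h))
      · intro hδ
        obtain ⟨x, hx, y, hy, hxy, hd⟩ := h2 δ hδ
        have ne : e ⟨x, hx⟩ ≠ e ⟨y, hy⟩ := by
          intro h
          have := e.injective h
          exact hxy (congrArg Subtype.val this)
        rcases lt_or_gt_of_ne ne with h | h
        · exact ⟨_, _, h, by simpa using hd⟩
        · exact ⟨_, _, h, by simpa [dist_comm] using hd⟩
    rw [this, Set.ncard_coe_finset]

/-- Selection of an n-subset with all distances. -/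
lemma val_of_big {k n : ℕ} (P : Finset (E k)) (D : Finset ℝ) (o : E k) (ho : o ∈ P)
    (h1 : ∀ x ∈ P, ∀ y ∈ P, x ≠ y → dist x y ∈ D)
    (h2 : ∀ δ ∈ D, ∃ x ∈ P, o ≠ x ∧ dist o x = δ) (hn1 : D.card + 1 ≤ n) (hn2 : n ≤ P.card) :
    Val k n D.card := by
  classical
  choose! w hw using h2
  have hsub : insert o (D.image w) ⊆ P := by
    intro x hx
    rw [mem_insert, mem_image] at hx
    rcases hx with rfl | ⟨δ, hδ, rfl⟩
    · exact ho
    · exact (hw δ hδ).1
  have hcard : (insert o (D.image w)).card ≤ n :=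
    (card_insert_le _ _).trans ((Nat.add_le_add_right card_image_le 1).trans hn1)
  obtain ⟨Q, hQ1, hQ2, hQ3⟩ := exists_subsuperset_card_eq hsub hcard hn2
  refine val_of_finset Q hQ3 D ?_ ?_
  · intro x hx y hy hxy
    exact h1 x (hQ2 hx) y (hQ2 hy) hxy
  · intro δ hδ
    refine ⟨o, hQ1 (mem_insert_self _ _), w δ, hQ1 (mem_insert_of_mem (mem_image_of_mem w hδ)),
      (hw δ hδ).2.1, (hw δ hδ).2.2⟩

/-- Values realised on a line. -/
theorem val_line {k n m : ℕ} (hk : 1 ≤ k) (hn : 1 ≤ n) (h1 : n - 1 ≤ m) (h2 : m ≤ n.choose 2) :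
    Val k n m := by
  classical
  obtain ⟨A, hA, hd⟩ := DistA.line_values n hn m h1 h2
  let i0 : Fin k := ⟨0, hk⟩
  let φ : ℕ → E k := fun x => EuclideanSpace.single i0 (x : ℝ)
  have hdist : ∀ x y : ℕ, dist (φ x) (φ y) = |(x : ℝ) - y| := by
    intro x y
    simp only [φ]
    rw [EuclideanSpace.single, EuclideanSpace.single, PiLp.dist_single_same, Real.dist_eq]
  have hφ : Function.Injective φ := by
    intro x y hxy
    have := hdist x y
    rw [hxy, dist_self] at this
    have h0 : (x : ℝ) - y = 0 := abs_eq_zero.mp this.symm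
    have h00 : (x : ℝ) = y := by linarith
    exact_mod_cast h00
  have key := val_of_finset (k := k) (n := n) (A.image φ)
    (by rw [card_image_of_injective _ hφ, hA])
    ((DistA.diffs A).image (fun d : ℕ => (d : ℝ))) ?_ ?_
  · rw [card_image_of_injective _ Nat.cast_injective, hd] at key
    exact key
  · intro p hp q hq hpq
    rw [mem_image] at hp hq
    obtain ⟨x, hx, rfl⟩ := hp
    obtain ⟨y, hy, rfl⟩ := hq
    have hxy : x ≠ y := fun h => hpq (by rw [h])
    rw [hdist, mem_image]
    rcases lt_or_gt_of_ne hxy with h | h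
    · refine ⟨y - x, DistA.mem_diffs.mpr ⟨x, hx, y, hy, h, rfl⟩, ?_⟩
      rw [Nat.cast_sub h.le, abs_sub_comm, abs_of_nonneg]
      have : (x : ℝ) ≤ y := by exact_mod_cast h.le
      linarith
    · refine ⟨x - y, DistA.mem_diffs.mpr ⟨y, hy, x, hx, h, rfl⟩, ?_⟩
      rw [Nat.cast_sub h.le, abs_of_nonneg]
      have : (y : ℝ) ≤ x := by exact_mod_cast h.le
      linarith
  · intro δ hδ
    rw [mem_image] at hδ
    obtain ⟨d, hd', rfl⟩ := hδ
    obtain ⟨x, hx, y, hy, hxy, rfl⟩ := DistA.mem_diffs.mp hd'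
    refine ⟨φ x, mem_image_of_mem _ hx, φ y, mem_image_of_mem _ hy, ?_, ?_⟩
    · intro h
      exact hxy.ne (hφ h)
    · rw [hdist, Nat.cast_sub hxy.le, abs_sub_comm, abs_of_nonneg]
      have : (x : ℝ) ≤ y := by exact_mod_cast hxy.le
      linarith

/-- Upper bound for the number of distances. -/
lemma val_le {k n m : ℕ} (h : Val k n m) : m ≤ n.choose 2 := by
  classical
  obtain ⟨X, -, rfl⟩ := h
  let S : Finset (Fin n × Fin n) := univ.filter (fun p => p.1 < p.2)
  have hS : S.card = n.choose 2 := by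
    have h1 : S.card = (powersetCard 2 (univ : Finset (Fin n))).card := by
      apply card_bij (fun p _ => ({p.1, p.2} : Finset (Fin n)))
      · intro p hp
        rw [mem_filter] at hp
        rw [mem_powersetCard]
        exact ⟨subset_univ _, card_pair hp.2.ne⟩
      · intro p hp q hq hpq
        rw [mem_filter] at hp hq
        have a1 : p.1 ∈ ({q.1, q.2} : Finset (Fin n)) := by rw [← hpq]; simp
        have a2 : p.2 ∈ ({q.1, q.2} : Finset (Fin n)) := by rw [← hpq]; simp
        have a3 : q.1 ∈ ({p.1, p.2} : Finset (Fin n)) := by rw [hpq]; simp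
        have a4 : q.2 ∈ ({p.1, p.2} : Finset (Fin n)) := by rw [hpq]; simp
        rw [mem_insert, mem_singleton] at a1 a2 a3 a4
        have hp2 := hp.2
        have hq2 := hq.2
        ext <;> omega
      · intro s hs
        rw [mem_powersetCard] at hs
        obtain ⟨a, b, hab, rfl⟩ := card_eq_two.mp hs.2
        rcases lt_or_gt_of_ne hab with h | h
        · exact ⟨(a, b), by simp [S, h], rfl⟩
        · exact ⟨(b, a), by simp [S, h], pair_comm _ _⟩
    rw [h1, card_powersetCard, card_univ, Fintype.card_fin]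
  have hsub : {d : ℝ | ∃ i j : Fin n, i < j ∧ dist (X i) (X j) = d} ⊆
      ((S.image (fun p => dist (X p.1) (X p.2)) : Finset ℝ) : Set ℝ) := by
    rintro d ⟨i, j, hij, rfl⟩
    rw [mem_coe, mem_image]
    exact ⟨(i, j), by simp [S, hij], rfl⟩
  calc Set.ncard {d : ℝ | ∃ i j : Fin n, i < j ∧ dist (X i) (X j) = d}
      ≤ Set.ncard ((S.image (fun p => dist (X p.1) (X p.2)) : Finset ℝ) : Set ℝ) :=
        Set.ncard_le_ncard hsub (finite_toSet _)
    _ = (S.image (fun p => dist (X p.1) (X p.2))).card := Set.ncard_coe_finset _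
    _ ≤ S.card := card_image_le
    _ = n.choose 2 := hS

/-- Lower bound on the line. -/
lemma val_ge_line {n m : ℕ} (hn : 1 ≤ n) (h : Val 1 n m) : n - 1 ≤ m := by
  classical
  obtain ⟨X, hX, rfl⟩ := h
  have hdist : ∀ i j, dist (X i) (X j) = |X i 0 - X j 0| := by
    intro i j
    rw [EuclideanSpace.dist_eq, Fin.sum_univ_one, Real.sqrt_sq (dist_nonneg), Real.dist_eq]
  have hinj : Function.Injective (fun i => X i 0) := by
    intro i j hij
    apply hX
    ext l
    fin_cases l
    exact hij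
  have : Nonempty (Fin n) := ⟨⟨0, hn⟩⟩
  obtain ⟨i0, hi0⟩ := Finite.exists_min (fun i => X i 0)
  have hfin : {d : ℝ | ∃ i j : Fin n, i < j ∧ dist (X i) (X j) = d}.Finite := by
    apply Set.Finite.subset (Set.finite_range (fun p : Fin n × Fin n => dist (X p.1) (X p.2)))
    rintro d ⟨i, j, _, rfl⟩
    exact ⟨(i, j), rfl⟩
  have hsub : (((univ.erase i0).image (fun j => dist (X i0) (X j)) : Finset ℝ) : Set ℝ) ⊆
      {d : ℝ | ∃ i j : Fin n, i < j ∧ dist (X i) (X j) = d} := by
    intro d hd
    rw [mem_coe, mem_image] at hd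
    obtain ⟨j, hj, rfl⟩ := hd
    have hne : j ≠ i0 := (mem_erase.mp hj).1
    rcases lt_or_gt_of_ne hne with h | h
    · exact ⟨j, i0, h, dist_comm _ _⟩
    · exact ⟨i0, j, h, rfl⟩
  have hle := Set.ncard_le_ncard hsub hfin
  rw [Set.ncard_coe_finset, card_image_of_injOn, card_erase_of_mem (mem_univ _), card_univ,
    Fintype.card_fin] at hle
  · exact hle
  · intro a _ b _ hab
    simp only [hdist] at hab
    have ha := hi0 a
    have hb := hi0 b
    rw [abs_sub_comm, abs_of_nonneg (by linarith), abs_sub_comm, abs_of_nonneg (by linarith)]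
      at hab
    apply hinj
    simp only
    linarith

end Pool.Agent.Helper119.DistB
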