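import Mathlib
import Pool.Agent.Helper119.DistB

open Finset

namespace Pool.Agent.Helper119.DistC

open DistB

/-- Sum of k integer squares. -/
def IsSq (k d : ℕ) : Prop := ∃ z : Fin k → ℤ, ∑ i, z i ^ 2 = (d : ℤ)

/-- The numbers up to R that are sums of k squares. -/
noncomputable def sqs (k R : ℕ) : Finset ℕ := by
  classical exact (Icc 1 R).filter (IsSq k)

lemma mem_sqs {k R d : ℕ} : d ∈ sqs k R ↔ (1 ≤ d ∧ d ≤ R) ∧ IsSq k d := by
  classical
  unfold sqs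
  rw [mem_filter, mem_Icc]

/-- Special witnesses. -/
structure K (k : ℕ) (w : Fin k → ℤ) : Prop where
  nn : ∀ i, 0 ≤ w i
  anti : Antitone w
  zero : ∀ i : Fin k, 4 ≤ i.val → w i = 0

/-- Extension by zero. -/
def ext0 {k : ℕ} (f : Fin k → ℤ) (j : ℕ) : ℤ := if h : j < k then f ⟨j, h⟩ else 0

lemma sum4 {k : ℕ} (f : Fin k → ℤ) (h : ∀ i : Fin k, 4 ≤ i.val → f i = 0) :
    ∑ i, f i = ext0 f 0 + ext0 f 1 + ext0 f 2 + ext0 f 3 := by
  have e1 : ∑ i, f i = ∑ i ∈ range k, ext0 f i := by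
    rw [← Fin.sum_univ_eq_sum_range]
    apply sum_congr rfl
    intro i _
    simp [ext0]
  have e2 : ∑ i ∈ range k, ext0 f i = ∑ i ∈ range (max k 4), ext0 f i := by
    apply sum_subset
    · intro i hi
      rw [mem_range] at hi ⊢
      exact lt_of_lt_of_le hi (le_max_left _ _)
    · intro i _ hi
      rw [mem_range] at hi
      simp [ext0, hi]
  have e3 : ∑ i ∈ range 4, ext0 f i = ∑ i ∈ range (max k 4), ext0 f i := by
    apply sum_subset
    · intro i hi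
      rw [mem_range] at hi ⊢
      exact lt_of_lt_of_le hi (le_max_right _ _)
    · intro i _ hi
      rw [mem_range, not_lt] at hi
      unfold ext0
      split_ifs with h'
      · exact h ⟨i, h'⟩ hi
      · rfl
  rw [e1, e2, ← e3]
  simp [sum_range_succ]

lemma K.ext_anti {k : ℕ} {w : Fin k → ℤ} (hw : K k w) (j : ℕ) : ext0 w (j + 1) ≤ ext0 w j := by
  unfold ext0
  split_ifs with h1 h2 h2
  · exact hw.anti (by simp)
  · omega
  · exact hw.nn _
  · exact le_refl _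

lemma K.ext_nn {k : ℕ} {w : Fin k → ℤ} (hw : K k w) (j : ℕ) : 0 ≤ ext0 w j := by
  unfold ext0
  split_ifs with h1
  · exact hw.nn _
  · exact le_refl _

lemma le_two_mul {T U x y : ℤ} (hU : 0 ≤ U) (hx : T ^ 2 ≤ x) (hy : y ≤ 4 * U ^ 2) (hxy : x ≤ y) :
    T ≤ 2 * U := by
  by_contra h
  push Not at h
  nlinarith

lemma key4 {a b c d p q r s : ℤ} (h1 : b ≤ a) (h2 : c ≤ b) (h3 : d ≤ c) (h4 : 0 ≤ d)
    (g1 : q ≤ p) (g2 : r ≤ q) (g3 : s ≤ r) (g4 : 0 ≤ s)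
    (hle : a ^ 2 + b ^ 2 + c ^ 2 + d ^ 2 ≤ p ^ 2 + q ^ 2 + r ^ 2 + s ^ 2) :
    a ^ 2 + b ^ 2 + c ^ 2 + d ^ 2 ≤ 2 * (a * p + b * q + c * r + d * s) := by
  have hr : 0 ≤ r := g4.trans g3
  have hq : 0 ≤ q := hr.trans g2
  have hp : 0 ≤ p := hq.trans g1
  have hrp : r ≤ p := g2.trans g1
  have hsq : s ≤ q := g3.trans g2
  have hsp : s ≤ p := hsq.trans g1
  set N := a ^ 2 + b ^ 2 + c ^ 2 + d ^ 2 with hN
  set M := p ^ 2 + q ^ 2 + r ^ 2 + s ^ 2 with hM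
  have sq1 : q ^ 2 ≤ p ^ 2 := pow_le_pow_left₀ hq g1 2
  have sq2 : r ^ 2 ≤ q ^ 2 := pow_le_pow_left₀ hr g2 2
  have sq3 : s ^ 2 ≤ r ^ 2 := pow_le_pow_left₀ g4 g3 2
  have m1 : q ^ 2 ≤ p * q := by nlinarith
  have m2 : r ^ 2 ≤ p * r := by nlinarith
  have m3 : r ^ 2 ≤ q * r := by nlinarith
  have m4 : s ^ 2 ≤ p * s := by nlinarith
  have m5 : s ^ 2 ≤ q * s := by nlinarith
  have m6 : s ^ 2 ≤ r * s := by nlinarith
  have u1 : a ^ 2 ≤ N := by rw [hN]; nlinarith [sq_nonneg b, sq_nonneg c, sq_nonneg d]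
  have u2 : (a + b) ^ 2 ≤ 2 * N := by
    rw [hN]; nlinarith [sq_nonneg (a - b), sq_nonneg c, sq_nonneg d]
  have u3 : (a + b + c) ^ 2 ≤ 3 * N := by
    rw [hN]; nlinarith [sq_nonneg (a - b), sq_nonneg (a - c), sq_nonneg (b - c), sq_nonneg d]
  have u4 : (a + b + c + d) ^ 2 ≤ 4 * N := by
    rw [hN]
    nlinarith [sq_nonneg (a - b), sq_nonneg (a - c), sq_nonneg (b - c), sq_nonneg (a - d),
      sq_nonneg (b - d), sq_nonneg (c - d)]
  have v1 : M ≤ 4 * p ^ 2 := by rw [hM]; linarith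
  have v2 : 2 * M ≤ 4 * (p + q) ^ 2 := by
    rw [hM]; nlinarith
  have v3 : 3 * M ≤ 4 * (p + q + r) ^ 2 := by
    rw [hM]; nlinarith
  have v4 : 4 * M ≤ 4 * (p + q + r + s) ^ 2 := by
    rw [hM]; nlinarith
  have t1 : a ≤ 2 * p := le_two_mul hp u1 v1 hle
  have t2 : a + b ≤ 2 * (p + q) := le_two_mul (by linarith) u2 v2 (by linarith)
  have t3 : a + b + c ≤ 2 * (p + q + r) := le_two_mul (by linarith) u3 v3 (by linarith)
  have t4 : a + b + c + d ≤ 2 * (p + q + r + s) :=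
    le_two_mul (by linarith) u4 v4 (by linarith)
  have f1 := mul_le_mul_of_nonneg_left t1 (sub_nonneg.mpr h1)
  have f2 := mul_le_mul_of_nonneg_left t2 (sub_nonneg.mpr h2)
  have f3 := mul_le_mul_of_nonneg_left t3 (sub_nonneg.mpr h3)
  have f4 := mul_le_mul_of_nonneg_left t4 h4
  have e : N = (a - b) * a + (b - c) * (a + b) + (c - d) * (a + b + c) +
      d * (a + b + c + d) := by rw [hN]; ring
  rw [e]
  linarith

/-- Two special witnesses are close. -/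
lemma KK {k : ℕ} {x y : Fin k → ℤ} (hx : K k x) (hy : K k y) {R : ℤ} (hxR : ∑ i, x i ^ 2 ≤ R)
    (hyR : ∑ i, y i ^ 2 ≤ R) : ∑ i, (x i - y i) ^ 2 ≤ R := by
  have hsq : ∀ {w : Fin k → ℤ}, K k w → ∑ i, w i ^ 2 =
      ext0 w 0 ^ 2 + ext0 w 1 ^ 2 + ext0 w 2 ^ 2 + ext0 w 3 ^ 2 := by
    intro w hw
    rw [sum4 (fun i => w i ^ 2) (fun i hi => by simp [hw.zero i hi])]
    have : ∀ j, ext0 (fun i => w i ^ 2) j = ext0 w j ^ 2 := by
      intro j; unfold ext0; split_ifs <;> simp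
    rw [this, this, this, this]
  have hin : ∑ i, x i * y i = ext0 x 0 * ext0 y 0 + ext0 x 1 * ext0 y 1 + ext0 x 2 * ext0 y 2 +
      ext0 x 3 * ext0 y 3 := by
    rw [sum4 (fun i => x i * y i) (fun i hi => by simp [hx.zero i hi])]
    have : ∀ j, ext0 (fun i => x i * y i) j = ext0 x j * ext0 y j := by
      intro j; unfold ext0; split_ifs <;> simp
    rw [this, this, this, this]
  have hexp : ∑ i, (x i - y i) ^ 2 = ∑ i, x i ^ 2 + ∑ i, y i ^ 2 - 2 * ∑ i, x i * y i := by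
    rw [mul_sum, ← sum_add_distrib, ← sum_sub_distrib]
    apply sum_congr rfl
    intro i _; ring
  rw [hexp]
  rcases le_total (∑ i, x i ^ 2) (∑ i, y i ^ 2) with h | h
  · have hk := key4 (hx.ext_anti 0) (hx.ext_anti 1) (hx.ext_anti 2) (hx.ext_nn 3)
      (hy.ext_anti 0) (hy.ext_anti 1) (hy.ext_anti 2) (hy.ext_nn 3)
      (by rw [← hsq hx, ← hsq hy]; exact h)
    simp only [zero_add] at hk
    norm_num at hk
    rw [hsq hx, hsq hy, hin]
    rw [hsq hy] at hyR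
    linarith
  · have hk := key4 (hy.ext_anti 0) (hy.ext_anti 1) (hy.ext_anti 2) (hy.ext_nn 3)
      (hx.ext_anti 0) (hx.ext_anti 1) (hx.ext_anti 2) (hx.ext_nn 3)
      (by rw [← hsq hx, ← hsq hy]; exact h)
    norm_num at hk
    rw [hsq hx, hsq hy, hin]
    rw [hsq hx] at hxR
    linarith

end Pool.Agent.Helper119.DistC
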