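import Mathlib
import Pool.Agent.Helper119.DistC

open Finset

namespace Pool.Agent.Helper119.DistD

open DistB DistC

/-- Sorting a representation. -/
lemma witness_le {k d : ℕ} (hk : k ≤ 4) (h : IsSq k d) :
    ∃ w : Fin k → ℤ, K k w ∧ ∑ i, w i ^ 2 = (d : ℤ) := by
  obtain ⟨z, hz⟩ := h
  let u : Fin k → ℤ := fun i => |z i|
  let σ := Tuple.sort u
  have hmono : Monotone (u ∘ σ) := Tuple.monotone_sort u
  refine ⟨fun i => u (σ (Fin.rev i)), ⟨fun i => abs_nonneg _, ?_, ?_⟩, ?_⟩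
  · intro i j hij
    exact hmono (Fin.rev_le_rev.mpr hij)
  · intro i hi
    exact absurd i.isLt (by omega)
  · rw [← hz]
    have e1 : ∑ i : Fin k, u (σ (Fin.rev i)) ^ 2 = ∑ i : Fin k, u (σ i) ^ 2 :=
      Equiv.sum_comp Fin.revPerm (fun i => u (σ i) ^ 2)
    have e2 : ∑ i : Fin k, u (σ i) ^ 2 = ∑ i : Fin k, u i ^ 2 :=
      Equiv.sum_comp σ (fun i => u i ^ 2)
    rw [e1, e2]
    apply sum_congr rfl
    intro i _
    exact sq_abs _

lemma isSq_four (d : ℕ) : IsSq 4 d := by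
  obtain ⟨a, b, c, e, h⟩ := Nat.sum_four_squares d
  refine ⟨![a, b, c, e], ?_⟩
  rw [Fin.sum_univ_four]
  simp only [Matrix.cons_val_zero, Matrix.cons_val_one, Matrix.cons_val]
  exact_mod_cast h

lemma witness_ge {k : ℕ} (hk : 4 ≤ k) (d : ℕ) :
    ∃ w : Fin k → ℤ, K k w ∧ ∑ i, w i ^ 2 = (d : ℤ) := by
  obtain ⟨v, hv, hd⟩ := witness_le (le_refl 4) (isSq_four d)
  refine ⟨fun i => ext0 v i.val, ⟨fun i => hv.ext_nn _, ?_, ?_⟩, ?_⟩
  · intro i j hij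
    exact antitone_nat_of_succ_le hv.ext_anti hij
  · intro i hi
    simp [ext0, hi]
  · rw [sum4 (fun i : Fin k => ext0 v i.val ^ 2) (fun i hi => by simp [ext0, hi]), ← hd,
      Fin.sum_univ_four]
    have h0 : 0 < k := by omega
    have h1 : 1 < k := by omega
    have h2 : 2 < k := by omega
    have h3 : 3 < k := by omega
    simp [ext0, h0, h1, h2, h3]

lemma witness {k d : ℕ} (h : IsSq k d) : ∃ w : Fin k → ℤ, K k w ∧ ∑ i, w i ^ 2 = (d : ℤ) := by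
  rcases le_total k 4 with hk | hk
  · exact witness_le hk h
  · exact witness_ge hk d

lemma isSq_of_ge {k : ℕ} (hk : 4 ≤ k) (d : ℕ) : IsSq k d := by
  obtain ⟨w, _, h⟩ := witness_ge hk d
  exact ⟨w, h⟩

/-- Members of the box. -/
def box {k : ℕ} (a b : ℕ) (x : Fin k → ℤ) : Prop :=
  ∀ i : Fin k, (if i.val = 0 then (a : ℤ) else 0) ≤ x i ∧
    x i ≤ (if i.val = 0 then (a : ℤ) else 0) + b

/-- Numerical core: two reals. -/
lemma num_core {N R a b k y : ℝ} (hN0 : 0 ≤ N) (hNR : N ≤ R) (hy : 0 ≤ y) (hyN : N ≤ 4 * y ^ 2)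
    (ha : 0 ≤ a) (haR : 4 * a ^ 2 ≤ R) (hb : 0 ≤ b) (hk : 2 ≤ k) (hkb : 3 * k * b ≤ a) :
    N + a ^ 2 + 2 * a * b - 2 * a * y + k * b ^ 2 ≤ R := by
  set t := √N with ht
  set s := √R with hs
  have hR0 : 0 ≤ R := hN0.trans hNR
  have ht2 : t ^ 2 = N := Real.sq_sqrt hN0
  have hs2 : s ^ 2 = R := Real.sq_sqrt hR0
  have ht0 : 0 ≤ t := Real.sqrt_nonneg _
  have hs0 : 0 ≤ s := Real.sqrt_nonneg _
  have hts : t ≤ s := Real.sqrt_le_sqrt hNR
  have hty : t ≤ 2 * y := by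
    rw [ht]
    apply Real.sqrt_le_iff.mpr
    constructor
    · linarith
    · linarith
  have has : 2 * a ≤ s := by
    rw [hs]
    apply Real.le_sqrt_of_sq_le
    linarith
  have h1 : a * t ≤ a * (2 * y) := mul_le_mul_of_nonneg_left hty ha
  have h2 : t ^ 2 - a * t ≤ s ^ 2 - a * s := by nlinarith
  have h3 : a * (2 * a) ≤ a * s := mul_le_mul_of_nonneg_left has ha
  have hb1 : 6 * b ≤ a := by nlinarith
  have h4 : 2 * a * b ≤ a ^ 2 / 3 := by nlinarith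
  have h5 : k * b ^ 2 ≤ a ^ 2 / 3 := by
    have : k * b * b ≤ (a / 3) * a := by
      apply mul_le_mul _ (by linarith) hb (by positivity)
      linarith
    nlinarith
  nlinarith

lemma delta_sum {k : ℕ} (hk : 0 < k) (f : Fin k → ℤ) :
    ∑ i : Fin k, (if i.val = 0 then f i else 0) = f ⟨0, hk⟩ := by
  rw [sum_eq_single (⟨0, hk⟩ : Fin k)]
  · simp
  · intro i _ hi
    rw [if_neg]
    intro h
    exact hi (Fin.ext h)
  · intro h; exact absurd (mem_univ _) h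

/-- A witness is close to the box. -/
lemma KBox {k : ℕ} (hk : 2 ≤ k) {a b R : ℕ} (haR : 4 * a ^ 2 ≤ R) (hkb : 3 * k * b ≤ a)
    {x y : Fin k → ℤ} (hx : box a b x) (hy : K k y) (hyR : ∑ i, y i ^ 2 ≤ (R : ℤ)) :
    ∑ i, (x i - y i) ^ 2 ≤ (R : ℤ) := by
  have hk0 : 0 < k := by omega
  have hN0 : 0 ≤ ∑ i, y i ^ 2 := sum_nonneg fun i _ => sq_nonneg _
  have hy0 : 0 ≤ y ⟨0, hk0⟩ := hy.nn _
  have hyN : ∑ i, y i ^ 2 ≤ 4 * y ⟨0, hk0⟩ ^ 2 := by
    rw [sum4 (fun i => y i ^ 2) (fun i hi => by simp [hy.zero i hi])]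
    have e : ∀ j, ext0 (fun i => y i ^ 2) j = ext0 y j ^ 2 := by
      intro j; unfold ext0; split_ifs <;> simp
    rw [e, e, e, e]
    have e0 : ext0 y 0 = y ⟨0, hk0⟩ := by simp [ext0, hk0]
    rw [← e0]
    have a1 := hy.ext_anti 0
    have a2 := hy.ext_anti 1
    have a3 := hy.ext_anti 2
    have n1 := hy.ext_nn 1
    have n2 := hy.ext_nn 2
    have n3 := hy.ext_nn 3
    norm_num at a1 a2 a3
    have b1 : ext0 y 1 ^ 2 ≤ ext0 y 0 ^ 2 := pow_le_pow_left₀ n1 a1 2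
    have b2 : ext0 y 2 ^ 2 ≤ ext0 y 0 ^ 2 := pow_le_pow_left₀ n2 (a2.trans a1) 2
    have b3 : ext0 y 3 ^ 2 ≤ ext0 y 0 ^ 2 := pow_le_pow_left₀ n3 (a3.trans (a2.trans a1)) 2
    linarith
  -- pointwise bound
  have hpt : ∀ i : Fin k, (x i - y i) ^ 2 ≤ y i ^ 2 + (b : ℤ) ^ 2 +
      (if i.val = 0 then (a : ℤ) ^ 2 + 2 * a * b - 2 * a * y i else 0) := by
    intro i
    have h := hx i
    have hyi := hy.nn i
    split_ifs at h ⊢ with h0
    · obtain ⟨e, he⟩ : ∃ e, x i = a + e := ⟨x i - a, by ring⟩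
      rw [he] at h ⊢
      have he0 : 0 ≤ e := by linarith [h.1]
      have heb : e ≤ b := by linarith [h.2]
      have ha0 : (0 : ℤ) ≤ a := Int.natCast_nonneg _
      have h2 : e ^ 2 ≤ (b : ℤ) ^ 2 := pow_le_pow_left₀ he0 heb 2
      have h3 : (a : ℤ) * e ≤ a * b := mul_le_mul_of_nonneg_left heb ha0
      have h4 : 0 ≤ e * y i := mul_nonneg he0 hyi
      nlinarith
    · have he0 : 0 ≤ x i := h.1
      have heb : x i ≤ b := by linarith [h.2]
      have h2 : x i ^ 2 ≤ (b : ℤ) ^ 2 := pow_le_pow_left₀ he0 heb 2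
      have h4 : 0 ≤ x i * y i := mul_nonneg he0 hyi
      nlinarith
  have hsum : ∑ i, (x i - y i) ^ 2 ≤ ∑ i, y i ^ 2 + k * (b : ℤ) ^ 2 +
      ((a : ℤ) ^ 2 + 2 * a * b - 2 * a * y ⟨0, hk0⟩) := by
    calc ∑ i, (x i - y i) ^ 2 ≤ ∑ i : Fin k, (y i ^ 2 + (b : ℤ) ^ 2 +
      (if i.val = 0 then (a : ℤ) ^ 2 + 2 * a * b - 2 * a * y i else 0)) :=
          sum_le_sum fun i _ => hpt i
      _ = _ := by
          rw [sum_add_distrib, sum_add_distrib, sum_const, card_univ, Fintype.card_fin,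
            delta_sum hk0 (fun i => (a : ℤ) ^ 2 + 2 * a * b - 2 * a * y i)]
          simp
  have hreal := num_core (N := ((∑ i, y i ^ 2 : ℤ) : ℝ)) (R := (R : ℝ)) (a := (a : ℝ))
    (b := (b : ℝ)) (k := (k : ℝ)) (y := ((y ⟨0, hk0⟩ : ℤ) : ℝ)) (by exact_mod_cast hN0)
    (by exact_mod_cast hyR) (by exact_mod_cast hy0) (by exact_mod_cast hyN)
    (by positivity) (by exact_mod_cast haR) (by positivity) (by exact_mod_cast hk)
    (by exact_mod_cast hkb)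
  have hint : ∑ i, y i ^ 2 + (a : ℤ) ^ 2 + 2 * a * b - 2 * a * y ⟨0, hk0⟩ + k * (b : ℤ) ^ 2 ≤
      (R : ℤ) := by exact_mod_cast hreal
  linarith

/-- The box is small. -/
lemma BoxBox {k : ℕ} (hk : 2 ≤ k) {a b R : ℕ} (haR : 4 * a ^ 2 ≤ R) (hkb : 3 * k * b ≤ a)
    {x y : Fin k → ℤ} (hx : box a b x) (hy : box a b y) :
    ∑ i, (x i - y i) ^ 2 ≤ (R : ℤ) := by
  have hpt : ∀ i : Fin k, (x i - y i) ^ 2 ≤ (b : ℤ) ^ 2 := by
    intro i
    have h := hx i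
    have h' := hy i
    apply sq_le_sq'
    · linarith [h.1, h'.2]
    · linarith [h.2, h'.1]
  have hsum : ∑ i, (x i - y i) ^ 2 ≤ k * (b : ℤ) ^ 2 := by
    calc ∑ i, (x i - y i) ^ 2 ≤ ∑ _i : Fin k, (b : ℤ) ^ 2 := sum_le_sum fun i _ => hpt i
      _ = _ := by simp
  have hn : k * b ^ 2 ≤ R := by
    have h1 : k * b ≤ a := by nlinarith
    have h2 : b ≤ a := by nlinarith
    calc k * b ^ 2 = (k * b) * b := by ring
      _ ≤ a * a := Nat.mul_le_mul h1 h2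
      _ ≤ 4 * a ^ 2 := by nlinarith
      _ ≤ R := haR
  have hn' : (k : ℤ) * (b : ℤ) ^ 2 ≤ R := by exact_mod_cast hn
  linarith

end Pool.Agent.Helper119.DistD
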