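import Mathlib
import Pool.Agent.Helper119.DistD

open Finset

namespace Pool.Agent.Helper119.DistE

open DistB DistC DistD

/-- Embedding of integer vectors. -/
noncomputable def emb {k : ℕ} (x : Fin k → ℤ) : E k := WithLp.toLp 2 (fun i => (x i : ℝ))

lemma dist_emb {k : ℕ} (x y : Fin k → ℤ) :
    dist (emb x) (emb y) = √((∑ i, (x i - y i) ^ 2 : ℤ) : ℝ) := by
  rw [EuclideanSpace.dist_eq]
  congr 1
  push_cast
  apply sum_congr rfl
  intro i _
  rw [Real.dist_eq, sq_abs]
  rfl

lemma emb_injective {k : ℕ} : Function.Injective (emb : (Fin k → ℤ) → E k) := by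
  intro x y h
  funext i
  have h1 : (x i : ℝ) = (y i : ℝ) := congrFun (congrArg WithLp.ofLp h) i
  exact_mod_cast h1

/-- Main lattice construction. -/
theorem lattice {k R n a b : ℕ} (hk : 2 ≤ k) (haR : 4 * a ^ 2 ≤ R) (hkb : 3 * k * b ≤ a)
    (hn1 : (sqs k R).card + 1 ≤ n) (hn2 : n ≤ (b + 1) ^ k) : Val k n (sqs k R).card := by
  classical
  -- the witnesses
  have hw : ∀ d, IsSq k d → ∃ w : Fin k → ℤ, K k w ∧ ∑ i, w i ^ 2 = (d : ℤ) :=
    fun d h => witness h
  choose! w hw1 hw2 using hw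
  -- the integer point set
  let W : Finset (Fin k → ℤ) := insert 0 ((sqs k R).image w)
  let B : Finset (Fin k → ℤ) := (univ : Finset (Fin k → Fin (b + 1))).image
    (fun ε i => (if i.val = 0 then (a : ℤ) else 0) + ((ε i).val : ℤ))
  have hWK : ∀ x ∈ W, K k x ∧ ∑ i, x i ^ 2 ≤ (R : ℤ) := by
    intro x hx
    rw [mem_insert, mem_image] at hx
    rcases hx with rfl | ⟨d, hd, rfl⟩
    · refine ⟨⟨fun i => le_refl _, fun i j _ => le_refl _, fun i _ => rfl⟩, ?_⟩
      simp
    · have h := mem_sqs.mp hd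
      refine ⟨hw1 d h.2, ?_⟩
      rw [hw2 d h.2]
      exact_mod_cast h.1.2
  have hBbox : ∀ x ∈ B, box a b x := by
    intro x hx
    rw [mem_image] at hx
    obtain ⟨ε, -, rfl⟩ := hx
    intro i
    have h1 : ((ε i).val : ℤ) ≤ b := by
      have := (ε i).isLt
      have h2 : (ε i).val ≤ b := by omega
      exact_mod_cast h2
    have h0 : (0 : ℤ) ≤ ((ε i).val : ℤ) := Int.natCast_nonneg _
    constructor <;> simp only <;> linarith
  have hBcard : B.card = (b + 1) ^ k := by
    rw [card_image_of_injective]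
    · rw [card_univ, Fintype.card_fun, Fintype.card_fin, Fintype.card_fin]
    · intro ε ε' h
      funext i
      have := congrFun h i
      simp only at this
      have h2 : ((ε i).val : ℤ) = ((ε' i).val : ℤ) := by linarith
      exact Fin.ext (by exact_mod_cast h2)
  let PZ := W ∪ B
  have hclose : ∀ x ∈ PZ, ∀ y ∈ PZ, ∑ i, (x i - y i) ^ 2 ≤ (R : ℤ) := by
    intro x hx y hy
    rw [mem_union] at hx hy
    rcases hx with hx | hx <;> rcases hy with hy | hy
    · exact KK (hWK x hx).1 (hWK y hy).1 (hWK x hx).2 (hWK y hy).2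
    · have := KBox hk haR hkb (hBbox y hy) (hWK x hx).1 (hWK x hx).2
      calc ∑ i, (x i - y i) ^ 2 = ∑ i, (y i - x i) ^ 2 := by
            apply sum_congr rfl; intro i _; ring
        _ ≤ _ := this
    · exact KBox hk haR hkb (hBbox x hx) (hWK y hy).1 (hWK y hy).2
    · exact BoxBox hk haR hkb (hBbox x hx) (hBbox y hy)
  let D : Finset ℝ := (sqs k R).image (fun d : ℕ => √(d : ℝ))
  have hDcard : D.card = (sqs k R).card := by
    apply card_image_of_injective
    intro d d' h
    simp only at h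
    have h1 : (0 : ℝ) ≤ (d : ℝ) := by positivity
    have h2 : (0 : ℝ) ≤ (d' : ℝ) := by positivity
    have h3 : (d : ℝ) = d' := by
      rw [← Real.sq_sqrt h1, h, Real.sq_sqrt h2]
    exact_mod_cast h3
  have h0W : (0 : Fin k → ℤ) ∈ PZ := mem_union_left _ (mem_insert_self _ _)
  rw [← hDcard] at hn1 ⊢
  refine val_of_big (PZ.image emb) D (emb 0) (mem_image_of_mem _ h0W) ?_ ?_ hn1 ?_
  · intro p hp q hq hpq
    rw [mem_image] at hp hq
    obtain ⟨x, hx, rfl⟩ := hp
    obtain ⟨y, hy, rfl⟩ := hq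
    have hxy : x ≠ y := fun h => hpq (by rw [h])
    have hle := hclose x hx y hy
    have hpos : 1 ≤ ∑ i, (x i - y i) ^ 2 := by
      obtain ⟨i, hi⟩ := Function.ne_iff.mp hxy
      have h1 : 0 < (x i - y i) ^ 2 := by
        have : x i - y i ≠ 0 := sub_ne_zero.mpr hi
        positivity
      have h2 : (x i - y i) ^ 2 ≤ ∑ i, (x i - y i) ^ 2 :=
        single_le_sum (f := fun i => (x i - y i) ^ 2) (fun i _ => sq_nonneg _) (mem_univ i)
      linarith
    rw [dist_emb, mem_image]
    obtain ⟨d, hd⟩ := Int.eq_ofNat_of_zero_le (by linarith : 0 ≤ ∑ i, (x i - y i) ^ 2)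
    refine ⟨d, mem_sqs.mpr ⟨⟨?_, ?_⟩, ⟨fun i => x i - y i, hd⟩⟩, ?_⟩
    · rw [hd] at hpos; exact_mod_cast hpos
    · rw [hd] at hle; exact_mod_cast hle
    · rw [hd]; simp
  · intro δ hδ
    rw [mem_image] at hδ
    obtain ⟨d, hd, rfl⟩ := hδ
    have h := mem_sqs.mp hd
    have hsum : ∑ i, ((0 : Fin k → ℤ) i - w d i) ^ 2 = (d : ℤ) := by
      rw [← hw2 d h.2]
      apply sum_congr rfl
      intro i _
      simp
    have hdist : dist (emb (0 : Fin k → ℤ)) (emb (w d)) = √(d : ℝ) := by
      rw [dist_emb, hsum]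
      simp
    refine ⟨emb (w d), mem_image_of_mem _ (mem_union_left _ (mem_insert_of_mem
      (mem_image_of_mem w hd))), ?_, hdist⟩
    intro h0
    rw [h0, dist_self] at hdist
    have h1 : (0 : ℝ) < √(d : ℝ) := Real.sqrt_pos.mpr (by exact_mod_cast h.1.1)
    linarith
  · rw [card_image_of_injective _ emb_injective]
    calc n ≤ (b + 1) ^ k := hn2
      _ = B.card := hBcard.symm
      _ ≤ PZ.card := card_le_card subset_union_right

/-- The counting function takes all values. -/
lemma exists_R {k : ℕ} (hk : 1 ≤ k) (m : ℕ) : ∃ R, (sqs k R).card = m := by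
  classical
  have hstep : ∀ R, (sqs k (R + 1)).card ≤ (sqs k R).card + 1 := by
    intro R
    have hsub : sqs k (R + 1) ⊆ insert (R + 1) (sqs k R) := by
      intro d hd
      have h := mem_sqs.mp hd
      rw [mem_insert]
      by_cases hR : d = R + 1
      · left; exact hR
      · right; exact mem_sqs.mpr ⟨⟨h.1.1, by omega⟩, h.2⟩
    exact (card_le_card hsub).trans (card_insert_le _ _)
  have h0 : (sqs k 0).card = 0 := by
    rw [card_eq_zero, eq_empty_iff_forall_notMem]
    intro d hd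
    have h := mem_sqs.mp hd
    omega
  have hunb : m ≤ (sqs k (m ^ 2)).card := by
    have hsub : (Icc 1 m).image (fun x => x ^ 2) ⊆ sqs k (m ^ 2) := by
      intro d hd
      rw [mem_image] at hd
      obtain ⟨x, hx, rfl⟩ := hd
      rw [mem_Icc] at hx
      refine mem_sqs.mpr ⟨⟨Nat.one_le_pow _ _ hx.1, Nat.pow_le_pow_left hx.2 2⟩, ?_⟩
      refine ⟨fun i => if i = ⟨0, hk⟩ then (x : ℤ) else 0, ?_⟩
      rw [sum_eq_single (⟨0, hk⟩ : Fin k)]
      · simp
      · intro i _ hi; simp [hi]
      · intro h; exact absurd (mem_univ _) h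
    calc m = (Icc 1 m).card := by simp
      _ = ((Icc 1 m).image (fun x => x ^ 2)).card := by
          rw [card_image_of_injOn]
          intro x _ y _ h
          simp only at h
          exact Nat.pow_left_injective (n := 2) (by norm_num) h
      _ ≤ _ := card_le_card hsub
  -- discrete intermediate value
  have key : ∀ R, ∀ j ≤ (sqs k R).card, ∃ R', (sqs k R').card = j := by
    intro R
    induction R with
    | zero => intro j hj; exact ⟨0, by omega⟩
    | succ R ih =>
      intro j hj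
      by_cases h : j ≤ (sqs k R).card
      · exact ih j h
      · exact ⟨R + 1, by have := hstep R; omega⟩
  exact key _ _ hunb

lemma sqs_le (k R : ℕ) : (sqs k R).card ≤ R := by
  classical
  calc (sqs k R).card ≤ (Icc 1 R).card := by
        apply card_le_card
        intro d hd
        have h := mem_sqs.mp hd
        rw [mem_Icc]; exact h.1
    _ = R := by simp

lemma sqs_mono (k : ℕ) {R R' : ℕ} (h : R ≤ R') : (sqs k R).card ≤ (sqs k R').card := by
  apply card_le_card
  intro d hd
  have h1 := mem_sqs.mp hd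
  exact mem_sqs.mpr ⟨⟨h1.1.1, h1.1.2.trans h⟩, h1.2⟩

/-- Combined statement: if R is at least 36 k^2 n^(2/k) and the number of sums of k squares up to
R is at most n - 1, this number is attained. -/
theorem lattice' {k R n : ℕ} (hk : 2 ≤ k) (hn1 : (sqs k R).card + 1 ≤ n)
    (hR : (n : ℝ) ≤ (√(R : ℝ) / (6 * k)) ^ k) : Val k n (sqs k R).card := by
  set s := Nat.sqrt R with hs
  set a := s / 2 with ha
  set b := a / (3 * k) with hb
  have hk0 : 0 < k := by omega
  have h1 : s ^ 2 ≤ R := Nat.sqrt_le' R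
  have h2 : 2 * a ≤ s := Nat.mul_div_le s 2
  have h3 : 3 * k * b ≤ a := Nat.mul_div_le a (3 * k)
  refine lattice (a := a) (b := b) hk ?_ h3 hn1 ?_
  · calc 4 * a ^ 2 = (2 * a) ^ 2 := by ring
      _ ≤ s ^ 2 := Nat.pow_le_pow_left h2 2
      _ ≤ R := h1
  · have h4 : √(R : ℝ) ≤ 6 * k * (b + 1) := by
      apply Real.sqrt_le_iff.mpr
      refine ⟨by positivity, ?_⟩
      have h5 : R < (s + 1) ^ 2 := Nat.lt_succ_sqrt' R
      have h6 : s + 1 ≤ 2 * (a + 1) := by omega
      have h7 : a + 1 ≤ 3 * k * (b + 1) := by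
        have := Nat.lt_mul_div_succ a (show 0 < 3 * k by positivity)
        rw [← hb] at this
        omega
      have h8 : s + 1 ≤ 6 * k * (b + 1) := by
        calc s + 1 ≤ 2 * (a + 1) := h6
          _ ≤ 2 * (3 * k * (b + 1)) := Nat.mul_le_mul_left 2 h7
          _ = 6 * k * (b + 1) := by ring
      have h9 : R ≤ (6 * k * (b + 1)) ^ 2 := h5.le.trans (Nat.pow_le_pow_left h8 2)
      exact_mod_cast h9
    have h10 : √(R : ℝ) / (6 * k) ≤ (b : ℝ) + 1 := by
      rw [div_le_iff₀ (by positivity)]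
      linarith
    have h11 : (n : ℝ) ≤ ((b : ℝ) + 1) ^ k :=
      hR.trans (pow_le_pow_left₀ (by positivity) h10 k)
    exact_mod_cast h11

end Pool.Agent.Helper119.DistE
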