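import Mathlib

open Real Set Filter Topology

namespace Pool.Agent.Helper119.Helix

/-- Generic point lemma: an analytic function either vanishes identically or is non-zero near
(but off) any given point. -/
lemma gen {f : ℝ → ℝ} (hf : ∀ x, AnalyticAt ℝ f x) (x0 : ℝ) :
    ∀ᶠ τ in 𝓝[≠] x0, (f τ = 0 → ∀ x, f x = 0) := by
  rcases (hf x0).eventually_eq_zero_or_eventually_ne_zero with h | h
  · have h3 : ∀ x, f x = 0 := by
      have h1 : AnalyticOnNhd ℝ f univ := fun x _ => hf x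
      have h2 := h1.eqOn_zero_of_preconnected_of_eventuallyEq_zero isPreconnected_univ
        (mem_univ x0) h
      intro x
      exact h2 (mem_univ x)
    exact Eventually.of_forall fun τ _ => h3
  · filter_upwards [h] with τ h1 h2
    exact absurd h2 h1

/-- Compactness: a small perturbation in a direction that decreases at all maxima. -/
lemma small_pert {K : Set ℝ} (hK : IsCompact K) {f g : ℝ → ℝ} (hf : ContinuousOn f K)
    (hg : ContinuousOn g K) (h : ∀ t ∈ K, f t ≤ 1) (h2 : ∀ t ∈ K, f t = 1 → g t < 0) :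
    ∃ ε0 > 0, ∀ ε, 0 < ε → ε ≤ ε0 → ∀ t ∈ K, f t + ε * g t < 1 := by
  classical
  set K' : Set ℝ := K ∩ g ⁻¹' (Ici 0) with hK'
  have hcK' : IsCompact K' := by
    have hcl : IsClosed K' := hg.preimage_isClosed_of_isClosed hK.isClosed isClosed_Ici
    exact hK.of_isClosed_subset hcl inter_subset_left
  rcases K'.eq_empty_or_nonempty with he | hne
  · refine ⟨1, one_pos, fun ε hε _ t ht => ?_⟩
    have hgt : g t < 0 := by
      by_contra hc
      have : t ∈ K' := ⟨ht, not_lt.mp hc⟩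
      rw [he] at this
      exact this
    have := h t ht
    nlinarith
  · obtain ⟨t1, ht1, hmax1⟩ := hcK'.exists_isMaxOn hne (hf.mono inter_subset_left)
    obtain ⟨t2, ht2, hmax2⟩ := hcK'.exists_isMaxOn hne (hg.mono inter_subset_left)
    have hf1 : f t1 < 1 := by
      rcases (h t1 ht1.1).lt_or_eq with h' | h'
      · exact h'
      · exact absurd ht1.2 (by simpa using h2 t1 ht1.1 h')
    have hg2 : 0 ≤ g t2 := ht2.2
    refine ⟨(1 - f t1) / (2 * (g t2 + 1)), by positivity [sub_pos.mpr hf1], ?_⟩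
    intro ε hε hε0 t ht
    rcases lt_or_ge (g t) 0 with hgt | hgt
    · have := h t ht
      nlinarith
    · have htK : t ∈ K' := ⟨ht, hgt⟩
      have hm1 : f t ≤ f t1 := hmax1 htK
      have hm2 : g t ≤ g t2 := hmax2 htK
      have h3 : ε * (2 * (g t2 + 1)) ≤ 1 - f t1 := by
        rw [le_div_iff₀ (by positivity)] at hε0
        exact hε0
      nlinarith [mul_le_mul_of_nonneg_left hm2 hε.le]

/-- The data: a helix arc in standard position around an axis parallel to the third coordinate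
axis, and the two far endpoints of the attached segments; the ball is centred at the origin. -/
structure D where
  (r c a0 a1 a2 t0 e0 e1 e2 f0 f1 f2 : ℝ)

namespace D

variable (d : D)

/-- Helix point paired with u. -/
noncomputable def hv (u0 u1 u2 t : ℝ) : ℝ :=
  (d.r * cos t + d.a0) * u0 + (d.r * sin t + d.a1) * u1 + (d.c * t + d.a2) * u2

/-- First far endpoint paired with u. -/
noncomputable def ev (u0 u1 u2 : ℝ) : ℝ := d.e0 * u0 + d.e1 * u1 + d.e2 * u2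

/-- Second far endpoint paired with u. -/
noncomputable def fv (u0 u1 u2 : ℝ) : ℝ := d.f0 * u0 + d.f1 * u1 + d.f2 * u2

/-- The support condition. -/
def S : Prop := ∀ u0 u1 u2 : ℝ, u0 ^ 2 + u1 ^ 2 + u2 ^ 2 = 1 →
  (∃ t ∈ Icc d.t0 (d.t0 + π), 1 ≤ d.hv u0 u1 u2 t) ∨ 1 ≤ d.ev u0 u1 u2 ∨ 1 ≤ d.fv u0 u1 u2

/-- Contact directions at the parameter τ. -/
structure U (τ u0 u1 u2 : ℝ) : Prop where
  unit : u0 ^ 2 + u1 ^ 2 + u2 ^ 2 = 1
  tau : d.hv u0 u1 u2 τ = 1
  arc : ∀ t ∈ Icc d.t0 (d.t0 + π), d.hv u0 u1 u2 t ≤ 1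
  hE : d.ev u0 u1 u2 ≤ 1
  hF : d.fv u0 u1 u2 ≤ 1

variable {d}

lemma S.big (hS : d.S) {u0 u1 u2 : ℝ} (hu : 1 ≤ u0 ^ 2 + u1 ^ 2 + u2 ^ 2) :
    (∃ t ∈ Icc d.t0 (d.t0 + π), 1 ≤ d.hv u0 u1 u2 t) ∨ 1 ≤ d.ev u0 u1 u2 ∨
      1 ≤ d.fv u0 u1 u2 := by
  set m := √(u0 ^ 2 + u1 ^ 2 + u2 ^ 2) with hm
  have hm1 : 1 ≤ m := by
    rw [hm]; exact Real.one_le_sqrt.mpr hu
  have hm0 : 0 < m := by linarith
  have hmm : m ^ 2 = u0 ^ 2 + u1 ^ 2 + u2 ^ 2 := Real.sq_sqrt (by linarith)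
  have h1 : (u0 / m) ^ 2 + (u1 / m) ^ 2 + (u2 / m) ^ 2 = 1 := by
    field_simp
    linarith
  rcases hS _ _ _ h1 with ⟨t, ht, h⟩ | h | h
  · left
    refine ⟨t, ht, ?_⟩
    have : d.hv (u0 / m) (u1 / m) (u2 / m) t = d.hv u0 u1 u2 t / m := by
      simp only [hv]; field_simp
    rw [this, le_div_iff₀ hm0] at h
    linarith
  · right; left
    have : d.ev (u0 / m) (u1 / m) (u2 / m) = d.ev u0 u1 u2 / m := by
      simp only [ev]; field_simp
    rw [this, le_div_iff₀ hm0] at h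
    linarith
  · right; right
    have : d.fv (u0 / m) (u1 / m) (u2 / m) = d.fv u0 u1 u2 / m := by
      simp only [fv]; field_simp
    rw [this, le_div_iff₀ hm0] at h
    linarith

lemma hv_continuous (u0 u1 u2 : ℝ) : Continuous (d.hv u0 u1 u2) := by
  unfold hv; fun_prop

lemma hv_deriv (u0 u1 u2 t : ℝ) : HasDerivAt (d.hv u0 u1 u2)
    (-(d.r * sin t) * u0 + d.r * cos t * u1 + d.c * u2) t := by
  have h1 := (((Real.hasDerivAt_cos t).const_mul d.r).add_const d.a0).mul_const u0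
  have h2 := (((Real.hasDerivAt_sin t).const_mul d.r).add_const d.a1).mul_const u1
  have h3 := (((hasDerivAt_id t).const_mul d.c).add_const d.a2).mul_const u2
  have h := (h1.add h2).add h3
  refine (h.congr_deriv ?_).congr_of_eventuallyEq ?_
  · ring
  · exact Eventually.of_forall fun s => by simp [hv]

lemma S.touch (hS : d.S) {τ u0 u1 u2 : ℝ} (hU : d.U τ u0 u1 u2) :
    (u0 = d.r * cos τ + d.a0 ∧ u1 = d.r * sin τ + d.a1 ∧ u2 = d.c * τ + d.a2) ∨
    d.ev u0 u1 u2 = 1 ∨ d.fv u0 u1 u2 = 1 ∨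
    ∃ t ∈ Icc d.t0 (d.t0 + π), t ≠ τ ∧ d.hv u0 u1 u2 t = 1 := by
  by_contra hcon
  push Not at hcon
  obtain ⟨hne, hE1, hF1, harc⟩ := hcon
  set p0 := d.r * cos τ + d.a0 with hp0
  set p1 := d.r * sin τ + d.a1 with hp1
  set p2 := d.c * τ + d.a2 with hp2
  have htau : p0 * u0 + p1 * u1 + p2 * u2 = 1 := by
    have := hU.tau; simpa [hv] using this
  have hunit := hU.unit
  have hpos : 0 < (u0 - p0) ^ 2 + (u1 - p1) ^ 2 + (u2 - p2) ^ 2 := by
    by_contra hle
    have hle := not_lt.mp hle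
    have h0 : u0 - p0 = 0 := by nlinarith [sq_nonneg (u0 - p0), sq_nonneg (u1 - p1), sq_nonneg (u2 - p2)]
    have h1 : u1 - p1 = 0 := by nlinarith [sq_nonneg (u0 - p0), sq_nonneg (u1 - p1), sq_nonneg (u2 - p2)]
    have h2 : u2 - p2 = 0 := by nlinarith [sq_nonneg (u0 - p0), sq_nonneg (u1 - p1), sq_nonneg (u2 - p2)]
    exact hne (by linarith) (by linarith) (by linarith)
  have hN : 1 < p0 ^ 2 + p1 ^ 2 + p2 ^ 2 := by nlinarith
  -- the direction of rotation
  have hlin : ∀ ε t, d.hv (u0 + ε * (u0 - p0)) (u1 + ε * (u1 - p1)) (u2 + ε * (u2 - p2)) t =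
      d.hv u0 u1 u2 t + ε * d.hv (u0 - p0) (u1 - p1) (u2 - p2) t := by
    intro ε t; simp only [hv]; ring
  have hlinE : ∀ ε, d.ev (u0 + ε * (u0 - p0)) (u1 + ε * (u1 - p1)) (u2 + ε * (u2 - p2)) =
      d.ev u0 u1 u2 + ε * d.ev (u0 - p0) (u1 - p1) (u2 - p2) := by
    intro ε; simp only [ev]; ring
  have hlinF : ∀ ε, d.fv (u0 + ε * (u0 - p0)) (u1 + ε * (u1 - p1)) (u2 + ε * (u2 - p2)) =
      d.fv u0 u1 u2 + ε * d.fv (u0 - p0) (u1 - p1) (u2 - p2) := by
    intro ε; simp only [fv]; ring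
  obtain ⟨ε1, hε1, H1⟩ := small_pert (K := Icc d.t0 (d.t0 + π)) isCompact_Icc
    (f := d.hv u0 u1 u2) (g := d.hv (u0 - p0) (u1 - p1) (u2 - p2))
    (hv_continuous _ _ _).continuousOn (hv_continuous _ _ _).continuousOn hU.arc (by
      intro t ht h1
      have htt : t = τ := by
        by_contra h; exact harc t ht h h1
      subst htt
      simp only [hv]
      rw [← hp0, ← hp1, ← hp2]
      nlinarith)
  obtain ⟨ε2, hε2, H2⟩ := small_pert (K := {(0 : ℝ)}) isCompact_singleton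
    (f := fun _ => d.ev u0 u1 u2) (g := fun _ => d.ev (u0 - p0) (u1 - p1) (u2 - p2))
    continuousOn_const continuousOn_const (fun _ _ => hU.hE) (fun _ _ h => absurd h hE1)
  obtain ⟨ε3, hε3, H3⟩ := small_pert (K := {(0 : ℝ)}) isCompact_singleton
    (f := fun _ => d.fv u0 u1 u2) (g := fun _ => d.fv (u0 - p0) (u1 - p1) (u2 - p2))
    continuousOn_const continuousOn_const (fun _ _ => hU.hF) (fun _ _ h => absurd h hF1)
  set ε := min ε1 (min ε2 ε3) with hε
  have hε0 : 0 < ε := lt_min hε1 (lt_min hε2 hε3)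
  have hεa : ε ≤ ε1 := min_le_left _ _
  have hεb : ε ≤ ε2 := (min_le_right _ _).trans (min_le_left _ _)
  have hεc : ε ≤ ε3 := (min_le_right _ _).trans (min_le_right _ _)
  have hbig : 1 ≤ (u0 + ε * (u0 - p0)) ^ 2 + (u1 + ε * (u1 - p1)) ^ 2 +
      (u2 + ε * (u2 - p2)) ^ 2 := by
    have e : (u0 + ε * (u0 - p0)) ^ 2 + (u1 + ε * (u1 - p1)) ^ 2 +
      (u2 + ε * (u2 - p2)) ^ 2 = (u0 ^ 2 + u1 ^ 2 + u2 ^ 2) +
      2 * ε * ((u0 ^ 2 + u1 ^ 2 + u2 ^ 2) - (p0 * u0 + p1 * u1 + p2 * u2)) +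
      ε ^ 2 * ((u0 - p0) ^ 2 + (u1 - p1) ^ 2 + (u2 - p2) ^ 2) := by ring
    rw [e, hunit, htau]
    nlinarith [mul_nonneg (sq_nonneg ε) hpos.le]
  rcases hS.big hbig with ⟨t, ht, h⟩ | h | h
  · rw [hlin] at h
    exact absurd h (not_le.mpr (H1 ε hε0 hεa t ht))
  · rw [hlinE] at h
    exact absurd h (not_le.mpr (H2 ε hε0 hεb 0 rfl))
  · rw [hlinF] at h
    exact absurd h (not_le.mpr (H3 ε hε0 hεc 0 rfl))

/-- At an interior contact parameter the derivative vanishes. -/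
lemma U.deriv_zero {τ u0 u1 u2 : ℝ} (hU : d.U τ u0 u1 u2) {t : ℝ}
    (ht : t ∈ Ioo d.t0 (d.t0 + π)) (h1 : d.hv u0 u1 u2 t = 1) :
    -(d.r * sin t) * u0 + d.r * cos t * u1 + d.c * u2 = 0 := by
  have hmax : IsLocalMax (d.hv u0 u1 u2) t := by
    filter_upwards [Ioo_mem_nhds ht.1 ht.2] with s hs
    rw [h1]
    exact hU.arc s ⟨hs.1.le, hs.2.le⟩
  exact hmax.hasDerivAt_eq_zero (hv_deriv _ _ _ _)

/-- Two interior contact points are impossible for a genuine helix. -/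
lemma U.no_two (hr : 0 < d.r) (hc : d.c ≠ 0) {τ u0 u1 u2 : ℝ} (hU : d.U τ u0 u1 u2)
    {s1 s2 : ℝ} (h12 : s1 < s2) (hs1 : s1 ∈ Ioo d.t0 (d.t0 + π))
    (hs2 : s2 ∈ Ioo d.t0 (d.t0 + π)) (h1 : d.hv u0 u1 u2 s1 = 1)
    (h2 : d.hv u0 u1 u2 s2 = 1) : False := by
  set g : ℝ → ℝ := fun t => -(d.r * sin t) * u0 + d.r * cos t * u1 + d.c * u2 with hg
  have hgd : ∀ t, HasDerivAt g (-d.r * (cos t * u0 + sin t * u1)) t := by
    intro t
    have a1 := (((Real.hasDerivAt_sin t).const_mul d.r).neg).mul_const u0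
    have a2 := ((Real.hasDerivAt_cos t).const_mul d.r).mul_const u1
    have h := (a1.add a2).add_const (d.c * u2)
    refine (h.congr_deriv ?_).congr_of_eventuallyEq ?_
    · ring
    · exact Eventually.of_forall fun s => by simp [hg]
  have z1 : g s1 = 0 := hU.deriv_zero hs1 h1
  have z2 : g s2 = 0 := hU.deriv_zero hs2 h2
  obtain ⟨m, hm, hm0⟩ := exists_hasDerivAt_eq_zero h12
    (hv_continuous (d := d) u0 u1 u2).continuousOn (by rw [h1, h2])
    (fun x _ => hv_deriv (d := d) u0 u1 u2 x)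
  have z3 : g m = 0 := hm0
  have hgc : Continuous g := by rw [hg]; fun_prop
  obtain ⟨p, hp, hp0⟩ := exists_hasDerivAt_eq_zero hm.1 hgc.continuousOn (by rw [z1, z3])
    (fun x _ => hgd x)
  obtain ⟨q, hq, hq0⟩ := exists_hasDerivAt_eq_zero hm.2 hgc.continuousOn (by rw [z3, z2])
    (fun x _ => hgd x)
  have hp1 : cos p * u0 + sin p * u1 = 0 := by
    rcases mul_eq_zero.mp hp0 with h | h
    · linarith
    · exact h
  have hq1 : cos q * u0 + sin q * u1 = 0 := by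
    rcases mul_eq_zero.mp hq0 with h | h
    · linarith
    · exact h
  have hsin : 0 < sin (q - p) := by
    apply Real.sin_pos_of_pos_of_lt_pi
    · linarith [hp.2, hq.1]
    · linarith [hp.1, hq.2, hs1.1, hs2.2]
  rw [Real.sin_sub] at hsin
  have hu0 : u0 = 0 := by
    have : (sin q * cos p - cos q * sin p) * u0 = 0 := by
      linear_combination sin q * hp1 - sin p * hq1
    rcases mul_eq_zero.mp this with h | h
    · linarith
    · exact h
  have hu1 : u1 = 0 := by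
    have : (sin q * cos p - cos q * sin p) * u1 = 0 := by
      linear_combination cos p * hq1 - cos q * hp1
    rcases mul_eq_zero.mp this with h | h
    · linarith
    · exact h
  have hu2 : u2 = 0 := by
    have : d.c * u2 = 0 := by
      have := z1
      simp only [hg, hu0, hu1] at this
      linarith
    rcases mul_eq_zero.mp this with h | h
    · exact absurd h hc
    · exact h
  have := hU.unit
  rw [hu0, hu1, hu2] at this
  norm_num at this

/-- The contact function attached to a further contact point with coordinates q. -/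
noncomputable def R (d : D) (q0 q1 q2 t : ℝ) : ℝ :=
  (d.r * cos t * (d.c * t + d.a2 - q2) - d.c * (d.r * sin t + d.a1 - q1)) ^ 2 +
  (d.c * (d.r * cos t + d.a0 - q0) + d.r * sin t * (d.c * t + d.a2 - q2)) ^ 2 +
  (-(d.r * sin t) * (d.r * sin t + d.a1 - q1) - d.r * cos t * (d.r * cos t + d.a0 - q0)) ^ 2 -
  ((d.r * cos t * (d.c * t + d.a2 - q2) - d.c * (d.r * sin t + d.a1 - q1)) * q0 +
   (d.c * (d.r * cos t + d.a0 - q0) + d.r * sin t * (d.c * t + d.a2 - q2)) * q1 +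
   (-(d.r * sin t) * (d.r * sin t + d.a1 - q1) -
      d.r * cos t * (d.r * cos t + d.a0 - q0)) * q2) ^ 2

lemma R_analytic (q0 q1 q2 : ℝ) : ∀ x, AnalyticAt ℝ (R d q0 q1 q2) x := by
  intro x
  unfold R
  fun_prop

/-- A further contact forces the contact function to vanish. -/
lemma U.R_zero {τ u0 u1 u2 : ℝ} (hU : d.U τ u0 u1 u2) (hτ : τ ∈ Ioo d.t0 (d.t0 + π))
    {q0 q1 q2 : ℝ} (hq : q0 * u0 + q1 * u1 + q2 * u2 = 1) : R d q0 q1 q2 τ = 0 := by
  have h1 := hU.unit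
  have h2 := hU.tau
  have h3 := hU.deriv_zero hτ hU.tau
  simp only [hv] at h2
  unfold R
  set s := sin τ
  set k := cos τ
  set p0 := d.r * k + d.a0
  set p1 := d.r * s + d.a1
  set p2 := d.c * τ + d.a2
  have hz : (p0 - q0) * u0 + (p1 - q1) * u1 + (p2 - q2) * u2 = 0 := by linarith
  set T0 := -(d.r * s) with hT0
  set T1 := d.r * k with hT1
  -- C = T × Z
  set C0 := T1 * (p2 - q2) - d.c * (p1 - q1) with hC0
  set C1 := d.c * (p0 - q0) - T0 * (p2 - q2) with hC1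
  set C2 := T0 * (p1 - q1) - T1 * (p0 - q0) with hC2
  have hc0 : C0 = (C0 * u0 + C1 * u1 + C2 * u2) * u0 := by
    rw [hC0, hC1, hC2]
    linear_combination (-(T1 * (p2 - q2) - d.c * (p1 - q1))) * h1 -
      (u2 * (p1 - q1) - u1 * (p2 - q2)) * h3 - (u1 * d.c - u2 * T1) * hz
  have hc1 : C1 = (C0 * u0 + C1 * u1 + C2 * u2) * u1 := by
    rw [hC0, hC1, hC2]
    linear_combination (-(d.c * (p0 - q0) - T0 * (p2 - q2))) * h1 -
      (u0 * (p2 - q2) - u2 * (p0 - q0)) * h3 - (u2 * T0 - u0 * d.c) * hz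
  have hc2 : C2 = (C0 * u0 + C1 * u1 + C2 * u2) * u2 := by
    rw [hC0, hC1, hC2]
    linear_combination (-(T0 * (p1 - q1) - T1 * (p0 - q0))) * h1 -
      (u1 * (p0 - q0) - u0 * (p1 - q1)) * h3 - (u0 * T1 - u1 * T0) * hz
  have hfin : C0 ^ 2 + C1 ^ 2 + C2 ^ 2 - (C0 * q0 + C1 * q1 + C2 * q2) ^ 2 = 0 := by
    set m := C0 * u0 + C1 * u1 + C2 * u2 with hm
    have e1 : C0 ^ 2 + C1 ^ 2 + C2 ^ 2 = m ^ 2 := by
      rw [hc0, hc1, hc2]; linear_combination m ^ 2 * h1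
    have e2 : C0 * q0 + C1 * q1 + C2 * q2 = m := by
      rw [hc0, hc1, hc2]; linear_combination m * hq
    rw [e1, e2]; ring
  have e : C1 = d.c * (p0 - q0) + d.r * s * (p2 - q2) := by rw [hC1, hT0]; ring
  rw [← hfin, hC0, e, hC2, hT0, hT1]

lemma R_nonzero (hr : 0 < d.r) (hc : d.c ≠ 0) (q0 q1 q2 : ℝ) : ∃ x, R d q0 q1 q2 x ≠ 0 := by
  -- pick x with q0 cos x + q1 sin x = 0
  obtain ⟨x, hx⟩ : ∃ x : ℝ, q0 * cos x + q1 * sin x = 0 := by
    have hcont : ContinuousOn (fun x : ℝ => q0 * cos x + q1 * sin x) (uIcc 0 π) := by fun_prop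
    have hiv := intermediate_value_uIcc hcont
    have h0 : (0 : ℝ) ∈ uIcc (q0 * cos 0 + q1 * sin 0) (q0 * cos π + q1 * sin π) := by
      simp only [cos_zero, sin_zero, cos_pi, sin_pi, mul_one, mul_zero, add_zero, mul_neg]
      rw [mem_uIcc]
      rcases le_total q0 0 with h | h
      · left; constructor <;> linarith
      · right; constructor <;> linarith
    obtain ⟨x, _, hx⟩ := hiv h0
    exact ⟨x, hx⟩
  by_contra hcon
  push Not at hcon
  have c1 : cos (x + 2 * π) = cos x := Real.cos_add_two_pi x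
  have s1 : sin (x + 2 * π) = sin x := Real.sin_add_two_pi x
  have c2 : cos (x + 2 * π + 2 * π) = cos x := by rw [Real.cos_add_two_pi, c1]
  have s2 : sin (x + 2 * π + 2 * π) = sin x := by rw [Real.sin_add_two_pi, s1]
  have r0 := hcon x
  have r1 := hcon (x + 2 * π)
  have r2 := hcon (x + 2 * π + 2 * π)
  unfold R at r0 r1 r2
  rw [c1, s1] at r1
  rw [c2, s2] at r2
  have hcs := Real.sin_sq_add_cos_sq x
  have key : 8 * π ^ 2 * d.r ^ 2 * d.c ^ 2 = 0 := by
    have : 8 * π ^ 2 * d.r ^ 2 * d.c ^ 2 * ((sin x ^ 2 + cos x ^ 2) -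
        (q0 * cos x + q1 * sin x) ^ 2) = 0 := by
      linear_combination r0 - 2 * r1 + r2
    rw [hcs, hx] at this
    linarith
  have hpi := Real.pi_pos
  have : 0 < 8 * π ^ 2 * d.r ^ 2 * d.c ^ 2 := by positivity
  linarith

/-- The squared norm of the helix minus one. -/
noncomputable def NN (d : D) (t : ℝ) : ℝ :=
  (d.r * cos t + d.a0) ^ 2 + (d.r * sin t + d.a1) ^ 2 + (d.c * t + d.a2) ^ 2 - 1

lemma NN_analytic : ∀ x, AnalyticAt ℝ (NN d) x := by
  intro x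
  unfold NN
  fun_prop

lemma NN_nonzero (hc : d.c ≠ 0) : ∃ x, NN d x ≠ 0 := by
  by_contra hcon
  push Not at hcon
  have c1 : cos (0 + 2 * π) = cos 0 := Real.cos_add_two_pi 0
  have s1 : sin (0 + 2 * π) = sin 0 := Real.sin_add_two_pi 0
  have c2 : cos (0 + 2 * π + 2 * π) = cos 0 := by rw [Real.cos_add_two_pi, c1]
  have s2 : sin (0 + 2 * π + 2 * π) = sin 0 := by rw [Real.sin_add_two_pi, s1]
  have r0 := hcon 0
  have r1 := hcon (0 + 2 * π)
  have r2 := hcon (0 + 2 * π + 2 * π)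
  unfold NN at r0 r1 r2
  rw [c1, s1] at r1
  rw [c2, s2] at r2
  have key : 8 * π ^ 2 * d.c ^ 2 = 0 := by
    linear_combination r0 - 2 * r1 + r2
  have hpi := Real.pi_pos
  have : 0 < 8 * π ^ 2 * d.c ^ 2 := by positivity
  linarith

/-- Genuine helix: at some interior parameter there is no contact direction at all. -/
theorem core_helix (hr : 0 < d.r) (hc : d.c ≠ 0) (hS : d.S) :
    ∃ τ ∈ Ioo d.t0 (d.t0 + π), ∀ u0 u1 u2, ¬ d.U τ u0 u1 u2 := by
  have hpi := Real.pi_pos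
  set x0 := d.t0 + π / 2 with hx0
  have hin : ∀ᶠ τ in 𝓝[≠] x0, τ ∈ Ioo d.t0 (d.t0 + π) :=
    nhdsWithin_le_nhds (Ioo_mem_nhds (by linarith) (by linarith))
  have hgN := gen (NN_analytic (d := d)) x0
  have hgE := gen (R_analytic (d := d) d.e0 d.e1 d.e2) x0
  have hgF := gen (R_analytic (d := d) d.f0 d.f1 d.f2) x0
  have hgA := gen (R_analytic (d := d) (d.r * cos d.t0 + d.a0) (d.r * sin d.t0 + d.a1)
    (d.c * d.t0 + d.a2)) x0
  have hgB := gen (R_analytic (d := d) (d.r * cos (d.t0 + π) + d.a0)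
    (d.r * sin (d.t0 + π) + d.a1) (d.c * (d.t0 + π) + d.a2)) x0
  obtain ⟨τ, hτ, hN, hE, hF, hA, hB⟩ := (hin.and (hgN.and (hgE.and (hgF.and
    (hgA.and hgB))))).exists
  refine ⟨τ, hτ, fun u0 u1 u2 hU => ?_⟩
  have kill : ∀ q0 q1 q2 : ℝ, (R d q0 q1 q2 τ = 0 → ∀ x, R d q0 q1 q2 x = 0) →
      q0 * u0 + q1 * u1 + q2 * u2 = 1 → False := by
    intro q0 q1 q2 h hq
    obtain ⟨x, hx⟩ := R_nonzero hr hc q0 q1 q2
    exact hx (h (hU.R_zero hτ hq) x)
  rcases hS.touch hU with h | h | h | ⟨t, ht, htne, ht1⟩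
  · have : NN d τ = 0 := by
      unfold NN
      rw [← h.1, ← h.2.1, ← h.2.2, hU.unit]; ring
    obtain ⟨x, hx⟩ := NN_nonzero hc
    exact hx (hN this x)
  · exact kill _ _ _ hE h
  · exact kill _ _ _ hF h
  · rcases ht.1.eq_or_lt with h0 | h0
    · subst h0
      exact kill _ _ _ hA ht1
    · rcases ht.2.eq_or_lt with h0' | h0'
      · subst h0'
        exact kill _ _ _ hB ht1
      · rcases lt_or_gt_of_ne htne with hlt | hlt
        · exact hU.no_two hr hc hlt ⟨h0, h0'⟩ hτ ht1 hU.tau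
        · exact hU.no_two hr hc hlt hτ ⟨h0, h0'⟩ hU.tau ht1

end D

end Pool.Agent.Helper119.Helix
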