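import Mathlib
import Pool.Agent.Helper119.HelixCore

open Real Set Filter Topology

namespace Pool.Agent.Helper119.Helix

namespace D

variable {d : D}

lemma S.big1 (hS : d.S) {u0 u1 u2 : ℝ} (hu : 1 < u0 ^ 2 + u1 ^ 2 + u2 ^ 2) :
    (∃ t ∈ Icc d.t0 (d.t0 + π), 1 < d.hv u0 u1 u2 t) ∨ 1 < d.ev u0 u1 u2 ∨
      1 < d.fv u0 u1 u2 := by
  set m := √(u0 ^ 2 + u1 ^ 2 + u2 ^ 2) with hm
  have hm1 : 1 < m := by
    rw [hm]; exact Real.lt_sqrt_of_sq_lt (by linarith)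
  have hm0 : 0 < m := by linarith
  have hmm : m ^ 2 = u0 ^ 2 + u1 ^ 2 + u2 ^ 2 := Real.sq_sqrt (by linarith)
  have h1 : (u0 / m) ^ 2 + (u1 / m) ^ 2 + (u2 / m) ^ 2 = 1 := by
    field_simp
    linarith
  rcases hS _ _ _ h1 with ⟨t, ht, h⟩ | h | h
  · left
    refine ⟨t, ht, ?_⟩
    have : d.hv (u0 / m) (u1 / m) (u2 / m) t = d.hv u0 u1 u2 t / m := by
      simp only [hv]; field_simp
    rw [this, le_div_iff₀ hm0] at h
    linarith
  · right; left
    have : d.ev (u0 / m) (u1 / m) (u2 / m) = d.ev u0 u1 u2 / m := by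
      simp only [ev]; field_simp
    rw [this, le_div_iff₀ hm0] at h
    linarith
  · right; right
    have : d.fv (u0 / m) (u1 / m) (u2 / m) = d.fv u0 u1 u2 / m := by
      simp only [fv]; field_simp
    rw [this, le_div_iff₀ hm0] at h
    linarith

/-- Structure of contact directions of a flat arc. -/
lemma U.flat (hr : 0 < d.r) (hc : d.c = 0) {τ u0 u1 u2 : ℝ} (hU : d.U τ u0 u1 u2)
    (hτ : τ ∈ Ioo d.t0 (d.t0 + π)) :
    ∃ ρ : ℝ, 0 ≤ ρ ∧ u0 = ρ * cos τ ∧ u1 = ρ * sin τ ∧ ρ ^ 2 + u2 ^ 2 = 1 ∧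
      ρ * (d.r + (d.a0 * cos τ + d.a1 * sin τ)) + u2 * d.a2 = 1 := by
  have h1 := hU.deriv_zero hτ hU.tau
  rw [hc] at h1
  have h2 : cos τ * u1 - sin τ * u0 = 0 := by
    have : d.r * (cos τ * u1 - sin τ * u0) = 0 := by linarith
    rcases mul_eq_zero.mp this with h | h
    · exact absurd h hr.ne'
    · exact h
  have hcs := Real.sin_sq_add_cos_sq τ
  set ρ := cos τ * u0 + sin τ * u1 with hρ
  have e0 : u0 = ρ * cos τ := by
    rw [hρ]; linear_combination (-u0) * hcs - sin τ * h2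
  have e1 : u1 = ρ * sin τ := by
    rw [hρ]; linear_combination (-u1) * hcs + cos τ * h2
  have h3 : ρ ^ 2 + u2 ^ 2 = 1 := by
    rw [← hU.unit, e0, e1]
    linear_combination (-ρ ^ 2) * hcs
  have h4 : ρ * (d.r + (d.a0 * cos τ + d.a1 * sin τ)) + u2 * d.a2 = 1 := by
    have := hU.tau
    simp only [hv] at this
    rw [hc, e0, e1] at this
    linear_combination this - d.r * ρ * hcs
  refine ⟨ρ, ?_, e0, e1, h3, h4⟩
  have h5 := hU.arc d.t0 ⟨le_refl _, by linarith [Real.pi_pos]⟩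
  simp only [hv] at h5
  rw [hc, e0, e1] at h5
  have hcos : cos (τ - d.t0) < 1 := by
    have h0 : 0 < τ - d.t0 := by linarith [hτ.1]
    have hpi : τ - d.t0 ≤ π := by linarith [hτ.2]
    have := Real.cos_lt_cos_of_nonneg_of_le_pi (le_refl 0) hpi h0
    rwa [cos_zero] at this
  rw [Real.cos_sub] at hcos
  by_contra hneg
  push Not at hneg
  have h6 : d.r * ρ * (1 - (cos τ * cos d.t0 + sin τ * sin d.t0)) ≥ 0 := by nlinarith
  have h7 : d.r * ρ * (1 - (cos τ * cos d.t0 + sin τ * sin d.t0)) < 0 := by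
    have : d.r * ρ < 0 := mul_neg_of_pos_of_neg hr hneg
    exact mul_neg_of_neg_of_pos this (by linarith)
  linarith

/-- Two-dimensional tangency identity. -/
lemma tangency {ρ v x y g h : ℝ} (h1 : ρ ^ 2 + v ^ 2 = 1) (h2 : ρ * x + v * y = 1)
    (h3 : ρ * g + v * h = 1) : (x - g) ^ 2 + (y - h) ^ 2 - (x * h - y * g) ^ 2 = 0 := by
  have e1 : x - g = -v * (ρ * (y - h) - v * (x - g)) := by
    linear_combination (-(x - g)) * h1 + ρ * (h2 - h3)
  have e2 : y - h = ρ * (ρ * (y - h) - v * (x - g)) := by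
    linear_combination (-(y - h)) * h1 + v * (h2 - h3)
  have e3 : x * h - y * g = -(ρ * (y - h) - v * (x - g)) := by
    linear_combination h * e1 - g * e2 - (ρ * (y - h) - v * (x - g)) * h3
  set l := ρ * (y - h) - v * (x - g) with hl
  linear_combination (x - g - v * l) * e1 + (y - h + ρ * l) * e2 - (x * h - y * g - l) * e3 +
    l ^ 2 * h1

/-- The tangency function of the flat arc with a point q. -/
noncomputable def K (d : D) (q0 q1 q2 t : ℝ) : ℝ :=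
  ((d.r + (d.a0 * cos t + d.a1 * sin t)) - (q0 * cos t + q1 * sin t)) ^ 2 + (d.a2 - q2) ^ 2 -
    ((d.r + (d.a0 * cos t + d.a1 * sin t)) * q2 - d.a2 * (q0 * cos t + q1 * sin t)) ^ 2

lemma K_analytic (q0 q1 q2 : ℝ) : ∀ x, AnalyticAt ℝ (K d q0 q1 q2) x := by
  intro x
  unfold K
  fun_prop

lemma K_ident (hr : 0 < d.r) {q0 q1 q2 : ℝ} (h : ∀ x, K d q0 q1 q2 x = 0) :
    (d.a2 = q2 ∧ q2 ^ 2 = 1) ∨ (d.a0 = 0 ∧ d.a1 = 0 ∧ q0 = 0 ∧ q1 = 0 ∧ 1 < q2 ^ 2 ∧
      d.r ^ 2 * (1 - q2 ^ 2) + (d.a2 - q2) ^ 2 = 0) := by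
  have k1 := h 0
  have k2 := h π
  have k3 := h (π / 2)
  have k4 := h (π / 2 + π)
  have k5 := h (π / 4)
  have k6 := h (π / 4 + π)
  unfold K at k1 k2 k3 k4 k5 k6
  simp only [cos_zero, sin_zero, cos_pi, sin_pi, cos_pi_div_two, sin_pi_div_two,
    cos_pi_div_four, sin_pi_div_four, cos_add_pi, sin_add_pi] at k1 k2 k3 k4 k5 k6
  have hs2 : (√2 / 2) ^ 2 = (1 : ℝ) / 2 := by
    rw [div_pow, Real.sq_sqrt (by norm_num)]; norm_num
  set w := √2 / 2 with hw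
  have hw0 : 0 < w := by positivity
  set b0 := d.a0 * q2 - d.a2 * q0 with hb0
  set b1 := d.a1 * q2 - d.a2 * q1 with hb1
  have A0 : d.a0 - q0 = q2 * b0 := by
    have : d.r * ((d.a0 - q0) - q2 * b0) = 0 := by
      rw [hb0]; linear_combination (k1 - k2) / 4
    rcases mul_eq_zero.mp this with h | h
    · exact absurd h hr.ne'
    · linarith
  have A1 : d.a1 - q1 = q2 * b1 := by
    have : d.r * ((d.a1 - q1) - q2 * b1) = 0 := by
      rw [hb1]; linear_combination (k3 - k4) / 4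
    rcases mul_eq_zero.mp this with h | h
    · exact absurd h hr.ne'
    · linarith
  have B0 : d.r ^ 2 * (1 - q2 ^ 2) + (d.a2 - q2) ^ 2 = (1 - q2 ^ 2) * b0 ^ 2 := by
    have e : (d.r) ^ 2 + (d.a0 - q0) ^ 2 + (d.a2 - q2) ^ 2 = d.r ^ 2 * q2 ^ 2 + b0 ^ 2 := by
      rw [hb0]; linear_combination (k1 + k2) / 2
    rw [A0] at e
    linarith
  have B1 : d.r ^ 2 * (1 - q2 ^ 2) + (d.a2 - q2) ^ 2 = (1 - q2 ^ 2) * b1 ^ 2 := by
    have e : (d.r) ^ 2 + (d.a1 - q1) ^ 2 + (d.a2 - q2) ^ 2 = d.r ^ 2 * q2 ^ 2 + b1 ^ 2 := by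
      rw [hb1]; linear_combination (k3 + k4) / 2
    rw [A1] at e
    linarith
  have B2 : d.r ^ 2 * (1 - q2 ^ 2) + (d.a2 - q2) ^ 2 =
      (1 - q2 ^ 2) * ((b0 + b1) ^ 2 * (1 / 2)) := by
    have e : (d.r) ^ 2 + w ^ 2 * ((d.a0 - q0) + (d.a1 - q1)) ^ 2 + (d.a2 - q2) ^ 2 =
        d.r ^ 2 * q2 ^ 2 + w ^ 2 * (b0 + b1) ^ 2 := by
      rw [hb0, hb1]; linear_combination (k5 + k6) / 2
    rw [A0, A1, hs2] at e
    linarith
  by_cases hq : q2 ^ 2 = 1
  · left
    rw [hq] at B0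
    refine ⟨?_, hq⟩
    have : (d.a2 - q2) ^ 2 = 0 := by linarith
    have := pow_eq_zero_iff (two_ne_zero) |>.mp this
    linarith
  · right
    have hq' : 1 - q2 ^ 2 ≠ 0 := fun h => hq (by linarith)
    have C1 : b0 ^ 2 = b1 ^ 2 := mul_left_cancel₀ hq' (by linarith)
    have C2 : b0 ^ 2 = (b0 + b1) ^ 2 * (1 / 2) := mul_left_cancel₀ hq' (by linarith)
    have C3 : b0 * b1 = 0 := by linarith
    have D0 : b0 = 0 := by
      have : b0 ^ 4 = 0 := by
        have : b0 ^ 4 = b0 ^ 2 * b1 ^ 2 := by rw [← C1]; ring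
        rw [this, ← mul_pow, C3]; norm_num
      exact pow_eq_zero_iff (by norm_num) |>.mp this
    have D1 : b1 = 0 := by
      have : b1 ^ 2 = 0 := by rw [← C1, D0]; norm_num
      exact pow_eq_zero_iff (by norm_num) |>.mp this
    rw [D0] at A0 B0
    rw [D1] at A1
    have E0 : q0 = d.a0 := by linarith
    have E1 : q1 = d.a1 := by linarith
    have hx : d.a2 - q2 ≠ 0 := by
      intro h0
      rw [h0] at B0
      have : d.r ^ 2 * (1 - q2 ^ 2) = 0 := by linarith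
      rcases mul_eq_zero.mp this with h | h
      · exact absurd (pow_eq_zero_iff (by norm_num) |>.mp h) hr.ne'
      · exact hq' h
    have F0 : d.a0 = 0 := by
      have : (d.a2 - q2) * d.a0 = 0 := by
        have := D0
        rw [hb0, E0] at this
        linarith
      rcases mul_eq_zero.mp this with h | h
      · exact absurd h hx
      · exact h
    have F1 : d.a1 = 0 := by
      have : (d.a2 - q2) * d.a1 = 0 := by
        have := D1
        rw [hb1, E1] at this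
        linarith
      rcases mul_eq_zero.mp this with h | h
      · exact absurd h hx
      · exact h
    refine ⟨F0, F1, by rw [E0, F0], by rw [E1, F1], ?_, by linarith⟩
    by_contra hle
    push Not at hle
    have : 0 < 1 - q2 ^ 2 := lt_of_le_of_ne (by linarith) (Ne.symm hq')
    have h2 : 0 < (d.a2 - q2) ^ 2 := by positivity
    have h3 : 0 < d.r ^ 2 * (1 - q2 ^ 2) := by positivity
    linarith

/-- Classification of contact directions at a generic parameter. -/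
def Cl (d : D) (ρ v : ℝ) : Prop :=
  (ρ = 0 ∧ v ^ 2 = 1 ∧ v = d.a2) ∨
  (d.a0 = 0 ∧ d.a1 = 0 ∧ ρ = d.r ∧ v = d.a2 ∧ d.r ^ 2 + d.a2 ^ 2 = 1) ∨
  (d.a0 = 0 ∧ d.a1 = 0 ∧ d.e0 = 0 ∧ d.e1 = 0 ∧ v * d.e2 = 1 ∧ 1 < d.e2 ^ 2 ∧
    d.r ^ 2 * (1 - d.e2 ^ 2) + (d.a2 - d.e2) ^ 2 = 0) ∨
  (d.a0 = 0 ∧ d.a1 = 0 ∧ d.f0 = 0 ∧ d.f1 = 0 ∧ v * d.f2 = 1 ∧ 1 < d.f2 ^ 2 ∧
    d.r ^ 2 * (1 - d.f2 ^ 2) + (d.a2 - d.f2) ^ 2 = 0)

lemma U.classify (hr : 0 < d.r) (hc : d.c = 0) (hS : d.S) {τ ρ v : ℝ}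
    (hU : d.U τ (ρ * cos τ) (ρ * sin τ) v)
    (hτ : τ ∈ Ioo d.t0 (d.t0 + π))
    (g0 : d.a0 * sin τ - d.a1 * cos τ = 0 → ∀ x, d.a0 * sin x - d.a1 * cos x = 0)
    (gE : K d d.e0 d.e1 d.e2 τ = 0 → ∀ x, K d d.e0 d.e1 d.e2 x = 0)
    (gF : K d d.f0 d.f1 d.f2 τ = 0 → ∀ x, K d d.f0 d.f1 d.f2 x = 0)
    (mE : (d.r + (d.a0 * cos τ + d.a1 * sin τ)) - (d.e0 * cos τ + d.e1 * sin τ) ≠ 0)
    (mF : (d.r + (d.a0 * cos τ + d.a1 * sin τ)) - (d.f0 * cos τ + d.f1 * sin τ) ≠ 0)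
    (h1 : ρ ^ 2 + v ^ 2 = 1)
    (h2 : ρ * (d.r + (d.a0 * cos τ + d.a1 * sin τ)) + v * d.a2 = 1) : Cl d ρ v := by
  have vert : ρ = 0 → Cl d ρ v := by
    intro h0
    left
    rw [h0] at h1 h2
    have hv1 : v ^ 2 = 1 := by linarith
    have hv2 : v * d.a2 = 1 := by linarith
    refine ⟨h0, hv1, ?_⟩
    have : v = v * (v * d.a2) := by rw [hv2]; ring
    rw [this]
    linear_combination (d.a2) * hv1
  have gen2 : ∀ q0 q1 q2 : ℝ, (K d q0 q1 q2 τ = 0 → ∀ x, K d q0 q1 q2 x = 0) →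
      ((d.r + (d.a0 * cos τ + d.a1 * sin τ)) - (q0 * cos τ + q1 * sin τ) ≠ 0) →
      ρ * (q0 * cos τ + q1 * sin τ) + v * q2 = 1 → ρ = 0 ∨
      (d.a0 = 0 ∧ d.a1 = 0 ∧ q0 = 0 ∧ q1 = 0 ∧ v * q2 = 1 ∧ 1 < q2 ^ 2 ∧
        d.r ^ 2 * (1 - q2 ^ 2) + (d.a2 - q2) ^ 2 = 0) := by
    intro q0 q1 q2 hK hm hq
    have hz : K d q0 q1 q2 τ = 0 := by
      unfold K
      exact tangency h1 h2 hq
    rcases K_ident hr (hK hz) with ⟨ha, hb⟩ | ⟨ha0, ha1, hq0, hq1, hb, hc'⟩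
    · left
      have : ρ * ((d.r + (d.a0 * cos τ + d.a1 * sin τ)) - (q0 * cos τ + q1 * sin τ)) = 0 := by
        rw [ha] at h2
        linarith
      rcases mul_eq_zero.mp this with h | h
      · exact h
      · exact absurd h hm
    · right
      refine ⟨ha0, ha1, hq0, hq1, ?_, hb, hc'⟩
      rw [hq0, hq1] at hq
      linarith
  rcases hS.touch hU with h | h | h | ⟨t, ht, htne, ht1⟩
  · obtain ⟨e0, e1, e2⟩ := h
    have hz : d.a0 * sin τ - d.a1 * cos τ = 0 := by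
      linear_combination (-sin τ) * e0 + cos τ * e1
    have hall := g0 hz
    have b0 : d.a0 = 0 := by simpa using hall (π / 2)
    have b1 : d.a1 = 0 := by simpa using hall 0
    right; left
    have hcs := Real.sin_sq_add_cos_sq τ
    have hρ : ρ = d.r := by
      rw [b0] at e0
      rw [b1] at e1
      linear_combination cos τ * e0 + sin τ * e1 + (d.r - ρ) * hcs
    have hva : v = d.a2 := by rw [hc] at e2; linarith
    refine ⟨b0, b1, hρ, hva, ?_⟩
    rw [← hρ, ← hva]; exact h1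
  · have hq : ρ * (d.e0 * cos τ + d.e1 * sin τ) + v * d.e2 = 1 := by
      simp only [ev] at h; linarith
    rcases gen2 _ _ _ gE mE hq with h0 | h0
    · exact vert h0
    · right; right; left; exact h0
  · have hq : ρ * (d.f0 * cos τ + d.f1 * sin τ) + v * d.f2 = 1 := by
      simp only [fv] at h; linarith
    rcases gen2 _ _ _ gF mF hq with h0 | h0
    · exact vert h0
    · right; right; right; exact h0
  · apply vert
    have e1 := hU.tau
    simp only [hv] at e1 ht1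
    rw [hc] at e1 ht1
    have hcs := Real.sin_sq_add_cos_sq τ
    have hcos : cos (t - τ) < 1 := by
      rw [← Real.cos_abs]
      have h0 : 0 < |t - τ| := abs_pos.mpr (sub_ne_zero.mpr htne)
      have hpi : |t - τ| ≤ π := by
        rw [abs_le]; constructor
        · linarith [ht.1, hτ.2]
        · linarith [ht.2, hτ.1]
      have := Real.cos_lt_cos_of_nonneg_of_le_pi (le_refl 0) hpi h0
      rwa [cos_zero] at this
    rw [Real.cos_sub] at hcos
    have : (d.r * (1 - (cos t * cos τ + sin t * sin τ))) * ρ = 0 := by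
      linear_combination e1 - ht1 - d.r * ρ * hcs
    rcases mul_eq_zero.mp this with h | h
    · rcases mul_eq_zero.mp h with h' | h'
      · exact absurd h' hr.ne'
      · linarith
    · exact h

end D

end Pool.Agent.Helper119.Helix
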