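import Mathlib
import Pool.Agent.Helper119.HelixFlat

open Real Set Filter Topology

namespace Pool.Agent.Helper119.Helix

namespace D

variable {d : D}

/-- Exchange the two far endpoints. -/
def swap (d : D) : D := ⟨d.r, d.c, d.a0, d.a1, d.a2, d.t0, d.f0, d.f1, d.f2, d.e0, d.e1, d.e2⟩

lemma S.swap (hS : d.S) : d.swap.S := by
  intro u0 u1 u2 hu
  rcases hS u0 u1 u2 hu with h | h | h
  · left; exact h
  · right; right; exact h
  · right; left; exact h

/-- Everything on the axis is impossible. -/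
lemma axis_axis (hr : 0 < d.r) (hc : d.c = 0) (hS : d.S) (ha0 : d.a0 = 0) (ha1 : d.a1 = 0)
    (he0 : d.e0 = 0) (he1 : d.e1 = 0) (hf0 : d.f0 = 0) (hf1 : d.f1 = 0) : False := by
  have hu : (sin d.t0) ^ 2 + (-cos d.t0) ^ 2 + (0 : ℝ) ^ 2 = 1 := by
    have := Real.sin_sq_add_cos_sq d.t0
    linarith
  rcases hS _ _ _ hu with ⟨t, ht, h⟩ | h | h
  · simp only [hv] at h
    rw [ha0, ha1, hc] at h
    have hs : 0 ≤ sin (t - d.t0) :=
      Real.sin_nonneg_of_nonneg_of_le_pi (by linarith [ht.1]) (by linarith [ht.2])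
    rw [Real.sin_sub] at hs
    nlinarith [mul_nonneg hr.le hs]
  · simp only [ev] at h
    rw [he0, he1] at h
    linarith
  · simp only [fv] at h
    rw [hf0, hf1] at h
    linarith

/-- The case of a great semicircle of the ball. -/
lemma great (hc : d.c = 0) (hS : d.S) (ha0 : d.a0 = 0) (ha1 : d.a1 = 0) (ha2 : d.a2 = 0)
    (hr : d.r = 1) {τ : ℝ} (hE : d.e0 * cos τ + d.e1 * sin τ < 1)
    (hF : d.f0 * cos τ + d.f1 * sin τ < 1) : False := by
  have hcE : Continuous fun η : ℝ => cos η * (d.e0 * cos τ + d.e1 * sin τ) + sin η * d.e2 := by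
    fun_prop
  have hcF : Continuous fun η : ℝ => cos η * (d.f0 * cos τ + d.f1 * sin τ) + sin η * d.f2 := by
    fun_prop
  have h1 : ∀ᶠ η in 𝓝 (0 : ℝ), cos η * (d.e0 * cos τ + d.e1 * sin τ) + sin η * d.e2 < 1 := by
    have := hcE.tendsto 0
    exact this.eventually_lt_const (by simpa using hE)
  have h2 : ∀ᶠ η in 𝓝 (0 : ℝ), cos η * (d.f0 * cos τ + d.f1 * sin τ) + sin η * d.f2 < 1 := by
    have := hcF.tendsto 0
    exact this.eventually_lt_const (by simpa using hF)
  have h3 : ∀ᶠ η in 𝓝[>] (0 : ℝ), η ∈ Ioo (0 : ℝ) (π / 2) :=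
    Ioo_mem_nhdsGT (by positivity)
  obtain ⟨η, ⟨hη, hE'⟩, hF'⟩ := ((h3.and (nhdsWithin_le_nhds h1)).and
    (nhdsWithin_le_nhds h2)).exists
  have hcs := Real.sin_sq_add_cos_sq τ
  have hcs' := Real.sin_sq_add_cos_sq η
  have hu : (cos η * cos τ) ^ 2 + (cos η * sin τ) ^ 2 + (sin η) ^ 2 = 1 := by
    linear_combination (cos η) ^ 2 * hcs + hcs'
  have hcη : 0 ≤ cos η := Real.cos_nonneg_of_mem_Icc ⟨by linarith [hη.1, Real.pi_pos], hη.2.le⟩
  have hcη1 : cos η < 1 := by
    have := Real.cos_lt_cos_of_nonneg_of_le_pi (le_refl 0) (by linarith [hη.2, Real.pi_pos]) hη.1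
    rwa [cos_zero] at this
  rcases hS _ _ _ hu with ⟨t, ht, h⟩ | h | h
  · simp only [hv] at h
    rw [ha0, ha1, ha2, hc, hr] at h
    have hcos : cos (t - τ) ≤ 1 := Real.cos_le_one _
    rw [Real.cos_sub] at hcos
    nlinarith [mul_le_mul_of_nonneg_left hcos hcη]
  · simp only [ev] at h
    linarith
  · simp only [fv] at h
    linarith

/-- The case of a circle in a tangent plane, one far endpoint on the axis. -/
lemma cone (hr : 0 < d.r) (hc : d.c = 0) (hS : d.S) (ha0 : d.a0 = 0) (ha1 : d.a1 = 0)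
    (ha2 : d.a2 ^ 2 = 1) (he0 : d.e0 = 0) (he1 : d.e1 = 0) {ρ v : ℝ} (hρ0 : 0 ≤ ρ)
    (h1 : ρ ^ 2 + v ^ 2 = 1)
    (h2 : ρ * d.r + v * d.a2 = 1) (hv : v * d.e2 = 1) (hy : 1 < d.e2 ^ 2)
    (hva : v * d.a2 ≤ 0) : False := by
  have hρ : 0 < ρ := by
    rcases hρ0.lt_or_eq with h | h
    · exact h
    · rw [← h] at h2; linarith
  have hρ1 : ρ ≤ 1 := by nlinarith [sq_nonneg v]
  -- first far claim: the second far endpoint must support the opposite directions
  have claim : ∀ φ ∈ Ioo (d.t0 - π) d.t0, 1 ≤ ρ * (d.f0 * cos φ + d.f1 * sin φ) + v * d.f2 := by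
    intro φ hφ
    by_contra hlt
    push Not at hlt
    set w := v ^ 2 / ρ with hw
    have hcs := Real.sin_sq_add_cos_sq φ
    obtain ⟨ε1, hε1, H1⟩ := small_pert (K := Icc d.t0 (d.t0 + π)) isCompact_Icc
      (f := d.hv (ρ * cos φ) (ρ * sin φ) v) (g := d.hv (w * cos φ) (w * sin φ) (-v))
      (hv_continuous _ _ _).continuousOn (hv_continuous _ _ _).continuousOn (by
        intro t ht
        simp only [D.hv]
        rw [ha0, ha1, hc]
        have hcos : cos (t - φ) ≤ 1 := Real.cos_le_one _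
        rw [Real.cos_sub] at hcos
        nlinarith [mul_le_mul_of_nonneg_left hcos (mul_pos hρ hr).le]) (by
        intro t ht h
        exfalso
        simp only [D.hv] at h
        rw [ha0, ha1, hc] at h
        have hcos : cos (t - φ) < 1 := by
          have e : cos (t - φ) = -cos (t - φ - π) := by rw [Real.cos_sub_pi]; ring
          rw [e]
          have hab : |t - φ - π| < π := by
            rw [abs_lt]; constructor
            · linarith [ht.1, hφ.2]
            · linarith [ht.2, hφ.1]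
          have := Real.cos_lt_cos_of_nonneg_of_le_pi (abs_nonneg _) (le_refl π) hab
          rw [Real.cos_abs, cos_pi] at this
          linarith
        rw [Real.cos_sub] at hcos
        nlinarith [mul_lt_mul_of_pos_left hcos (mul_pos hρ hr)])
    obtain ⟨ε2, hε2, H2⟩ := small_pert (K := {(0 : ℝ)}) isCompact_singleton
      (f := fun _ => d.fv (ρ * cos φ) (ρ * sin φ) v)
      (g := fun _ => d.fv (w * cos φ) (w * sin φ) (-v))
      continuousOn_const continuousOn_const (fun _ _ => by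
        simp only [fv]; linarith) (fun _ _ h => by
        exfalso
        simp only [fv] at h; linarith)
    set ε := min ε1 ε2 with hε
    have hε0 : 0 < ε := lt_min hε1 hε2
    have hbig : 1 ≤ (ρ * cos φ + ε * (w * cos φ)) ^ 2 + (ρ * sin φ + ε * (w * sin φ)) ^ 2 +
        (v + ε * (-v)) ^ 2 := by
      have e : (ρ * cos φ + ε * (w * cos φ)) ^ 2 + (ρ * sin φ + ε * (w * sin φ)) ^ 2 +
        (v + ε * (-v)) ^ 2 = (ρ ^ 2 + v ^ 2) + 2 * ε * (ρ * w - v ^ 2) +
          ε ^ 2 * (w ^ 2 + v ^ 2) := by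
        linear_combination (ρ ^ 2 + 2 * ε * ρ * w + ε ^ 2 * w ^ 2) * hcs
      rw [e, h1]
      have : ρ * w - v ^ 2 = 0 := by rw [hw]; field_simp; ring
      rw [this]
      nlinarith [mul_nonneg (sq_nonneg ε) (add_nonneg (sq_nonneg w) (sq_nonneg v))]
    rcases hS.big hbig with ⟨t, ht, h⟩ | h | h
    · have e : d.hv (ρ * cos φ + ε * (w * cos φ)) (ρ * sin φ + ε * (w * sin φ))
          (v + ε * (-v)) t = d.hv (ρ * cos φ) (ρ * sin φ) v t +
            ε * d.hv (w * cos φ) (w * sin φ) (-v) t := by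
        simp only [D.hv]; ring
      rw [e] at h
      exact absurd h (not_le.mpr (H1 ε hε0 (min_le_left _ _) t ht))
    · simp only [ev] at h
      rw [he0, he1] at h
      nlinarith
    · have e : d.fv (ρ * cos φ + ε * (w * cos φ)) (ρ * sin φ + ε * (w * sin φ))
          (v + ε * (-v)) = d.fv (ρ * cos φ) (ρ * sin φ) v +
            ε * d.fv (w * cos φ) (w * sin φ) (-v) := by
        simp only [fv]; ring
      rw [e] at h
      exact absurd h (not_le.mpr (H2 ε hε0 (min_le_right _ _) 0 rfl))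
  -- hence v * f2 > 0
  have hvf : 0 < v * d.f2 := by
    by_contra hle
    push Not at hle
    set q := d.f0 * sin d.t0 - d.f1 * cos d.t0 with hq
    set η := min (1 / 2) (1 / (2 * (|q| + 1))) with hη
    have hη0 : 0 < η := by
      rw [hη]; apply lt_min
      · norm_num
      · positivity
    have hη1 : η ≤ 1 / 2 := min_le_left _ _
    have hη2 : η * (2 * (|q| + 1)) ≤ 1 := by
      have := min_le_right (1 / 2 : ℝ) (1 / (2 * (|q| + 1)))
      rw [← hη, le_div_iff₀ (by positivity)] at this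
      exact this
    have hpi := Real.pi_gt_three
    have c1 := claim (d.t0 - η) ⟨by linarith, by linarith⟩
    have c2 := claim (d.t0 + η - π) ⟨by linarith, by linarith⟩
    rw [Real.cos_sub_pi, Real.sin_sub_pi] at c2
    have hsη : sin η ≤ η := (Real.sin_lt hη0).le
    have hsη0 : 0 ≤ sin η := Real.sin_nonneg_of_nonneg_of_le_pi hη0.le (by linarith)
    have hsum : 2 ≤ ρ * (2 * (sin η * q)) + 2 * (v * d.f2) := by
      have e : ρ * (2 * (sin η * q)) = ρ * (d.f0 * cos (d.t0 - η) + d.f1 * sin (d.t0 - η)) +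
          ρ * (d.f0 * -cos (d.t0 + η) + d.f1 * -sin (d.t0 + η)) := by
        rw [Real.cos_sub, Real.sin_sub, Real.cos_add, Real.sin_add, hq]; ring
      rw [e]; linarith
    have hb : sin η * q ≤ η * |q| := by
      calc sin η * q ≤ sin η * |q| := mul_le_mul_of_nonneg_left (le_abs_self q) hsη0
        _ ≤ η * |q| := mul_le_mul_of_nonneg_right hsη (abs_nonneg q)
    have hb2 : ρ * (sin η * q) ≤ η * |q| := by
      have : ρ * (sin η * q) ≤ ρ * (η * |q|) := mul_le_mul_of_nonneg_left hb hρ.le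
      have h3 : ρ * (η * |q|) ≤ 1 * (η * |q|) :=
        mul_le_mul_of_nonneg_right hρ1 (mul_nonneg hη0.le (abs_nonneg q))
      linarith
    nlinarith
  -- final contradiction
  set q := d.f0 * cos (d.t0 - π / 2) + d.f1 * sin (d.t0 - π / 2) with hq
  set ε := 1 / (2 * (|q| + 1)) with hε
  have hε0 : 0 < ε := by rw [hε]; positivity
  have hεq : ε * q ≤ 1 / 2 := by
    have h3 : ε * q ≤ ε * |q| := mul_le_mul_of_nonneg_left (le_abs_self q) hε0.le
    have h4 : ε * |q| ≤ 1 / 2 := by
      rw [hε, div_mul_eq_mul_div, div_le_iff₀ (by positivity)]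
      linarith
    linarith
  have hcs := Real.sin_sq_add_cos_sq (d.t0 - π / 2)
  have hbig : 1 < (ε * cos (d.t0 - π / 2)) ^ 2 + (ε * sin (d.t0 - π / 2)) ^ 2 + d.a2 ^ 2 := by
    have e : (ε * cos (d.t0 - π / 2)) ^ 2 + (ε * sin (d.t0 - π / 2)) ^ 2 + d.a2 ^ 2 =
        ε ^ 2 + d.a2 ^ 2 := by linear_combination ε ^ 2 * hcs
    rw [e, ha2]
    nlinarith [pow_pos hε0 2]
  rcases hS.big1 hbig with ⟨t, ht, h⟩ | h | h
  · simp only [D.hv] at h
    rw [ha0, ha1, hc] at h
    have hs : 0 ≤ sin (t - d.t0) :=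
      Real.sin_nonneg_of_nonneg_of_le_pi (by linarith [ht.1]) (by linarith [ht.2])
    have e : cos t * cos (d.t0 - π / 2) + sin t * sin (d.t0 - π / 2) = - sin (t - d.t0) := by
      rw [← Real.cos_sub]
      have : t - (d.t0 - π / 2) = (t - d.t0) + π / 2 := by ring
      rw [this, Real.cos_add_pi_div_two]
    have h5 : d.r * ε * (cos t * cos (d.t0 - π / 2) + sin t * sin (d.t0 - π / 2)) ≤ 0 := by
      rw [e]
      have := mul_nonneg (mul_nonneg hr.le hε0.le) hs
      linarith
    nlinarith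
  · simp only [ev] at h
    rw [he0, he1] at h
    have : d.a2 * d.e2 ≤ 0 := by
      have h6 : (v * d.a2) * (v * d.e2) ≤ 0 := by rw [hv]; linarith
      have h7 : (v * d.a2) * (v * d.e2) = v ^ 2 * (d.a2 * d.e2) := by ring
      rw [h7] at h6
      have hv2 : 0 < v ^ 2 := by
        have : v ≠ 0 := by intro h0; rw [h0] at hv; linarith
        positivity
      by_contra hc'
      push Not at hc'
      have := mul_pos hv2 hc'
      linarith
    linarith
  · simp only [fv] at h
    have h8 : d.a2 * d.f2 ≤ 0 := by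
      have h6 : (v * d.a2) * (v * d.f2) ≤ 0 := mul_nonpos_of_nonpos_of_nonneg hva hvf.le
      have h7 : (v * d.a2) * (v * d.f2) = v ^ 2 * (d.a2 * d.f2) := by ring
      rw [h7] at h6
      have hv2 : 0 < v ^ 2 := by
        have : v ≠ 0 := by intro h0; rw [h0] at hv; linarith
        positivity
      by_contra hc'
      push Not at hc'
      have := mul_pos hv2 hc'
      linarith
    have h9 : d.f0 * (ε * cos (d.t0 - π / 2)) + d.f1 * (ε * sin (d.t0 - π / 2)) = ε * q := by
      rw [hq]; ring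
    linarith

end D

end Pool.Agent.Helper119.Helix
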