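import Mathlib
import Pool.Agent.Helper119.HelixFlat2

open Real Set Filter Topology

namespace Pool.Agent.Helper119.Helix

namespace D

variable {d : D}

/-- Two contact directions with weakly opposite vertical components are impossible. -/
lemma combo (hr : 0 < d.r) (hc : d.c = 0) (hS : d.S) {τ ρ v ρ' v' : ℝ}
    (hE : d.e0 * cos τ + d.e1 * sin τ ≠ 1) (hF : d.f0 * cos τ + d.f1 * sin τ ≠ 1)
    (hU : d.U τ (ρ * cos τ) (ρ * sin τ) v)
    (hρ : 0 ≤ ρ) (h1 : ρ ^ 2 + v ^ 2 = 1)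
    (h2 : ρ * (d.r + (d.a0 * cos τ + d.a1 * sin τ)) + v * d.a2 = 1) (hC : Cl d ρ v)
    (hρ' : 0 ≤ ρ') (h1' : ρ' ^ 2 + v' ^ 2 = 1)
    (h2' : ρ' * (d.r + (d.a0 * cos τ + d.a1 * sin τ)) + v' * d.a2 = 1) (hC' : Cl d ρ' v')
    (hvv : v * v' ≤ 0) : False := by
  -- a lemma used for the mixed cases: great circle radius relation with an axis point
  have mixed : ∀ y x : ℝ, d.r ^ 2 + d.a2 ^ 2 = 1 → d.r ^ 2 * (1 - y ^ 2) + (d.a2 - y) ^ 2 = 0 →
      x * y = 1 → d.a2 * x ≤ 0 → False := by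
    intro y x hr1 hy hx hle
    have e : (1 - d.a2 * y) ^ 2 = 0 := by
      have : d.r ^ 2 = 1 - d.a2 ^ 2 := by linarith
      rw [this] at hy
      linear_combination hy
    have e1 : 1 - d.a2 * y = 0 := pow_eq_zero_iff (two_ne_zero) |>.mp e
    have hy0 : y ≠ 0 := by intro h0; rw [h0] at hx; linarith
    have e2 : d.a2 = x := by
      have : (d.a2 - x) * y = 0 := by linarith
      rcases mul_eq_zero.mp this with h | h
      · linarith
      · exact absurd h hy0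
    rw [e2] at hle
    have : x = 0 := by nlinarith
    rw [this] at hx
    linarith
  have hr2 : 0 < d.r ^ 2 := by positivity
  rcases hC with ⟨ha, hb, hd⟩ | ⟨ha0, ha1, ha, hb, hd⟩ | ⟨ha0, ha1, hq0, hq1, hq, hy, hz⟩ |
      ⟨ha0, ha1, hq0, hq1, hq, hy, hz⟩ <;>
    rcases hC' with ⟨ha', hb', hd'⟩ | ⟨ha0', ha1', ha', hb', hd'⟩ |
      ⟨ha0', ha1', hq0', hq1', hq', hy', hz'⟩ | ⟨ha0', ha1', hq0', hq1', hq', hy', hz'⟩
  · -- V V
    rw [hd, hd'] at hvv
    rw [hd] at hb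
    nlinarith
  · -- V H
    rw [hd] at hb
    nlinarith
  · -- V E
    exact cone hr hc hS ha0' ha1' (by rw [← hd]; exact hb) hq0' hq1' hρ' h1' (by
      rw [ha0', ha1'] at h2'; linarith) hq' hy' (by rw [← hd]; linarith)
  · -- V F
    exact cone (d := d.swap) hr hc hS.swap ha0' ha1' (by rw [← hb, hd]; rfl) hq0' hq1' hρ' h1' (by
      have : ρ' * d.r + v' * d.a2 = 1 := by
        rw [ha0', ha1'] at h2'; linarith
      exact this) hq' hy' (by
      have : v' * d.a2 ≤ 0 := by rw [← hd]; linarith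
      exact this)
  · -- H V
    rw [hd'] at hb'
    nlinarith
  · -- H H
    have h0 : d.a2 = 0 := by
      rw [hb, hb'] at hvv
      nlinarith
    have hr1 : d.r = 1 := by
      rw [h0] at hd
      nlinarith
    have hρ1 : ρ = 1 := by rw [ha, hr1]
    have hv0 : v = 0 := by rw [hb, h0]
    have e1 := hU.hE
    have e2 := hU.hF
    simp only [ev, fv] at e1 e2
    rw [hρ1, hv0] at e1 e2
    exact great hc hS ha0 ha1 h0 hr1 (τ := τ) (lt_of_le_of_ne (by linarith) hE)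
      (lt_of_le_of_ne (by linarith) hF)
  · -- H E
    exact mixed _ _ hd hz' hq' (by rw [hb] at hvv; exact hvv)
  · -- H F
    exact mixed _ _ hd hz' hq' (by rw [hb] at hvv; exact hvv)
  · -- E V
    exact cone hr hc hS ha0 ha1 (by rw [← hd']; exact hb') hq0 hq1 hρ h1 (by
      rw [ha0, ha1] at h2; linarith) hq hy (by rw [← hd']; linarith)
  · -- E H
    exact mixed _ _ hd' hz hq (by rw [hb'] at hvv; linarith)
  · -- E E
    have : v = v' := by
      have hy0 : d.e2 ≠ 0 := by intro h0; rw [h0] at hq; linarith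
      have : (v - v') * d.e2 = 0 := by linarith
      rcases mul_eq_zero.mp this with h | h
      · linarith
      · exact absurd h hy0
    rw [← this] at hvv
    have h0 : v = 0 := by nlinarith
    rw [h0] at hq
    linarith
  · -- E F
    exact axis_axis hr hc hS ha0 ha1 hq0 hq1 hq0' hq1'
  · -- F V
    exact cone (d := d.swap) hr hc hS.swap ha0 ha1 (by rw [← hb', hd']; rfl) hq0 hq1 hρ h1 (by
      have : ρ * d.r + v * d.a2 = 1 := by
        rw [ha0, ha1] at h2; linarith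
      exact this) hq hy (by
      have : v * d.a2 ≤ 0 := by rw [← hd']; linarith
      exact this)
  · -- F H
    exact mixed _ _ hd' hz hq (by rw [hb'] at hvv; linarith)
  · -- F E
    exact axis_axis hr hc hS ha0 ha1 hq0' hq1' hq0 hq1
  · -- F F
    have : v = v' := by
      have hy0 : d.f2 ≠ 0 := by intro h0; rw [h0] at hq; linarith
      have : (v - v') * d.f2 = 0 := by linarith
      rcases mul_eq_zero.mp this with h | h
      · linarith
      · exact absurd h hy0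
    rw [← this] at hvv
    have h0 : v = 0 := by nlinarith
    rw [h0] at hq
    linarith

/-- The set of contact directions at τ of a flat arc, in polar coordinates. -/
def W (d : D) (τ : ℝ) : Set (ℝ × ℝ) := {p | d.U τ (p.1 * cos τ) (p.1 * sin τ) p.2}

lemma W_compact (τ : ℝ) : IsCompact (W d τ) := by
  have hsub : W d τ ⊆ Icc ((-1 : ℝ), (-1 : ℝ)) ((1 : ℝ), (1 : ℝ)) := by
    rintro ⟨ρ, v⟩ hp
    have hu : (ρ * cos τ) ^ 2 + (ρ * sin τ) ^ 2 + v ^ 2 = 1 := U.unit hp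
    have hcs := Real.sin_sq_add_cos_sq τ
    have h1 : ρ ^ 2 + v ^ 2 = 1 := by linear_combination hu - ρ ^ 2 * hcs
    have a1 : |ρ| ≤ 1 := by
      rw [← sq_le_one_iff_abs_le_one]; nlinarith [sq_nonneg v]
    have a2 : |v| ≤ 1 := by
      rw [← sq_le_one_iff_abs_le_one]; nlinarith [sq_nonneg ρ]
    rw [abs_le] at a1 a2
    exact ⟨⟨a1.1, a2.1⟩, ⟨a1.2, a2.2⟩⟩
  refine isCompact_Icc.of_isClosed_subset ?_ hsub
  have e : W d τ = {p : ℝ × ℝ | (p.1 * cos τ) ^ 2 + (p.1 * sin τ) ^ 2 + p.2 ^ 2 = 1} ∩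
      {p : ℝ × ℝ | d.hv (p.1 * cos τ) (p.1 * sin τ) p.2 τ = 1} ∩
      (⋂ t ∈ Icc d.t0 (d.t0 + π), {p : ℝ × ℝ | d.hv (p.1 * cos τ) (p.1 * sin τ) p.2 t ≤ 1}) ∩
      {p : ℝ × ℝ | d.ev (p.1 * cos τ) (p.1 * sin τ) p.2 ≤ 1} ∩
      {p : ℝ × ℝ | d.fv (p.1 * cos τ) (p.1 * sin τ) p.2 ≤ 1} := by
    ext p
    simp only [W, mem_inter_iff, mem_ofPred_eq, mem_iInter]
    constructor
    · intro h
      exact ⟨⟨⟨⟨h.unit, h.tau⟩, h.arc⟩, h.hE⟩, h.hF⟩
    · rintro ⟨⟨⟨⟨h1, h2⟩, h3⟩, h4⟩, h5⟩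
      exact ⟨h1, h2, h3, h4, h5⟩
  rw [e]
  refine IsClosed.inter (IsClosed.inter (IsClosed.inter (IsClosed.inter ?_ ?_) ?_) ?_) ?_
  · exact isClosed_eq (by fun_prop) (by fun_prop)
  · exact isClosed_eq (by unfold hv; fun_prop) (by fun_prop)
  · refine isClosed_biInter fun t _ => ?_
    exact isClosed_le (by unfold hv; fun_prop) (by fun_prop)
  · exact isClosed_le (by unfold ev; fun_prop) (by fun_prop)
  · exact isClosed_le (by unfold fv; fun_prop) (by fun_prop)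

/-- Flat arc: at some interior parameter there is an admissible inward direction. -/
theorem core_flat (hr : 0 < d.r) (hc : d.c = 0) (hS : d.S) :
    ∃ τ ∈ Ioo d.t0 (d.t0 + π), ∃ k : ℝ, ∀ u0 u1 u2, d.U τ u0 u1 u2 →
      0 < -(cos τ * u0 + sin τ * u1) + k * u2 := by
  by_contra hcon
  push Not at hcon
  have hpi := Real.pi_pos
  set x0 := d.t0 + π / 2 with hx0
  have hin : ∀ᶠ τ in 𝓝[≠] x0, τ ∈ Ioo d.t0 (d.t0 + π) :=
    nhdsWithin_le_nhds (Ioo_mem_nhds (by linarith) (by linarith))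
  have g0 := gen (f := fun τ => d.a0 * sin τ - d.a1 * cos τ) (fun x => by fun_prop) x0
  have gE := gen (K_analytic (d := d) d.e0 d.e1 d.e2) x0
  have gF := gen (K_analytic (d := d) d.f0 d.f1 d.f2) x0
  have mE := gen (f := fun τ => (d.r + (d.a0 * cos τ + d.a1 * sin τ)) -
    (d.e0 * cos τ + d.e1 * sin τ)) (fun x => by fun_prop) x0
  have mF := gen (f := fun τ => (d.r + (d.a0 * cos τ + d.a1 * sin τ)) -
    (d.f0 * cos τ + d.f1 * sin τ)) (fun x => by fun_prop) x0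
  have nE := gen (f := fun τ => d.e0 * cos τ + d.e1 * sin τ - 1) (fun x => by fun_prop) x0
  have nF := gen (f := fun τ => d.f0 * cos τ + d.f1 * sin τ - 1) (fun x => by fun_prop) x0
  obtain ⟨τ, hτ, g0, gE, gF, mE, mF, nE, nF⟩ := (hin.and (g0.and (gE.and (gF.and
    (mE.and (mF.and (nE.and nF))))))).exists
  have mE' : (d.r + (d.a0 * cos τ + d.a1 * sin τ)) - (d.e0 * cos τ + d.e1 * sin τ) ≠ 0 := by
    intro h
    have h1 := mE h 0
    have h2 := mE h π
    simp only [cos_zero, sin_zero, cos_pi, sin_pi] at h1 h2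
    linarith
  have mF' : (d.r + (d.a0 * cos τ + d.a1 * sin τ)) - (d.f0 * cos τ + d.f1 * sin τ) ≠ 0 := by
    intro h
    have h1 := mF h 0
    have h2 := mF h π
    simp only [cos_zero, sin_zero, cos_pi, sin_pi] at h1 h2
    linarith
  have nE' : d.e0 * cos τ + d.e1 * sin τ ≠ 1 := by
    intro h
    have h1 := nE (by linarith) 0
    have h2 := nE (by linarith) π
    simp only [cos_zero, sin_zero, cos_pi, sin_pi] at h1 h2
    linarith
  have nF' : d.f0 * cos τ + d.f1 * sin τ ≠ 1 := by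
    intro h
    have h1 := nF (by linarith) 0
    have h2 := nF (by linarith) π
    simp only [cos_zero, sin_zero, cos_pi, sin_pi] at h1 h2
    linarith
  have hcs := Real.sin_sq_add_cos_sq τ
  -- facts about members of W
  have facts : ∀ p ∈ W d τ, 0 ≤ p.1 ∧ p.1 ^ 2 + p.2 ^ 2 = 1 ∧
      p.1 * (d.r + (d.a0 * cos τ + d.a1 * sin τ)) + p.2 * d.a2 = 1 ∧ Cl d p.1 p.2 := by
    rintro ⟨ρ, v⟩ hp
    have hp' : d.U τ (ρ * cos τ) (ρ * sin τ) v := hp
    obtain ⟨ρ', hρ', e0, e1, e2, e3⟩ := hp'.flat hr hc hτ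
    have hρρ : ρ = ρ' := by linear_combination cos τ * e0 + sin τ * e1 + (ρ' - ρ) * hcs
    rw [← hρρ] at hρ' e2 e3
    exact ⟨hρ', e2, e3, hp'.classify hr hc hS hτ g0 gE gF mE' mF' e2 e3⟩
  have mem : ∀ u0 u1 u2, d.U τ u0 u1 u2 → (cos τ * u0 + sin τ * u1, u2) ∈ W d τ := by
    intro u0 u1 u2 hU
    obtain ⟨ρ', hρ', e0, e1, e2, e3⟩ := hU.flat hr hc hτ
    have hρρ : cos τ * u0 + sin τ * u1 = ρ' := by rw [e0, e1]; linear_combination ρ' * hcs
    show d.U τ ((cos τ * u0 + sin τ * u1) * cos τ) ((cos τ * u0 + sin τ * u1) * sin τ) u2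
    rw [hρρ, ← e0, ← e1]
    exact hU
  have hne : (W d τ).Nonempty := by
    obtain ⟨u0, u1, u2, hU, _⟩ := hcon τ hτ 0
    exact ⟨_, mem _ _ _ hU⟩
  obtain ⟨p, hp, hpmin⟩ := (W_compact (d := d) τ).exists_isMinOn hne
    (continuous_snd.continuousOn)
  obtain ⟨q, hq, hqmax⟩ := (W_compact (d := d) τ).exists_isMaxOn hne
    (continuous_snd.continuousOn)
  have hp0 : p.2 ≤ 0 := by
    by_contra hpos
    push Not at hpos
    obtain ⟨u0, u1, u2, hU, hle⟩ := hcon τ hτ (2 / p.2)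
    have hm := mem _ _ _ hU
    obtain ⟨f1, f2, -, -⟩ := facts _ hm
    have f3 : p.2 ≤ u2 := hpmin hm
    simp only at f1 f2
    have f4 : cos τ * u0 + sin τ * u1 ≤ 1 := by nlinarith [sq_nonneg u2]
    have f5 : 2 ≤ 2 / p.2 * u2 := by
      rw [div_mul_eq_mul_div, le_div_iff₀ hpos]; linarith
    linarith
  have hq0 : 0 ≤ q.2 := by
    by_contra hneg
    push Not at hneg
    obtain ⟨u0, u1, u2, hU, hle⟩ := hcon τ hτ (2 / q.2)
    have hm := mem _ _ _ hU
    obtain ⟨f1, f2, -, -⟩ := facts _ hm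
    have f3 : u2 ≤ q.2 := hqmax hm
    simp only at f1 f2
    have f4 : cos τ * u0 + sin τ * u1 ≤ 1 := by nlinarith [sq_nonneg u2]
    have f5 : 2 ≤ 2 / q.2 * u2 := by
      have : 2 / q.2 * u2 = 2 * (-u2) / (-q.2) := by
        field_simp
      rw [this, le_div_iff₀ (by linarith)]; linarith
    linarith
  obtain ⟨p1, p2, p3, p4⟩ := facts p hp
  obtain ⟨q1, q2, q3, q4⟩ := facts q hq
  exact combo hr hc hS nE' nF' hp p1 p2 p3 p4 q1 q2 q3 q4
    (mul_nonpos_of_nonpos_of_nonneg hp0 hq0)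

/-- Main first-variation statement: at some interior parameter τ there is a direction
w = (-cos τ, -sin τ, k), with k = 0 or c = 0, that has positive product with all contact
directions. -/
theorem core (hr : 0 < d.r) (hS : d.S) :
    ∃ τ ∈ Ioo d.t0 (d.t0 + π), ∃ k : ℝ, (k = 0 ∨ d.c = 0) ∧ ∀ u0 u1 u2, d.U τ u0 u1 u2 →
      0 < -(cos τ * u0 + sin τ * u1) + k * u2 := by
  by_cases hc : d.c = 0
  · obtain ⟨τ, hτ, k, h⟩ := core_flat hr hc hS
    exact ⟨τ, hτ, k, Or.inr hc, h⟩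
  · obtain ⟨τ, hτ, h⟩ := core_helix hr hc hS
    exact ⟨τ, hτ, 0, Or.inl rfl, fun u0 u1 u2 hU => absurd hU (h _ _ _)⟩

end D

end Pool.Agent.Helper119.Helix
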