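import Mathlib
import Pool.Agent.Helper119.HelixFlat3

open Real Set Filter Topology

namespace Pool.Agent.Helper119.Helix

/-- Three-dimensional Euclidean space. -/
abbrev E3 := EuclideanSpace ℝ (Fin 3)

lemma inner3 (u x : E3) : inner ℝ u x = u 0 * x 0 + u 1 * x 1 + u 2 * x 2 := by
  simp [PiLp.inner_apply, Fin.sum_univ_three]
  ring

lemma norm3 (u : E3) : ‖u‖ ^ 2 = u 0 ^ 2 + u 1 ^ 2 + u 2 ^ 2 := by
  rw [EuclideanSpace.norm_sq_eq, Fin.sum_univ_three]
  simp [sq_abs]

lemma dist3 (x y : E3) : dist x y ^ 2 = (x 0 - y 0) ^ 2 + (x 1 - y 1) ^ 2 + (x 2 - y 2) ^ 2 := by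
  rw [dist_eq_norm, norm3]; rfl

/-- Comparison of variations. -/
lemma variation_le {α : Type*} [LinearOrder α] {X Y : Type*} [PseudoEMetricSpace X]
    [PseudoEMetricSpace Y] {f : α → X} {g : α → Y} {s : Set α} {C : ENNReal}
    (h : ∀ x ∈ s, ∀ y ∈ s, edist (f x) (f y) ≤ C * edist (g x) (g y)) :
    eVariationOn f s ≤ C * eVariationOn g s := by
  unfold eVariationOn
  refine iSup_le fun p => ?_
  calc ∑ i ∈ Finset.range p.1, edist (f (p.2.1 (i + 1))) (f (p.2.1 i))
      ≤ ∑ i ∈ Finset.range p.1, C * edist (g (p.2.1 (i + 1))) (g (p.2.1 i)) :=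
        Finset.sum_le_sum fun i _ => h _ (p.2.2.2 _) _ (p.2.2.2 _)
    _ = C * ∑ i ∈ Finset.range p.1, edist (g (p.2.1 (i + 1))) (g (p.2.1 i)) := by
        rw [Finset.mul_sum]
    _ ≤ _ := by
        gcongr
        exact le_iSup (fun p : ℕ × { u : ℕ → α // Monotone u ∧ ∀ i, u i ∈ s } =>
          ∑ i ∈ Finset.range p.1, edist (g (p.2.1 (i + 1))) (g (p.2.1 i))) p

/-- Splicing: equal outside, contracted on a middle part, strictly contracted on a piece. -/
lemma splice {X : Type*} [PseudoEMetricSpace X] {f g : ℝ → X} {a s1 s2 s3 b : ℝ}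
    (h1 : a ≤ s1) (h2 : s1 ≤ s2) (h3 : s2 ≤ s3) (h4 : s3 ≤ b)
    (heq1 : ∀ x ∈ Icc a s1, f x = g x) (heq2 : ∀ x ∈ Icc s3 b, f x = g x)
    (hle : ∀ x ∈ Icc s1 s2, ∀ y ∈ Icc s1 s2, edist (f x) (f y) ≤ edist (g x) (g y))
    {C : ENNReal} (hC : C < 1)
    (hlt : ∀ x ∈ Icc s2 s3, ∀ y ∈ Icc s2 s3, edist (f x) (f y) ≤ C * edist (g x) (g y))
    (hfin : eVariationOn g (Icc a b) ≠ ⊤) (hpos : edist (g s2) (g s3) ≠ 0) :
    eVariationOn f (Icc a b) < eVariationOn g (Icc a b) := by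
  have split : ∀ φ : ℝ → X, eVariationOn φ (Icc a b) = eVariationOn φ (Icc a s1) +
      (eVariationOn φ (Icc s1 s2) + (eVariationOn φ (Icc s2 s3) +
        eVariationOn φ (Icc s3 b))) := by
    intro φ
    have e1 := eVariationOn.Icc_add_Icc φ (s := univ) h3 h4 (mem_univ s3)
    have e2 := eVariationOn.Icc_add_Icc φ (s := univ) h2 (h3.trans h4) (mem_univ s2)
    have e3 := eVariationOn.Icc_add_Icc φ (s := univ) h1 (h2.trans (h3.trans h4)) (mem_univ s1)
    simp only [univ_inter] at e1 e2 e3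
    rw [e1, e2, e3]
  rw [split f, split g]
  have hg : eVariationOn g (Icc a s1) +
      (eVariationOn g (Icc s1 s2) + (eVariationOn g (Icc s2 s3) +
        eVariationOn g (Icc s3 b))) ≠ ⊤ := by rw [← split g]; exact hfin
  simp only [ne_eq, ENNReal.add_eq_top, not_or] at hg
  obtain ⟨hg1, hg2, hg3, hg4⟩ := hg
  have q1 : eVariationOn f (Icc a s1) = eVariationOn g (Icc a s1) := eVariationOn.congr heq1
  have q4 : eVariationOn f (Icc s3 b) = eVariationOn g (Icc s3 b) := eVariationOn.congr heq2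
  have q2 : eVariationOn f (Icc s1 s2) ≤ eVariationOn g (Icc s1 s2) := by
    have := variation_le (C := 1) (f := f) (g := g) (s := Icc s1 s2) (by simpa using hle)
    simpa using this
  have q3 : eVariationOn f (Icc s2 s3) < eVariationOn g (Icc s2 s3) := by
    have h5 := variation_le (C := C) (f := f) (g := g) (s := Icc s2 s3) hlt
    have hp : 0 < eVariationOn g (Icc s2 s3) := by
      have h6 := eVariationOn.edist_le g (left_mem_Icc.mpr h3) (right_mem_Icc.mpr h3)
      exact lt_of_lt_of_le (pos_iff_ne_zero.mpr hpos) h6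
    calc eVariationOn f (Icc s2 s3) ≤ C * eVariationOn g (Icc s2 s3) := h5
      _ < 1 * eVariationOn g (Icc s2 s3) := by
          exact (ENNReal.mul_lt_mul_iff_left hp.ne' hg3).mpr hC
      _ = _ := one_mul _
  rw [q1, q4]
  refine ENNReal.add_lt_add_left hg1 ?_
  refine ENNReal.add_lt_add_of_le_of_lt ?_ q2 ?_
  · exact ne_top_of_le_ne_top hg2 q2
  · exact ENNReal.add_lt_add_right hg4 q3

end Pool.Agent.Helper119.Helix
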