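import Mathlib
import Pool.Agent.Helper119.HelixVar

open Real Set Filter Topology

namespace Pool.Agent.Helper119.Helix

namespace D

variable (d : D)

/-- Helix point. -/
noncomputable def H (t : ℝ) : E3 := !₂[d.r * cos t + d.a0, d.r * sin t + d.a1, d.c * t + d.a2]

/-- First far endpoint. -/
noncomputable def E : E3 := !₂[d.e0, d.e1, d.e2]

/-- Second far endpoint. -/
noncomputable def F : E3 := !₂[d.f0, d.f1, d.f2]

/-- Parameter of the helix at path time s. -/
noncomputable def tt (s : ℝ) : ℝ := d.t0 + (s - 1) * π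

/-- Segment, helix arc, segment, on the interval from 0 to 3. -/
noncomputable def path (s : ℝ) : E3 :=
  if s ≤ 1 then AffineMap.lineMap d.E (d.H d.t0) s
  else if s ≤ 2 then d.H (d.tt s)
  else AffineMap.lineMap (d.H (d.t0 + π)) d.F (s - 2)

/-- The direction of the bump. -/
noncomputable def wv (τ k : ℝ) : E3 := !₂[-cos τ, -sin τ, k]

/-- Bump function. -/
noncomputable def bump (τ ε s : ℝ) : ℝ :=
  max 0 (cos (max (-π) (min π (d.tt s - τ))) - cos ε)

/-- The perturbed path. -/
noncomputable def pert (τ k ε s : ℝ) : E3 := d.path s + (ε * d.bump τ ε s) • wv τ k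

variable {d}

lemma H_continuous : Continuous d.H := by
  unfold H
  fun_prop

lemma path_mid {s : ℝ} (h : s ∈ Icc (1 : ℝ) 2) : d.path s = d.H (d.tt s) := by
  unfold path
  rcases h.1.eq_or_lt with h1 | h1
  · subst h1
    simp [tt]
  · rw [if_neg (not_le.mpr h1), if_pos h.2]

lemma path_zero : d.path 0 = d.E := by
  unfold path
  rw [if_pos (by norm_num)]
  simp

lemma path_three : d.path 3 = d.F := by
  unfold path
  rw [if_neg (by norm_num), if_neg (by norm_num)]
  norm_num

lemma path_continuous : Continuous d.path := by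
  unfold path
  refine Continuous.if_le ?_ ?_ continuous_id continuous_const ?_
  · exact AffineMap.lineMap_continuous
  · refine Continuous.if_le ?_ ?_ continuous_id continuous_const ?_
    · unfold tt; exact H_continuous.comp (by fun_prop)
    · exact AffineMap.lineMap_continuous.comp (by fun_prop)
    · intro x hx
      have hx2 : x = 2 := hx
      subst hx2
      unfold tt
      norm_num
  · intro x hx
    have hx1 : x = 1 := hx
    subst hx1
    rw [if_pos (by norm_num)]
    simp [tt]

lemma bump_continuous (τ ε : ℝ) : Continuous (d.bump τ ε) := by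
  unfold bump tt
  fun_prop

lemma pert_continuous (τ k ε : ℝ) : Continuous (d.pert τ k ε) := by
  unfold pert
  exact path_continuous.add ((continuous_const.mul (bump_continuous τ ε)).smul continuous_const)

lemma bump_nonneg (τ ε s : ℝ) : 0 ≤ d.bump τ ε s := le_max_left _ _

lemma bump_le (τ ε s : ℝ) : d.bump τ ε s ≤ 2 := by
  unfold bump
  refine max_le (by norm_num) ?_
  linarith [Real.cos_le_one (max (-π) (min π (d.tt s - τ))), Real.neg_one_le_cos ε]

lemma bump_in {τ ε s : ℝ} (hε : ε ≤ π) (h : |d.tt s - τ| ≤ ε) :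
    d.bump τ ε s = cos (d.tt s - τ) - cos ε := by
  unfold bump
  have h' := abs_le.mp h
  have e : max (-π) (min π (d.tt s - τ)) = d.tt s - τ := by
    rw [min_eq_right (by linarith), max_eq_right (by linarith)]
  rw [e]
  refine max_eq_right ?_
  have : cos ε ≤ cos |d.tt s - τ| := Real.cos_le_cos_of_nonneg_of_le_pi (abs_nonneg _) hε h
  rw [Real.cos_abs] at this
  linarith

lemma bump_out {τ ε s : ℝ} (hε0 : 0 ≤ ε) (hε : ε ≤ π) (h : ε ≤ |d.tt s - τ|) :
    d.bump τ ε s = 0 := by
  unfold bump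
  refine max_eq_left ?_
  set z := max (-π) (min π (d.tt s - τ)) with hz
  have hzπ : |z| ≤ π := by
    rw [abs_le, hz]
    exact ⟨le_max_left _ _, max_le (by linarith [Real.pi_pos]) (min_le_left _ _)⟩
  have hzε : ε ≤ |z| := by
    rcases le_abs.mp h with h1 | h1
    · have : ε ≤ z := by
        rw [hz]; exact le_max_of_le_right (le_min hε h1)
      exact this.trans (le_abs_self z)
    · have : z ≤ -ε := by
        rw [hz]
        refine max_le (by linarith) ?_
        exact (min_le_right _ _).trans (by linarith)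
      rw [le_abs]; right; linarith
  have := Real.cos_le_cos_of_nonneg_of_le_pi hε0 hzπ hzε
  rw [Real.cos_abs] at this
  linarith

/-- Comparison of squared distances on the bump. -/
lemma dist_bump {τ k ε s s' : ℝ} (hck : k = 0 ∨ d.c = 0)
    (hs : s ∈ Icc (1 : ℝ) 2) (hs' : s' ∈ Icc (1 : ℝ) 2) (hε : ε ≤ π)
    (h : |d.tt s - τ| ≤ ε) (h' : |d.tt s' - τ| ≤ ε) :
    dist (d.pert τ k ε s) (d.pert τ k ε s') ^ 2 = dist (d.path s) (d.path s') ^ 2 -
      (cos (d.tt s - τ) - cos (d.tt s' - τ)) ^ 2 * (2 * d.r * ε - ε ^ 2 * (1 + k ^ 2)) := by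
  rw [dist3, dist3]
  unfold pert
  rw [bump_in hε h, bump_in hε h', path_mid hs, path_mid hs']
  simp only [H, wv, PiLp.add_apply, PiLp.smul_apply, smul_eq_mul, Matrix.cons_val_zero,
    Matrix.cons_val_one, Matrix.cons_val]
  have hkc : k * d.c = 0 := by
    rcases hck with h | h <;> rw [h] <;> ring
  have hcs := Real.sin_sq_add_cos_sq τ
  rw [Real.cos_sub, Real.cos_sub]
  set A := cos (d.tt s)
  set B := sin (d.tt s)
  set A' := cos (d.tt s')
  set B' := sin (d.tt s')
  set C := cos τ
  set S := sin τ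
  set Δ := (A * C + B * S) - (A' * C + B' * S) with hΔ
  linear_combination (ε ^ 2 * Δ ^ 2) * hcs + 2 * ε * Δ * (d.tt s - d.tt s') * hkc

lemma dist_path_mid {s s' : ℝ} (hs : s ∈ Icc (1 : ℝ) 2) (hs' : s' ∈ Icc (1 : ℝ) 2) :
    dist (d.path s) (d.path s') ^ 2 = 2 * d.r ^ 2 * (1 - cos (d.tt s - d.tt s')) +
      d.c ^ 2 * (d.tt s - d.tt s') ^ 2 := by
  rw [dist3, path_mid hs, path_mid hs']
  simp only [H, Matrix.cons_val_zero, Matrix.cons_val_one, Matrix.cons_val]
  rw [Real.cos_sub]
  have h1 := Real.sin_sq_add_cos_sq (d.tt s)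
  have h2 := Real.sin_sq_add_cos_sq (d.tt s')
  linear_combination d.r ^ 2 * h1 + d.r ^ 2 * h2

lemma edist_le_of_sq {X Y : Type*} [PseudoMetricSpace X] [PseudoMetricSpace Y] {x y : X}
    {x' y' : Y} {K : ℝ} (hK : 0 ≤ K)
    (h : dist x y ^ 2 ≤ K ^ 2 * dist x' y' ^ 2) :
    edist x y ≤ ENNReal.ofReal K * edist x' y' := by
  rw [edist_dist, edist_dist, ← ENNReal.ofReal_mul hK]
  apply ENNReal.ofReal_le_ofReal
  have h1 : dist x y ^ 2 ≤ (K * dist x' y') ^ 2 := by rw [mul_pow]; exact h
  exact (sq_le_sq₀ dist_nonneg (mul_nonneg hK dist_nonneg)).mp h1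

end D

end Pool.Agent.Helper119.Helix
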