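import Mathlib
import Pool.Agent.Helper119.HelixPert

open Real Set Filter Topology

namespace Pool.Agent.Helper119.Helix

namespace D

variable {d : D}

lemma cos_diff {ε θ θ' : ℝ} (hε0 : 0 < ε) (hε : ε ≤ π / 2) (h : θ ∈ Icc (ε / 2) ε)
    (h' : θ' ∈ Icc (ε / 2) ε) :
    (2 / π * sin (ε / 2)) ^ 2 * (θ - θ') ^ 2 ≤ (cos θ - cos θ') ^ 2 := by
  have hpi := Real.pi_pos
  rw [Real.cos_sub_cos]
  have h1 : sin (ε / 2) ≤ sin ((θ + θ') / 2) := by
    apply Real.sin_le_sin_of_le_of_le_pi_div_two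
    · linarith
    · linarith [h.2, h'.2]
    · linarith [h.1, h'.1]
  have h0 : 0 < sin (ε / 2) := Real.sin_pos_of_pos_of_lt_pi (by linarith) (by linarith)
  have h2 : 2 / π * |(θ - θ') / 2| ≤ |sin ((θ - θ') / 2)| := by
    apply Real.mul_abs_le_abs_sin
    rw [abs_le]
    constructor
    · linarith [h.1, h'.2]
    · linarith [h.2, h'.1]
  have h3 : (2 / π * sin (ε / 2)) ^ 2 * (θ - θ') ^ 2 =
      (2 * sin (ε / 2) * (2 / π * |(θ - θ') / 2|)) ^ 2 := by
    rw [mul_pow, mul_pow, mul_pow, mul_pow, sq_abs]; ring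
  have h4 : (-2 * sin ((θ + θ') / 2) * sin ((θ - θ') / 2)) ^ 2 =
      (2 * sin ((θ + θ') / 2) * |sin ((θ - θ') / 2)|) ^ 2 := by
    rw [mul_pow, mul_pow, mul_pow, mul_pow, sq_abs]; ring
  rw [h3, h4]
  apply pow_le_pow_left₀
  · positivity
  · apply mul_le_mul _ h2 (by positivity) (by linarith)
    linarith

theorem pert_length (hr : 0 < d.r) {τ k ε : ℝ} (hck : k = 0 ∨ d.c = 0) (hε0 : 0 < ε)
    (hε1 : ε ≤ τ - d.t0) (hε2 : ε ≤ d.t0 + π - τ) (hε3 : ε * (1 + k ^ 2) < 2 * d.r)
    (hfin : eVariationOn d.path (Icc 0 3) ≠ ⊤) :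
    eVariationOn (d.pert τ k ε) (Icc 0 3) < eVariationOn d.path (Icc 0 3) := by
  have hpi := Real.pi_pos
  have hεπ2 : ε ≤ π / 2 := by linarith
  have hεπ : ε ≤ π := by linarith
  set s1 := 1 + (τ - d.t0 - ε) / π with hs1
  set s2 := 1 + (τ - d.t0 + ε / 2) / π with hs2
  set s3 := 1 + (τ - d.t0 + ε) / π with hs3
  have t1 : d.tt s1 = τ - ε := by unfold tt; rw [hs1]; field_simp; ring
  have t2 : d.tt s2 = τ + ε / 2 := by unfold tt; rw [hs2]; field_simp; ring
  have t3 : d.tt s3 = τ + ε := by unfold tt; rw [hs3]; field_simp; ring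
  have mono : ∀ {x y : ℝ}, x ≤ y → d.tt x ≤ d.tt y := by
    intro x y hxy
    unfold tt
    have := mul_le_mul_of_nonneg_right hxy hpi.le
    linarith
  have h1s1 : 1 ≤ s1 := by
    rw [hs1]; have : 0 ≤ (τ - d.t0 - ε) / π := div_nonneg (by linarith) hpi.le
    linarith
  have h12 : s1 ≤ s2 := by
    rw [hs1, hs2]; gcongr ?_ + ?_ / _ <;> linarith
  have h23 : s2 ≤ s3 := by
    rw [hs2, hs3]; gcongr ?_ + ?_ / _ <;> linarith
  have h32 : s3 ≤ 2 := by
    rw [hs3]; have : (τ - d.t0 + ε) / π ≤ 1 := by rw [div_le_one hpi]; linarith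
    linarith
  set μ := 2 * d.r * ε - ε ^ 2 * (1 + k ^ 2) with hμ
  have hμ0 : 0 < μ := by rw [hμ]; nlinarith
  set κ := 2 / π * sin (ε / 2) with hκ
  have hκ0 : 0 < κ := by
    rw [hκ]
    have : 0 < sin (ε / 2) := Real.sin_pos_of_pos_of_lt_pi (by linarith) (by linarith)
    positivity
  set m := d.r ^ 2 + d.c ^ 2 with hm
  have hm0 : 0 < m := by rw [hm]; positivity
  set q := min 1 (κ ^ 2 * μ / m) with hq
  have hq0 : 0 < q := lt_min one_pos (by positivity)
  have hq1 : q ≤ 1 := min_le_left _ _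
  have hq2 : q * m ≤ κ ^ 2 * μ := by
    have := min_le_right 1 (κ ^ 2 * μ / m)
    rw [← hq, le_div_iff₀ hm0] at this
    exact this
  refine splice (s1 := s1) (s2 := s2) (s3 := s3) (by linarith) h12 h23 (by linarith)
    ?_ ?_ ?_ (C := ENNReal.ofReal (1 - q / 2)) ?_ ?_ hfin ?_
  · intro x hx
    unfold pert
    rw [bump_out hε0.le hεπ]
    · simp
    · have := mono hx.2
      rw [t1] at this
      rw [le_abs]; right; linarith
  · intro x hx
    unfold pert
    rw [bump_out hε0.le hεπ]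
    · simp
    · have := mono hx.1
      rw [t3] at this
      rw [le_abs]; left; linarith
  · intro x hx y hy
    have hx' : |d.tt x - τ| ≤ ε := by
      have a1 := mono hx.1
      have a2 := mono (hx.2.trans h23)
      rw [t1] at a1; rw [t3] at a2
      rw [abs_le]; constructor <;> linarith
    have hy' : |d.tt y - τ| ≤ ε := by
      have a1 := mono hy.1
      have a2 := mono (hy.2.trans h23)
      rw [t1] at a1; rw [t3] at a2
      rw [abs_le]; constructor <;> linarith
    have hd := dist_bump (d := d) (k := k) hck (s := x) (s' := y) ⟨h1s1.trans hx.1, by linarith [hx.2]⟩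
      ⟨h1s1.trans hy.1, by linarith [hy.2]⟩ hεπ hx' hy'
    have := edist_le_of_sq (K := 1) (x := d.pert τ k ε x) (y := d.pert τ k ε y)
      (x' := d.path x) (y' := d.path y) zero_le_one (by
        rw [hd, one_pow, one_mul]
        have := mul_nonneg (sq_nonneg (cos (d.tt x - τ) - cos (d.tt y - τ))) hμ0.le
        linarith)
    simpa using this
  · rw [ENNReal.ofReal_lt_one]; linarith
  · intro x hx y hy
    have a1 := mono hx.1
    have a2 := mono hx.2
    have b1 := mono hy.1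
    have b2 := mono hy.2
    rw [t2] at a1 b1
    rw [t3] at a2 b2
    have hx12 : x ∈ Icc (1 : ℝ) 2 := ⟨by linarith [hx.1], by linarith [hx.2]⟩
    have hy12 : y ∈ Icc (1 : ℝ) 2 := ⟨by linarith [hy.1], by linarith [hy.2]⟩
    have hx' : |d.tt x - τ| ≤ ε := by rw [abs_le]; constructor <;> linarith
    have hy' : |d.tt y - τ| ≤ ε := by rw [abs_le]; constructor <;> linarith
    have hd := dist_bump (d := d) (k := k) hck hx12 hy12 hεπ hx' hy'
    have hd2 := dist_path_mid (d := d) hx12 hy12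
    have hcd := cos_diff hε0 hεπ2 (θ := d.tt x - τ) (θ' := d.tt y - τ)
      ⟨by linarith, by linarith⟩ ⟨by linarith, by linarith⟩
    have hsub : (d.tt x - τ) - (d.tt y - τ) = d.tt x - d.tt y := by ring
    rw [hsub] at hcd
    apply edist_le_of_sq (by linarith)
    have hcos := Real.one_sub_sq_div_two_le_cos (x := d.tt x - d.tt y)
    set z := (d.tt x - d.tt y) ^ 2 with hz
    have hz0 : 0 ≤ z := sq_nonneg _
    have e1 : dist (d.path x) (d.path y) ^ 2 ≤ m * z := by
      rw [hd2, hm]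
      have : 2 * d.r ^ 2 * (1 - cos (d.tt x - d.tt y)) ≤ 2 * d.r ^ 2 * (z / 2) := by
        apply mul_le_mul_of_nonneg_left _ (by positivity)
        linarith
      linarith
    have e2 : q * dist (d.path x) (d.path y) ^ 2 ≤
        (cos (d.tt x - τ) - cos (d.tt y - τ)) ^ 2 * μ := by
      calc q * dist (d.path x) (d.path y) ^ 2 ≤ q * (m * z) :=
            mul_le_mul_of_nonneg_left e1 hq0.le
        _ = (q * m) * z := by ring
        _ ≤ (κ ^ 2 * μ) * z := mul_le_mul_of_nonneg_right hq2 hz0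
        _ = (κ ^ 2 * z) * μ := by ring
        _ ≤ _ := mul_le_mul_of_nonneg_right hcd hμ0.le
    rw [hd]
    have e3 : 0 ≤ dist (d.path x) (d.path y) ^ 2 := sq_nonneg _
    nlinarith [mul_nonneg (sq_nonneg q) e3]
  · have hd2 := dist_path_mid (d := d) (s := s2) (s' := s3) ⟨by linarith, by linarith⟩
      ⟨by linarith, by linarith⟩
    rw [t2, t3] at hd2
    have hcos : cos (τ + ε / 2 - (τ + ε)) < 1 := by
      have : τ + ε / 2 - (τ + ε) = -(ε / 2) := by ring
      rw [this, Real.cos_neg]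
      have := Real.cos_lt_cos_of_nonneg_of_le_pi (le_refl 0) (by linarith : ε / 2 ≤ π)
        (by linarith)
      rwa [cos_zero] at this
    rw [edist_dist]
    intro h0
    rw [ENNReal.ofReal_eq_zero] at h0
    have h00 : dist (d.path s2) (d.path s3) = 0 := le_antisymm h0 dist_nonneg
    rw [h00] at hd2
    have : 0 < 2 * d.r ^ 2 * (1 - cos (τ + ε / 2 - (τ + ε))) := by
      apply mul_pos (by positivity); linarith
    have h5 : 0 ≤ d.c ^ 2 * (τ + ε / 2 - (τ + ε)) ^ 2 := by positivity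
    linarith

end D

end Pool.Agent.Helper119.Helix
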