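import Mathlib
import Pool.Agent.Helper119.HelixLen

open Real Set Filter Topology

namespace Pool.Agent.Helper119.Helix

namespace D

variable {d : D}

lemma inner_H (u : E3) (t : ℝ) : inner ℝ u (d.H t) = d.hv (u 0) (u 1) (u 2) t := by
  rw [inner3]
  simp only [H, hv, Matrix.cons_val_zero, Matrix.cons_val_one, Matrix.cons_val]
  ring

lemma inner_E (u : E3) : inner ℝ u d.E = d.ev (u 0) (u 1) (u 2) := by
  rw [inner3]
  simp only [E, ev, Matrix.cons_val_zero, Matrix.cons_val_one, Matrix.cons_val]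
  ring

lemma inner_F (u : E3) : inner ℝ u d.F = d.fv (u 0) (u 1) (u 2) := by
  rw [inner3]
  simp only [F, fv, Matrix.cons_val_zero, Matrix.cons_val_one, Matrix.cons_val]
  ring

lemma inner_wv (u : E3) (τ k : ℝ) :
    inner ℝ u (wv τ k) = -(cos τ * u 0 + sin τ * u 1) + k * u 2 := by
  rw [inner3]
  simp only [wv, Matrix.cons_val_zero, Matrix.cons_val_one, Matrix.cons_val]
  ring

/-- The path time of the helix parameter t. -/
lemma exists_time {t : ℝ} (ht : t ∈ Icc d.t0 (d.t0 + π)) :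
    ∃ s ∈ Icc (1 : ℝ) 2, d.path s = d.H t := by
  have hpi := Real.pi_pos
  have e : d.tt (1 + (t - d.t0) / π) = t := by unfold tt; field_simp; ring
  have h1 : 0 ≤ (t - d.t0) / π := div_nonneg (by linarith [ht.1]) hpi.le
  have h2 : (t - d.t0) / π ≤ 1 := by rw [div_le_one hpi]; linarith [ht.2]
  have hs : 1 + (t - d.t0) / π ∈ Icc (1 : ℝ) 2 := ⟨by linarith, by linarith⟩
  exact ⟨_, hs, by rw [path_mid hs, e]⟩

lemma S.support (hS : d.S) {u : E3} (hu : ‖u‖ = 1) :
    ∃ s ∈ Icc (0 : ℝ) 3, 1 ≤ inner ℝ u (d.path s) := by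
  have hn := norm3 u
  rw [hu] at hn
  rcases hS (u 0) (u 1) (u 2) (by linarith) with ⟨t, ht, h⟩ | h | h
  · obtain ⟨s, hs, hs'⟩ := exists_time ht
    refine ⟨s, ⟨by linarith [hs.1], by linarith [hs.2]⟩, ?_⟩
    rw [hs', inner_H]; exact h
  · refine ⟨0, by constructor <;> norm_num, ?_⟩
    rw [path_zero, inner_E]; exact h
  · refine ⟨3, by constructor <;> norm_num, ?_⟩
    rw [path_three, inner_F]; exact h

theorem pert_support (hS : d.S) {τ k : ℝ} (hτ : τ ∈ Ioo d.t0 (d.t0 + π))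
    (hpos : ∀ u0 u1 u2, d.U τ u0 u1 u2 → 0 < -(cos τ * u0 + sin τ * u1) + k * u2) :
    ∀ᶠ ε in 𝓝[>] (0 : ℝ), ∀ u : E3, ‖u‖ = 1 →
      ∃ s ∈ Icc (0 : ℝ) 3, 1 ≤ inner ℝ u (d.pert τ k ε s) := by
  have hpi := Real.pi_pos
  by_contra hcon
  rw [Filter.not_eventually] at hcon
  have hb : 0 < min π (min (τ - d.t0) (d.t0 + π - τ)) :=
    lt_min hpi (lt_min (by linarith [hτ.1]) (by linarith [hτ.2]))
  have hev : ∀ᶠ ε in 𝓝[>] (0 : ℝ), ε ∈ Ioo 0 (min π (min (τ - d.t0) (d.t0 + π - τ))) :=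
    Ioo_mem_nhdsGT hb
  have hcon2 := hcon.and_eventually hev
  obtain ⟨εs, hεs, hbad⟩ := exists_seq_forall_of_frequently hcon2
  have hε0 : Tendsto εs atTop (𝓝 0) := hεs.mono_right nhdsWithin_le_nhds
  have hbad' : ∀ n, ∃ u : E3, ‖u‖ = 1 ∧ ∀ s ∈ Icc (0 : ℝ) 3,
      inner ℝ u (d.pert τ k (εs n) s) < 1 := by
    intro n
    have := (hbad n).1
    push Not at this
    exact this
  choose us hus hlt using hbad'
  have hεpos : ∀ n, 0 < εs n := fun n => (hbad n).2.1
  have hεpi : ∀ n, εs n ≤ π := fun n => ((hbad n).2.2.trans_le (min_le_left _ _)).le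
  have hεa : ∀ n, εs n < τ - d.t0 := fun n =>
    (hbad n).2.2.trans_le ((min_le_right _ _).trans (min_le_left _ _))
  have hεb : ∀ n, εs n < d.t0 + π - τ := fun n =>
    (hbad n).2.2.trans_le ((min_le_right _ _).trans (min_le_right _ _))
  obtain ⟨u, hu, φ, hφ, hlim⟩ := (isCompact_sphere (0 : E3) 1).tendsto_subseq
    (x := us) (fun n => by simpa using hus n)
  have hu1 : ‖u‖ = 1 := by simpa using hu
  have hεφ : Tendsto (fun n => εs (φ n)) atTop (𝓝 0) := hε0.comp hφ.tendsto_atTop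
  have hlim' : Tendsto (fun n => us (φ n)) atTop (𝓝 u) := hlim
  -- pointwise limit of the support values
  have hle : ∀ s ∈ Icc (0 : ℝ) 3, inner ℝ u (d.path s) ≤ 1 := by
    intro s hs
    have h1 : Tendsto (fun n => inner ℝ (us (φ n)) (d.pert τ k (εs (φ n)) s)) atTop
        (𝓝 (inner ℝ u (d.path s))) := by
      have h2 : Tendsto (fun n => d.pert τ k (εs (φ n)) s) atTop (𝓝 (d.path s)) := by
        unfold pert
        have h3 : Tendsto (fun n => εs (φ n) * d.bump τ (εs (φ n)) s) atTop (𝓝 0) := by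
          refine squeeze_zero (g := fun n => εs (φ n) * 2) (fun n =>
            mul_nonneg (hεpos _).le (bump_nonneg _ _ _)) (fun n =>
            mul_le_mul_of_nonneg_left (bump_le _ _ _) (hεpos _).le) ?_
          simpa using hεφ.mul_const 2
        have h4 : Tendsto (fun n => (εs (φ n) * d.bump τ (εs (φ n)) s) • wv τ k) atTop
            (𝓝 ((0 : ℝ) • wv τ k)) := h3.smul_const _
        rw [zero_smul] at h4
        simpa using h4.const_add (d.path s)
      exact hlim'.inner h2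
    exact le_of_tendsto h1 (Eventually.of_forall fun n => (hlt (φ n) s hs).le)
  -- the supporting times
  have hsupp : ∀ n, ∃ s ∈ Icc (0 : ℝ) 3, 1 ≤ inner ℝ (us n) (d.path s) := fun n =>
    hS.support (hus n)
  choose ss hss hss1 using hsupp
  have hkey : ∀ n, |d.tt (ss n) - τ| < εs n ∧ inner ℝ (us n) (wv τ k) < 0 := by
    intro n
    have h1 := hlt n (ss n) (hss n)
    have h2 := hss1 n
    unfold pert at h1
    rw [inner_add_right, inner_smul_right] at h1
    have h3 : |d.tt (ss n) - τ| < εs n := by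
      by_contra hge
      push Not at hge
      rw [bump_out (hεpos n).le (hεpi n) hge] at h1
      linarith
    refine ⟨h3, ?_⟩
    by_contra hge
    push Not at hge
    have := mul_nonneg (mul_nonneg (hεpos n).le (bump_nonneg (d := d) τ (εs n) (ss n))) hge
    linarith
  have hss12 : ∀ n, ss n ∈ Icc (1 : ℝ) 2 := by
    intro n
    have h1 := abs_lt.mp (hkey n).1
    have h2 := hεa n
    have h3 := hεb n
    unfold tt at h1
    constructor
    · by_contra hlt1
      push Not at hlt1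
      nlinarith
    · by_contra hlt1
      push Not at hlt1
      nlinarith
  have htt : Tendsto (fun n => d.tt (ss (φ n))) atTop (𝓝 τ) := by
    have h1 : Tendsto (fun n => |d.tt (ss (φ n)) - τ|) atTop (𝓝 0) :=
      squeeze_zero (fun n => abs_nonneg _) (fun n => (hkey (φ n)).1.le) hεφ
    have h2 := (tendsto_zero_iff_abs_tendsto_zero _).mpr h1
    have h3 := h2.add_const τ
    simpa using h3
  have hge1 : 1 ≤ inner ℝ u (d.H τ) := by
    have h1 : Tendsto (fun n => inner ℝ (us (φ n)) (d.path (ss (φ n)))) atTop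
        (𝓝 (inner ℝ u (d.H τ))) := by
      have h2 : Tendsto (fun n => d.path (ss (φ n))) atTop (𝓝 (d.H τ)) := by
        have h3 : Tendsto (fun n => d.H (d.tt (ss (φ n)))) atTop (𝓝 (d.H τ)) :=
          (H_continuous.tendsto τ).comp htt
        refine h3.congr fun n => ?_
        rw [path_mid (hss12 _)]
      exact hlim'.inner h2
    exact ge_of_tendsto h1 (Eventually.of_forall fun n => hss1 (φ n))
  have hwle : inner ℝ u (wv τ k) ≤ 0 := by
    have h1 : Tendsto (fun n => inner ℝ (us (φ n)) (wv τ k)) atTop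
        (𝓝 (inner ℝ u (wv τ k))) := hlim'.inner tendsto_const_nhds
    exact le_of_tendsto h1 (Eventually.of_forall fun n => (hkey (φ n)).2.le)
  have hn := norm3 u
  rw [hu1] at hn
  have hU : d.U τ (u 0) (u 1) (u 2) := by
    refine ⟨by linarith, ?_, ?_, ?_, ?_⟩
    · rw [inner_H] at hge1
      refine le_antisymm ?_ hge1
      obtain ⟨s, hs, hs'⟩ := exists_time (d := d) (t := τ) ⟨hτ.1.le, hτ.2.le⟩
      have := hle s ⟨by linarith [hs.1], by linarith [hs.2]⟩
      rw [hs', inner_H] at this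
      exact this
    · intro t ht
      obtain ⟨s, hs, hs'⟩ := exists_time (d := d) ht
      have := hle s ⟨by linarith [hs.1], by linarith [hs.2]⟩
      rw [hs', inner_H] at this
      exact this
    · have := hle 0 ⟨by norm_num, by norm_num⟩
      rwa [path_zero, inner_E] at this
    · have := hle 3 ⟨by norm_num, by norm_num⟩
      rwa [path_three, inner_F] at this
  have := hpos _ _ _ hU
  rw [inner_wv] at hwle
  linarith

/-- Main theorem in standard position. -/
theorem improve (hr : 0 < d.r) (hS : d.S) (hfin : eVariationOn d.path (Icc 0 3) ≠ ⊤) :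
    ∃ P : ℝ → E3, Continuous P ∧ eVariationOn P (Icc 0 3) < eVariationOn d.path (Icc 0 3) ∧
      ∀ u : E3, ‖u‖ = 1 → ∃ s ∈ Icc (0 : ℝ) 3, 1 ≤ inner ℝ u (P s) := by
  obtain ⟨τ, hτ, k, hk, hpos⟩ := core hr hS
  have h1 := pert_support hS hτ hpos
  have hb : 0 < min (min (τ - d.t0) (d.t0 + π - τ)) (2 * d.r / (1 + k ^ 2)) := by
    refine lt_min (lt_min (by linarith [hτ.1]) (by linarith [hτ.2])) (by positivity)
  have h2 : ∀ᶠ ε in 𝓝[>] (0 : ℝ),
      ε ∈ Ioo 0 (min (min (τ - d.t0) (d.t0 + π - τ)) (2 * d.r / (1 + k ^ 2))) :=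
    Ioo_mem_nhdsGT hb
  obtain ⟨ε, hε, hsupp⟩ := (h2.and h1).exists
  have e1 : ε < τ - d.t0 := hε.2.trans_le ((min_le_left _ _).trans (min_le_left _ _))
  have e2 : ε < d.t0 + π - τ := hε.2.trans_le ((min_le_left _ _).trans (min_le_right _ _))
  have e3 : ε < 2 * d.r / (1 + k ^ 2) := hε.2.trans_le (min_le_right _ _)
  rw [lt_div_iff₀ (by positivity)] at e3
  exact ⟨d.pert τ k ε, pert_continuous _ _ _,
    pert_length hr hk hε.1 e1.le e2.le e3 hfin, hsupp⟩

end D

end Pool.Agent.Helper119.Helix
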