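import Mathlib

open MeasureTheory Metric Set Filter Topology

namespace Pool.Agent.Helper119.Kral

/-- `SM φ κ`: continuous functions whose circle averages are `φ z - κ r²`. -/
def SM (φ : ℂ → ℝ) (κ : ℝ) : Prop :=
  Continuous φ ∧ ∀ (z : ℂ) (r : ℝ), Real.circleAverage φ z r = φ z - κ * r ^ 2

lemma circInt_of_cont {φ : ℂ → ℝ} (h : Continuous φ) (z : ℂ) (r : ℝ) :
    CircleIntegrable φ z r := h.continuousOn.circleIntegrable'

lemma SM.add {φ ψ : ℂ → ℝ} {κ μ : ℝ} (h1 : SM φ κ) (h2 : SM ψ μ) :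
    SM (fun z => φ z + ψ z) (κ + μ) := by
  refine ⟨h1.1.add h2.1, fun z r => ?_⟩
  rw [Real.circleAverage_fun_add (circInt_of_cont h1.1 z r) (circInt_of_cont h2.1 z r),
    h1.2 z r, h2.2 z r]
  ring

lemma SM.const_mul {φ : ℂ → ℝ} {κ : ℝ} (a : ℝ) (h1 : SM φ κ) :
    SM (fun z => a * φ z) (a * κ) := by
  refine ⟨continuous_const.mul h1.1, fun z r => ?_⟩
  have := Real.circleAverage_fun_smul (f := φ) (c := z) (R := r) (a := a)
  simp only [smul_eq_mul] at this
  rw [this, h1.2 z r]
  ring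

lemma SM.translate {φ : ℂ → ℝ} {κ : ℝ} (h : SM φ κ) (y : ℂ) :
    SM (fun z => φ (z - y)) κ := by
  refine ⟨h.1.comp (continuous_id.sub continuous_const), fun z r => ?_⟩
  have : Real.circleAverage (fun z => φ (z - y)) z r = Real.circleAverage φ (z - y) r := by
    unfold Real.circleAverage
    congr 2
    ext θ
    simp only [circleMap]
    congr 1
    ring
  rw [this, h.2]

lemma SM_re_entire {g : ℂ → ℂ} (hg : Differentiable ℂ g) : SM (fun z => (g z).re) 0 := by
  refine ⟨Complex.continuous_re.comp hg.continuous, fun z r => ?_⟩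
  have h1 : Real.circleAverage g z r = g z := DiffContOnCl.circleAverage hg.diffContOnCl
  have h2 := Complex.reCLM.circleAverage_comp_comm (f := g) (c := z) (R := r)
    (hg.continuous.continuousOn.circleIntegrable')
  have h3 : (Complex.reCLM ∘ g) = fun z => (g z).re := by
    ext w; simp
  rw [h3, h1] at h2
  rw [h2]
  simp

lemma SM_normSq (b : ℂ) : SM (fun z => ‖z - b‖ ^ 2) (-1) := by
  refine ⟨by fun_prop, fun z r => ?_⟩
  -- on the circle |w - b|^2 = |z-b|^2 + r^2 + 2 Re (conj (z-b) * (w - z))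
  have h1 : Real.circleAverage (fun w => ‖w - b‖ ^ 2) z r
      = Real.circleAverage (fun w => (‖z - b‖ ^ 2 + r ^ 2) +
          (2 * (starRingEnd ℂ (z - b)) * (w - z)).re) z r := by
    apply Real.circleAverage_congr_sphere
    intro w hw
    simp only [mem_sphere_iff_norm] at hw
    have e1 : w - b = (z - b) + (w - z) := by ring
    have e2 : ‖w - z‖ ^ 2 = r ^ 2 := by rw [hw, sq_abs]
    have e3 : ‖w - b‖ ^ 2 = ‖z - b‖ ^ 2 + ‖w - z‖ ^ 2 + 2 * ((starRingEnd ℂ (z - b)) * (w - z)).re := by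
      rw [e1]
      simp only [← Complex.normSq_eq_norm_sq, Complex.normSq_apply]
      simp [Complex.mul_re, Complex.add_re, Complex.add_im]
      ring
    show ‖w - b‖ ^ 2 = _
    rw [e3, e2]
    simp only [Complex.mul_re, Complex.re_ofNat, Complex.im_ofNat]
    simp
    ring
  rw [h1]
  have h2 : SM (fun w => (2 * (starRingEnd ℂ (z - b)) * (w - z)).re) 0 := by
    apply SM_re_entire
    fun_prop
  have h4 : Real.circleAverage (fun w => (‖z - b‖ ^ 2 + r ^ 2) +
          (2 * (starRingEnd ℂ (z - b)) * (w - z)).re) z r =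
      Real.circleAverage (fun _ => (‖z - b‖ ^ 2 + r ^ 2)) z r + Real.circleAverage
          (fun w => (2 * (starRingEnd ℂ (z - b)) * (w - z)).re) z r := by
    apply Real.circleAverage_fun_add
    · exact circInt_of_cont continuous_const _ _
    · exact circInt_of_cont h2.1 _ _
  rw [h4, Real.circleAverage_const, h2.2]
  simp

end Pool.Agent.Helper119.Kral
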