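import Mathlib

open MeasureTheory Metric Set Filter Topology

namespace Pool.Agent.Helper119.Kral

lemma span_fourier_rep (g : C(AddCircle (1:ℝ), ℂ))
    (hg : g ∈ Submodule.span ℂ (range (fourier (T := (1:ℝ))))) :
    ∃ p q : Polynomial ℂ, ∀ θ : AddCircle (1:ℝ),
      g θ = p.eval ((AddCircle.toCircle θ : Circle) : ℂ) +
        (starRingEnd ℂ) (q.eval ((AddCircle.toCircle θ : Circle) : ℂ)) := by
  induction hg using Submodule.span_induction with
  | mem x hx =>
    obtain ⟨n, rfl⟩ := hx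
    rcases Int.le_total 0 n with hn | hn
    · obtain ⟨m, rfl⟩ := Int.eq_ofNat_of_zero_le hn
      refine ⟨Polynomial.X ^ m, 0, fun θ => ?_⟩
      rw [fourier_apply, AddCircle.toCircle_zsmul]
      simp
    · obtain ⟨m, hm⟩ := Int.eq_ofNat_of_zero_le (show 0 ≤ -n by omega)
      refine ⟨0, Polynomial.X ^ m, fun θ => ?_⟩
      have : n = -(m : ℤ) := by omega
      rw [this, fourier_neg, fourier_apply, AddCircle.toCircle_zsmul]
      simp
  | zero => exact ⟨0, 0, fun θ => by simp⟩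
  | add x y _ _ hx hy =>
    obtain ⟨p1, q1, h1⟩ := hx
    obtain ⟨p2, q2, h2⟩ := hy
    refine ⟨p1 + p2, q1 + q2, fun θ => ?_⟩
    simp only [ContinuousMap.add_apply, h1, h2, Polynomial.eval_add, map_add]
    ring
  | smul a x _ hx =>
    obtain ⟨p1, q1, h1⟩ := hx
    refine ⟨Polynomial.C a * p1, Polynomial.C ((starRingEnd ℂ) a) * q1, fun θ => ?_⟩
    simp only [ContinuousMap.smul_apply, h1, smul_eq_mul, Polynomial.eval_mul, Polynomial.eval_C,
      map_mul, Complex.conj_conj]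
    ring

lemma exists_poly_approx {f : ℂ → ℝ} {c : ℂ} {R : ℝ} (hR : 0 < R)
    (hf : ContinuousOn f (sphere c R)) {ε : ℝ} (hε : 0 < ε) :
    ∃ p : Polynomial ℂ, ∀ z ∈ sphere c R, |f z - (p.eval z).re| ≤ ε := by
  have hmem : ∀ θ : AddCircle (1:ℝ), c + R * ((AddCircle.toCircle θ : Circle) : ℂ) ∈ sphere c R := by
    intro θ
    rw [mem_sphere_iff_norm, add_sub_cancel_left, norm_mul, Circle.norm_coe, Complex.norm_real, Real.norm_eq_abs, abs_of_pos hR, mul_one]
  let F : C(AddCircle (1:ℝ), ℂ) :=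
    ⟨fun θ => ((f (c + R * ((AddCircle.toCircle θ : Circle) : ℂ)) : ℝ) : ℂ), by
      apply Complex.continuous_ofReal.comp
      apply hf.comp_continuous
      · apply continuous_const.add
        apply continuous_const.mul
        exact continuous_subtype_val.comp AddCircle.continuous_toCircle
      · exact hmem⟩
  have hF : F ∈ (Submodule.span ℂ (range (fourier (T := (1:ℝ))))).topologicalClosure := by
    rw [span_fourier_closure_eq_top]
    trivial
  rw [← SetLike.mem_coe, Submodule.topologicalClosure_coe, Metric.mem_closure_iff] at hF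
  obtain ⟨g, hg, hd⟩ := hF ε hε
  obtain ⟨p, q, hpq⟩ := span_fourier_rep g hg
  refine ⟨(p + q).comp (Polynomial.C ((R:ℂ)⁻¹) * (Polynomial.X - Polynomial.C c)), ?_⟩
  intro z hz
  have hRc : (R : ℂ) ≠ 0 := by exact_mod_cast hR.ne'
  have hw : ‖(R:ℂ)⁻¹ * (z - c)‖ = 1 := by
    rw [norm_mul, norm_inv, Complex.norm_real, Real.norm_eq_abs, abs_of_pos hR,
      mem_sphere_iff_norm.1 hz]
    field_simp
  let w : Circle := ⟨(R:ℂ)⁻¹ * (z - c), mem_sphere_zero_iff_norm.2 hw⟩
  obtain ⟨θ, hθ⟩ := (AddCircle.homeomorphCircle (T := (1:ℝ)) one_ne_zero).surjective w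
  rw [AddCircle.homeomorphCircle_apply] at hθ
  have hwz : (w : ℂ) = (R:ℂ)⁻¹ * (z - c) := rfl
  have hz' : c + R * ((AddCircle.toCircle θ : Circle) : ℂ) = z := by
    rw [hθ, hwz]
    field_simp
    ring
  have hFθ : F θ = ((f z : ℝ) : ℂ) := by
    show ((f (c + R * ((AddCircle.toCircle θ : Circle) : ℂ)) : ℝ) : ℂ) = _
    rw [hz']
  have h1 : ‖F θ - g θ‖ ≤ ε := by
    have := ContinuousMap.dist_apply_le_dist (f := F) (g := g) θ
    rw [dist_eq_norm] at this
    linarith
  have h2 : (g θ).re = ((p + q).eval ((R:ℂ)⁻¹ * (z - c))).re := by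
    rw [hpq θ, hθ, hwz]
    simp
  have h3 : |(F θ - g θ).re| ≤ ε := (Complex.abs_re_le_norm _).trans h1
  rw [Complex.sub_re, hFθ, h2, Complex.ofReal_re] at h3
  simpa [Polynomial.eval_comp] using h3

end Pool.Agent.Helper119.Kral
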