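import Pool.Agent.Helper119.KralA
import Pool.Agent.Helper119.KralB

open MeasureTheory Metric Set Filter Topology

namespace Pool.Agent.Helper119.Kral

/-- the complex gradient of the comparison functions -/
noncomputable def gradA (p : Polynomial ℂ) (c z0 : ℂ) (ε s : ℝ) (w : ℂ) : ℂ :=
  p.derivative.eval w - 2 * ε * (starRingEnd ℂ) (w - c) + 2 * s * (starRingEnd ℂ) (w - z0)

/-- comparison functions -/
noncomputable def cmp (p : Polynomial ℂ) (c z0 : ℂ) (ε s : ℝ) (z : ℂ) : ℝ :=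
  ((p.eval z).re + (-ε) * ‖z - c‖ ^ 2) + s * ‖z - z0‖ ^ 2

lemma cmp_SM (p : Polynomial ℂ) (c z0 : ℂ) (ε s : ℝ) : SM (cmp p c z0 ε s) (ε - s) := by
  have h1 : SM (fun z => (p.eval z).re) 0 := SM_re_entire p.differentiable
  have h2 := (SM_normSq c).const_mul (-ε)
  have h3 := (SM_normSq z0).const_mul s
  have h4 := (h1.add h2).add h3
  have e : ε - s = 0 + -ε * -1 + s * -1 := by ring
  rw [e]
  exact h4

lemma hasFDerivAt_normSq (b w : ℂ) :
    HasFDerivAt (fun z : ℂ => ‖z - b‖ ^ 2)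
      (Complex.reCLM.comp ((ContinuousLinearMap.mul ℝ ℂ) (2 * (starRingEnd ℂ) (w - b)))) w := by
  have h := ((hasFDerivAt_id (𝕜 := ℝ) w).sub_const b).norm_sq
  refine h.congr_fderiv ?_
  ext v
  simp [Complex.inner]
  ring

lemma cmp_hasFDerivAt (p : Polynomial ℂ) (c z0 : ℂ) (ε s : ℝ) (w : ℂ) :
    HasFDerivAt (cmp p c z0 ε s)
      (Complex.reCLM.comp ((ContinuousLinearMap.mul ℝ ℂ) (gradA p c z0 ε s w))) w := by
  have h1 : HasFDerivAt (fun z => (p.eval z).re)
      (Complex.reCLM.comp ((ContinuousLinearMap.mul ℝ ℂ) (p.derivative.eval w))) w := by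
    have ha := (p.hasDerivAt w).hasFDerivAt.restrictScalars ℝ
    have hb := Complex.reCLM.hasFDerivAt.comp w ha
    refine hb.congr_fderiv ?_
    ext v
    simp
    ring
  have h2 := (hasFDerivAt_normSq c w).const_mul (-ε)
  have h3 := (hasFDerivAt_normSq z0 w).const_mul s
  have h4 := (h1.add h2).add h3
  refine h4.congr_fderiv ?_
  ext v
  simp [gradA]
  ring

lemma gradA_eq_zero {p : Polynomial ℂ} {c z0 : ℂ} {ε s : ℝ} {w : ℂ}
    (h : fderiv ℝ (cmp p c z0 ε s) w = 0) : gradA p c z0 ε s w = 0 := by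
  rw [(cmp_hasFDerivAt p c z0 ε s w).fderiv] at h
  have h1 := DFunLike.congr_fun h ((starRingEnd ℂ) (gradA p c z0 ε s w))
  simp only [ContinuousLinearMap.comp_apply, ContinuousLinearMap.mul_apply', Complex.reCLM_apply,
    Complex.mul_conj, Complex.ofReal_re] at h1
  exact Complex.normSq_eq_zero.1 h1

end Pool.Agent.Helper119.Kral
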