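import Pool.Agent.Helper119.KralC

open MeasureTheory Metric Set Filter Topology

namespace Pool.Agent.Helper119.Kral

lemma exists_isolated (p : Polynomial ℂ) (c z0 : ℂ) {ε : ℝ} (hε : 0 < ε)
    (h0 : p.derivative.eval z0 = 2 * ε * (starRingEnd ℂ) (z0 - c)) :
    ∃ s : ℝ, 0 < s ∧ s < ε ∧ ∃ δ > 0, ∀ w, ‖w - z0‖ < δ → gradA p c z0 ε s w = 0 → w = z0 := by
  obtain ⟨s, hs0, hsε, hs⟩ : ∃ s : ℝ, 0 < s ∧ s < ε ∧
      ‖p.derivative.derivative.eval z0‖ ≠ 2 * (ε - s) := by
    by_cases h : ‖p.derivative.derivative.eval z0‖ = 2 * (ε - ε / 2)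
    · refine ⟨ε / 4, by linarith, by linarith, ?_⟩
      rw [h]
      intro h'
      linarith
    · exact ⟨ε / 2, by linarith, by linarith, h⟩
  refine ⟨s, hs0, hsε, ?_⟩
  have hd : HasDerivAt (fun w => p.derivative.eval w) (p.derivative.derivative.eval z0) z0 :=
    p.derivative.hasDerivAt z0
  have ht := (hasDerivAt_iff_tendsto_slope.1 hd).norm
  have hev := ht.eventually_ne hs
  rw [eventually_nhdsWithin_iff, Metric.eventually_nhds_iff] at hev
  obtain ⟨δ, hδ, hev⟩ := hev
  refine ⟨δ, hδ, fun w hw hA => ?_⟩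
  by_contra hne
  apply hev (by rwa [dist_eq_norm]) hne
  have hwz : ‖w - z0‖ ≠ 0 := norm_ne_zero_iff.2 (sub_ne_zero.2 hne)
  have e : p.derivative.eval w - p.derivative.eval z0 = 2 * (ε - s) * (starRingEnd ℂ) (w - z0) := by
    have : p.derivative.eval w = 2 * ε * (starRingEnd ℂ) (w - c) -
        2 * s * (starRingEnd ℂ) (w - z0) := by
      unfold gradA at hA
      linear_combination hA
    rw [this, h0]
    simp only [map_sub]
    ring
  have e2 : ‖(2 * (ε - s) : ℂ)‖ = 2 * (ε - s) := by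
    have : (2 * (ε - s) : ℂ) = ((2 * (ε - s) : ℝ) : ℂ) := by push_cast; ring
    rw [this, Complex.norm_real, Real.norm_eq_abs, abs_of_pos]
    linarith
  rw [slope_def_field, norm_div, e, norm_mul, e2, Complex.norm_conj]
  field_simp

lemma exists_touching {G : Set ℂ} (hG : IsOpen G) {f : ℂ → ℝ} (hf : ContDiffOn ℝ 1 f G)
    {c : ℂ} {R : ℝ} (hR : 0 < R) (hsub : closedBall c R ⊆ G)
    (hfail : Real.circleAverage f c R < f c) :
    ∃ z1 ∈ G, ∃ ρ > 0, ∃ κ > 0, ∃ φ : ℂ → ℝ, closedBall z1 ρ ⊆ G ∧ SM φ κ ∧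
      fderiv ℝ f z1 ≠ 0 ∧ ∀ z ∈ closedBall z1 ρ, f z - φ z ≤ f z1 - φ z1 := by
  have hfc : ContinuousOn f G := hf.continuousOn
  have hfcR : ContinuousOn f (closedBall c R) := hfc.mono hsub
  have hdiff : ∀ z ∈ G, DifferentiableAt ℝ f z := fun z hz =>
    (hf.differentiableOn one_ne_zero).differentiableAt (hG.mem_nhds hz)
  -- step 1
  set κ0 : ℝ := (f c - Real.circleAverage f c R) / 8 with hκ0
  have hκ0pos : 0 < κ0 := by rw [hκ0]; linarith
  obtain ⟨p, hp⟩ := exists_poly_approx hR (hfcR.mono sphere_subset_closedBall) hκ0pos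
  have hSMh : SM (fun z => (p.eval z).re) 0 := SM_re_entire p.differentiable
  have hhc : (p.eval c).re ≤ f c - 7 * κ0 := by
    have h1 : Real.circleAverage (fun z => (p.eval z).re) c R = (p.eval c).re := by
      rw [hSMh.2]; ring
    have h2 : Real.circleAverage (fun z => (p.eval z).re) c R ≤
        Real.circleAverage (fun z => f z + κ0) c R := by
      apply Real.circleAverage_mono (circInt_of_cont hSMh.1 _ _)
      · apply ContinuousOn.circleIntegrable hR.le
        exact (hfcR.mono sphere_subset_closedBall).add continuousOn_const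
      · intro x hx
        rw [abs_of_pos hR] at hx
        have := (abs_le.1 (hp x hx)).1
        linarith
    have h3 : Real.circleAverage (fun z => f z + κ0) c R = Real.circleAverage f c R + κ0 := by
      rw [Real.circleAverage_fun_add _ (circInt_of_cont continuous_const _ _),
        Real.circleAverage_const]
      exact ContinuousOn.circleIntegrable hR.le (hfcR.mono sphere_subset_closedBall)
    rw [h1, h3] at h2
    have : f c = Real.circleAverage f c R + 8 * κ0 := by rw [hκ0]; ring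
    linarith
  -- step 2
  set ε : ℝ := κ0 / R ^ 2 with hε
  have hεpos : 0 < ε := by positivity
  have hεR : ε * R ^ 2 = κ0 := by rw [hε]; field_simp
  set ψ : ℂ → ℝ := cmp p c c ε 0 with hψ
  have hψcont : Continuous ψ := (cmp_SM p c c ε 0).1
  obtain ⟨z0, hz0mem, hz0max⟩ := (isCompact_closedBall c R).exists_isMaxOn
    (nonempty_closedBall.2 hR.le) (hfcR.sub hψcont.continuousOn)
  have hz0max' : ∀ z ∈ closedBall c R, f z - ψ z ≤ f z0 - ψ z0 := fun z hz => hz0max hz
  have hz0ball : z0 ∈ ball c R := by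
    by_contra hnot
    have hsph : z0 ∈ sphere c R := by
      rw [mem_sphere]
      rw [mem_ball, not_lt] at hnot
      exact le_antisymm (mem_closedBall.1 hz0mem) hnot
    have h1 := hz0max' c (mem_closedBall_self hR.le)
    have h2 : ψ c = (p.eval c).re := by simp [hψ, cmp]
    have h3 : ψ z0 = (p.eval z0).re - κ0 := by
      have : ‖z0 - c‖ = R := mem_sphere_iff_norm.1 hsph
      simp only [hψ, cmp, this]
      linarith
    have h4 := (abs_le.1 (hp z0 hsph)).2
    rw [h2, h3] at h1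
    linarith
  have hz0G : z0 ∈ G := hsub hz0mem
  obtain ⟨ρ0, hρ0, hρ0sub⟩ : ∃ ρ0 > 0, closedBall z0 ρ0 ⊆ closedBall c R := by
    obtain ⟨e, he, hsub'⟩ := Metric.isOpen_iff.1 isOpen_ball z0 hz0ball
    refine ⟨e / 2, by linarith, ?_⟩
    exact (closedBall_subset_ball (by linarith)).trans (hsub'.trans ball_subset_closedBall)
  -- step 3
  by_cases hcrit : fderiv ℝ f z0 ≠ 0
  · refine ⟨z0, hz0G, ρ0, hρ0, ε, hεpos, ψ, hρ0sub.trans hsub, ?_, hcrit, ?_⟩
    · have := cmp_SM p c c ε 0
      rwa [sub_zero] at this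
    · exact fun z hz => hz0max' z (hρ0sub hz)
  push Not at hcrit
  have hlocmax : IsLocalMax (fun z => f z - ψ z) z0 := by
    filter_upwards [closedBall_mem_nhds z0 hρ0] with z hz using hz0max' z (hρ0sub hz)
  have hψd : ∀ w, DifferentiableAt ℝ ψ w := fun w => (cmp_hasFDerivAt p c c ε 0 w).differentiableAt
  have hψ0 : fderiv ℝ ψ z0 = 0 := by
    have h1 := hlocmax.fderiv_eq_zero
    rw [fderiv_fun_sub (hdiff z0 hz0G) (hψd z0), hcrit, zero_sub, neg_eq_zero] at h1
    exact h1
  have hA0 : p.derivative.eval z0 = 2 * ε * (starRingEnd ℂ) (z0 - c) := by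
    have := gradA_eq_zero (p := p) (c := c) (z0 := c) (ε := ε) (s := 0) (w := z0) hψ0
    unfold gradA at this
    simp only [Complex.ofReal_zero, mul_zero, zero_mul, add_zero] at this
    linear_combination this
  obtain ⟨s, hs0, hsε, δ, hδ, hiso⟩ := exists_isolated p c z0 hεpos hA0
  set φ' : ℂ → ℝ := cmp p c z0 ε s with hφ'
  have hφ'SM : SM φ' (ε - s) := cmp_SM p c z0 ε s
  have hφ'ψ : ∀ z, φ' z = ψ z + s * ‖z - z0‖ ^ 2 := by
    intro z; simp only [hφ', hψ, cmp]; ring
  have hφ'd : ∀ w, DifferentiableAt ℝ φ' w := fun w =>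
    (cmp_hasFDerivAt p c z0 ε s w).differentiableAt
  set M0 : ℝ := f z0 - φ' z0 with hM0
  have hM : ∀ z ∈ closedBall z0 ρ0, f z - φ' z ≤ M0 - s * ‖z - z0‖ ^ 2 := by
    intro z hz
    have := hz0max' z (hρ0sub hz)
    rw [hM0, hφ'ψ z, hφ'ψ z0]
    simp only [sub_self, norm_zero]
    linarith
  -- choose radius
  set ρ : ℝ := min ρ0 (δ / 4) with hρ
  have hρpos : 0 < ρ := lt_min hρ0 (by linarith)
  have hρρ0 : ρ ≤ ρ0 := min_le_left _ _
  have hρδ : ρ ≤ δ / 4 := min_le_right _ _
  -- uniform continuity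
  have huc := (isCompact_closedBall z0 (ρ + 1)).uniformContinuousOn_of_continuous
    hφ'SM.1.continuousOn
  rw [Metric.uniformContinuousOn_iff] at huc
  obtain ⟨η, hη, huc⟩ := huc (s * ρ ^ 2 / 4) (by positivity)
  set y0 : ℝ := min (min η 1) (min ρ (δ / 4)) with hy0
  have hy0pos : 0 < y0 := by
    apply lt_min (lt_min hη one_pos) (lt_min hρpos (by linarith))
  have hy0η : y0 ≤ η := (min_le_left _ _).trans (min_le_left _ _)
  have hy01 : y0 ≤ 1 := (min_le_left _ _).trans (min_le_right _ _)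
  have hy0ρ : y0 ≤ ρ := (min_le_right _ _).trans (min_le_left _ _)
  have hy0δ : y0 ≤ δ / 4 := (min_le_right _ _).trans (min_le_right _ _)
  have hclose : ∀ y : ℂ, ‖y‖ < y0 → ∀ z ∈ closedBall z0 ρ, |φ' (z - y) - φ' z| < s * ρ ^ 2 / 4 := by
    intro y hy z hz
    have h1 : z - y ∈ closedBall z0 (ρ + 1) := by
      rw [mem_closedBall, dist_eq_norm] at hz ⊢
      have : z - y - z0 = (z - z0) - y := by ring
      rw [this]
      calc ‖z - z0 - y‖ ≤ ‖z - z0‖ + ‖y‖ := norm_sub_le _ _
        _ ≤ ρ + 1 := by linarith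
    have h2 : z ∈ closedBall z0 (ρ + 1) := closedBall_subset_closedBall (by linarith) hz
    have h3 := huc (z - y) h1 z h2 (by
      rw [dist_eq_norm]
      have : z - y - z = -y := by ring
      rw [this, norm_neg]
      linarith)
    rwa [Real.dist_eq] at h3
  have hzG : closedBall z0 ρ ⊆ G :=
    (closedBall_subset_closedBall hρρ0).trans (hρ0sub.trans hsub)
  -- the maximum point for a translate
  have hmaxpt : ∀ y : ℂ, ‖y‖ < y0 → ∃ zy ∈ ball z0 ρ,
      ∀ z ∈ closedBall z0 ρ, f z - φ' (z - y) ≤ f zy - φ' (zy - y) := by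
    intro y hy
    have hcont : ContinuousOn (fun z => f z - φ' (z - y)) (closedBall z0 ρ) := by
      apply (hfc.mono hzG).sub
      exact (hφ'SM.1.comp (continuous_id.sub continuous_const)).continuousOn
    obtain ⟨zy, hzy, hzymax⟩ := (isCompact_closedBall z0 ρ).exists_isMaxOn
      (nonempty_closedBall.2 hρpos.le) hcont
    have hzymax' : ∀ z ∈ closedBall z0 ρ, f z - φ' (z - y) ≤ f zy - φ' (zy - y) :=
      fun z hz => hzymax hz
    refine ⟨zy, ?_, hzymax'⟩
    by_contra hnot
    have hn : ‖zy - z0‖ = ρ := by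
      rw [mem_ball, not_lt, dist_eq_norm] at hnot
      rw [mem_closedBall, dist_eq_norm] at hzy
      exact le_antisymm hzy hnot
    have h1 := hM zy (closedBall_subset_closedBall hρρ0 hzy)
    rw [hn] at h1
    have h2 := (abs_lt.1 (hclose y hy zy hzy)).1
    have h3 := hzymax' z0 (mem_closedBall_self hρpos.le)
    have h4 := (abs_lt.1 (hclose y hy z0 (mem_closedBall_self hρpos.le))).2
    nlinarith [sq_nonneg ρ, hs0, mul_pos hs0 (pow_pos hρpos 2)]
  have hcrit_y : ∀ y : ℂ, ‖y‖ < y0 → ∀ zy ∈ ball z0 ρ,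
      (∀ z ∈ closedBall z0 ρ, f z - φ' (z - y) ≤ f zy - φ' (zy - y)) →
      fderiv ℝ f zy = fderiv ℝ φ' (zy - y) := by
    intro y _ zy hzy hmax
    have hzyG : zy ∈ G := hzG (ball_subset_closedBall hzy)
    have hloc : IsLocalMax (fun z => f z - φ' (z - y)) zy := by
      filter_upwards [isOpen_ball.mem_nhds hzy] with z hz using hmax z (ball_subset_closedBall hz)
    have h1 := hloc.fderiv_eq_zero
    have hd2 : HasFDerivAt (fun z => φ' (z - y)) (fderiv ℝ φ' (zy - y)) zy := by
      have := (hφ'd (zy - y)).hasFDerivAt.comp zy ((hasFDerivAt_id (𝕜 := ℝ) zy).sub_const y)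
      exact this.congr_fderiv (ContinuousLinearMap.comp_id _)
    have h2 : fderiv ℝ (fun z => f z - φ' (z - y)) zy = fderiv ℝ f zy - fderiv ℝ φ' (zy - y) := by
      rw [fderiv_fun_sub (hdiff zy hzyG) hd2.differentiableAt, hd2.fderiv]
    rw [h2] at h1
    exact sub_eq_zero.1 h1
  by_cases hall : ∃ y : ℂ, ‖y‖ < y0 ∧ ∃ zy ∈ ball z0 ρ,
      (∀ z ∈ closedBall z0 ρ, f z - φ' (z - y) ≤ f zy - φ' (zy - y)) ∧ fderiv ℝ f zy ≠ 0
  · obtain ⟨y, hy, zy, hzy, hmax, hne⟩ := hall
    obtain ⟨e, he, hsub'⟩ := Metric.isOpen_iff.1 isOpen_ball zy hzy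
    have hcb : closedBall zy (e / 2) ⊆ closedBall z0 ρ :=
      (closedBall_subset_ball (by linarith)).trans (hsub'.trans ball_subset_closedBall)
    refine ⟨zy, hzG (ball_subset_closedBall hzy), e / 2, by linarith, ε - s, by linarith,
      fun z => φ' (z - y), hcb.trans hzG, hφ'SM.translate y, hne, ?_⟩
    exact fun z hz => hmax z (hcb hz)
  · exfalso
    push Not at hall
    -- the gradient of f vanishes near z0
    have hvan : ∀ y : ℂ, ‖y‖ < y0 → fderiv ℝ f (z0 + y) = 0 := by
      intro y hy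
      obtain ⟨zy, hzy, hmax⟩ := hmaxpt y hy
      have h1 := hall y hy zy hzy hmax
      have h2 := hcrit_y y hy zy hzy hmax
      rw [h1] at h2
      have h3 : gradA p c z0 ε s (zy - y) = 0 := gradA_eq_zero h2.symm
      have h4 : zy - y = z0 := by
        apply hiso _ _ h3
        rw [mem_ball, dist_eq_norm] at hzy
        have : zy - y - z0 = (zy - z0) - y := by ring
        rw [this]
        calc ‖zy - z0 - y‖ ≤ ‖zy - z0‖ + ‖y‖ := norm_sub_le _ _
          _ < δ := by linarith
      have h5 : z0 + y = zy := by rw [← h4]; ring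
      rw [h5]; exact h1
    have hconst : ∀ z ∈ ball z0 y0, f z = f z0 := by
      intro z hz
      have hsubG : ball z0 y0 ⊆ G :=
        (ball_subset_closedBall.trans (closedBall_subset_closedBall hy0ρ)).trans hzG
      apply (convex_ball z0 y0).is_const_of_fderivWithin_eq_zero (𝕜 := ℝ)
        (fun w hw => (hdiff w (hsubG hw)).differentiableWithinAt) _ hz (mem_ball_self hy0pos)
      intro w hw
      rw [fderivWithin_of_isOpen isOpen_ball hw]
      have := hvan (w - z0) (by rwa [← dist_eq_norm])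
      rwa [add_sub_cancel] at this
    -- contradiction with the circle average of φ'
    have hr : (0:ℝ) < y0 / 2 := by linarith
    have h1 : φ' z0 ≤ Real.circleAverage φ' z0 (y0 / 2) := by
      rw [← Real.circleAverage_const (φ' z0) z0 (y0 / 2)]
      apply Real.circleAverage_mono (circInt_of_cont continuous_const _ _)
        (circInt_of_cont hφ'SM.1 _ _)
      intro w hw
      rw [abs_of_pos hr, mem_sphere, dist_eq_norm] at hw
      have hwb : w ∈ ball z0 y0 := by rw [mem_ball, dist_eq_norm, hw]; linarith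
      have hwρ : w ∈ closedBall z0 ρ0 := by
        rw [mem_closedBall, dist_eq_norm, hw]; linarith
      have h2 := hM w hwρ
      rw [hconst w hwb, hM0] at h2
      have : 0 ≤ s * ‖w - z0‖ ^ 2 := by positivity
      linarith
    rw [hφ'SM.2] at h1
    have : 0 < (ε - s) * (y0 / 2) ^ 2 := by
      apply mul_pos (by linarith)
      positivity
    linarith

end Pool.Agent.Helper119.Kral
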