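import Mathlib

open MeasureTheory Metric Set
open scoped ENNReal

namespace Pool.Agent.Helper119.Kral

/-- The Hausdorff measure of the problem, on the real line, with measure function `ω`
(evaluated at diameters). -/
noncomputable def gaugeMeasure (ω : ℝ → ℝ) : Measure ℝ :=
  Measure.mkMetric fun d : ℝ≥0∞ => ENNReal.ofReal (ω d.toReal)

/-- The class `C^ω(G)`: `|g u - g v| = O(ω |u - v|)` as `|u - v|` tends to `0`, uniformly on each
compact subset of `G`. -/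
def COmega (ω : ℝ → ℝ) (G : Set ℂ) (g : ℂ → ℝ) : Prop :=
  ∀ K : Set ℂ, K ⊆ G → IsCompact K → ∃ C : ℝ, 0 < C ∧ ∃ δ : ℝ, 0 < δ ∧
    ∀ u ∈ K, ∀ v ∈ K, ‖u - v‖ < δ → |g u - g v| ≤ C * ω ‖u - v‖

/-- The class with `o` in place of `O`. -/
def COmegaStar (ω : ℝ → ℝ) (G : Set ℂ) (g : ℂ → ℝ) : Prop :=
  ∀ K : Set ℂ, K ⊆ G → IsCompact K → ∀ ε : ℝ, 0 < ε → ∃ δ : ℝ, 0 < δ ∧
    ∀ u ∈ K, ∀ v ∈ K, ‖u - v‖ < δ → |g u - g v| ≤ ε * ω ‖u - v‖

/-- The class `C^{1,ω}(G)`: continuously differentiable real functions on `G` whose two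
first-order derivatives (in the directions `1` and `i`) are in `C^ω(G)`. -/
def C1Omega (ω : ℝ → ℝ) (G : Set ℂ) (f : ℂ → ℝ) : Prop :=
  ContDiffOn ℝ 1 f G ∧ COmega ω G (fun z => fderiv ℝ f z 1) ∧
    COmega ω G (fun z => fderiv ℝ f z Complex.I)

/-- The class of the same kind with `o` in place of `O`. -/
def C1OmegaStar (ω : ℝ → ℝ) (G : Set ℂ) (f : ℂ → ℝ) : Prop :=
  ContDiffOn ℝ 1 f G ∧ COmegaStar ω G (fun z => fderiv ℝ f z 1) ∧
    COmegaStar ω G (fun z => fderiv ℝ f z Complex.I)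

/-- Subharmonic real-valued functions on `G`: upper semicontinuous, with the sub-mean value
inequality on every closed disc contained in `G`. -/
def Subharmonic (G : Set ℂ) (f : ℂ → ℝ) : Prop :=
  UpperSemicontinuousOn f G ∧
    ∀ (c : ℂ) (r : ℝ), 0 < r → closedBall c r ⊆ G → f c ≤ Real.circleAverage f c r

/-- `E` is negligible `(K, K')`: if `f` is in `K(G)`, in `K'(G')` for some open `G' ⊆ G`, and takes
values in `E` on `G \ G'`, then `f` is in `K'(G)`. -/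
def Negligible (K K' : Set ℂ → (ℂ → ℝ) → Prop) (E : Set ℝ) : Prop :=
  ∀ G : Set ℂ, IsOpen G → ∀ f : ℂ → ℝ, K G f →
    ∀ G' : Set ℂ, IsOpen G' → G' ⊆ G → K' G' f → (∀ z ∈ G \ G', f z ∈ E) → K' G f

/-- Sanity check: the explicit formula with countable covers by sets of small diameter. -/
theorem gaugeMeasure_apply (ω : ℝ → ℝ) (E : Set ℝ) :
    gaugeMeasure ω E = ⨆ (r : ℝ≥0∞) (_ : 0 < r),
      ⨅ (t : ℕ → Set ℝ) (_ : E ⊆ ⋃ n, t n) (_ : ∀ n, ediam (t n) ≤ r),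
        ∑' n, ⨆ _ : (t n).Nonempty, ENNReal.ofReal (ω (ediam (t n)).toReal) :=
  Measure.mkMetric_apply _ _

end Pool.Agent.Helper119.Kral
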