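import Pool.Agent.Helper119.KralD

open MeasureTheory Metric Set Filter Topology

namespace Pool.Agent.Helper119.Kral

lemma abs_avg_sub_le {f : ℂ → ℝ} {z a : ℂ} {r τ : ℝ} (hr : 0 < r)
    (hf : ContinuousOn f (sphere z r))
    (h : ∀ w ∈ sphere z r, |f w - f z - (a * (w - z)).re| ≤ τ) :
    |Real.circleAverage f z r - f z| ≤ τ := by
  have hl : SM (fun w => (a * (w - z)).re) 0 := SM_re_entire (by fun_prop)
  have hlin : CircleIntegrable (fun w => (a * (w - z)).re) z r := circInt_of_cont hl.1 _ _
  have hfi : CircleIntegrable f z r := ContinuousOn.circleIntegrable hr.le hf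
  have havg : ∀ t : ℝ, Real.circleAverage (fun w => (a * (w - z)).re + t) z r = t := by
    intro t
    rw [Real.circleAverage_fun_add hlin (circInt_of_cont continuous_const _ _),
      Real.circleAverage_const, hl.2]
    simp
  rw [abs_le]
  constructor
  · have h1 : Real.circleAverage (fun w => (a * (w - z)).re + (f z - τ)) z r ≤
        Real.circleAverage f z r := by
      apply Real.circleAverage_mono (circInt_of_cont (hl.1.add continuous_const) _ _) hfi
      intro w hw
      rw [abs_of_pos hr] at hw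
      have := (abs_le.1 (h w hw)).1
      show (a * (w - z)).re + (f z - τ) ≤ f w
      linarith
    rw [havg] at h1
    linarith
  · have h1 : Real.circleAverage f z r ≤
        Real.circleAverage (fun w => (a * (w - z)).re + (f z + τ)) z r := by
      apply Real.circleAverage_mono hfi (circInt_of_cont (hl.1.add continuous_const) _ _)
      intro w hw
      rw [abs_of_pos hr] at hw
      have := (abs_le.1 (h w hw)).2
      show f w ≤ (a * (w - z)).re + (f z + τ)
      linarith
    rw [havg] at h1
    linarith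

lemma avg_abs_ge {f : ℂ → ℝ} {z a : ℂ} {r τ e : ℝ} (hr : 0 < r)
    (hf : ContinuousOn f (sphere z r)) (hτ : 0 ≤ τ)
    (h : ∀ w ∈ sphere z r, |f w - f z - (a * (w - z)).re| ≤ τ) :
    ‖a‖ * r / 2 - τ ≤ Real.circleAverage (fun w => |f w - e|) z r := by
  by_cases ha : a = 0
  · have : 0 ≤ Real.circleAverage (fun w => |f w - e|) z r :=
      Real.circleAverage_nonneg_of_nonneg (fun x _ => abs_nonneg _)
    rw [ha, norm_zero]
    linarith
  have hapos : 0 < ‖a‖ := norm_pos_iff.2 ha
  set A : ℝ := ‖a‖ * r with hA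
  have hApos : 0 < A := by positivity
  set b : ℝ := f z - e with hb
  have hl : SM (fun w => (a * (w - z)).re) 0 := SM_re_entire (by fun_prop)
  have hq : SM (fun w => (a ^ 2 * (w - z) ^ 2).re) 0 := SM_re_entire (by fun_prop)
  have hfi : CircleIntegrable (fun w => |f w - e|) z r := by
    apply ContinuousOn.circleIntegrable hr.le
    exact (hf.sub continuousOn_const).abs
  -- lower comparison function
  have hg : SM (fun w => (b / A) * (a * (w - z)).re + (1 / (2 * A)) * (a ^ 2 * (w - z) ^ 2).re)
      ((b / A) * 0 + (1 / (2 * A)) * 0) := (hl.const_mul _).add (hq.const_mul _)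
  have hgi := circInt_of_cont hg.1 z r
  have havg : Real.circleAverage (fun w => ((b / A) * (a * (w - z)).re +
      (1 / (2 * A)) * (a ^ 2 * (w - z) ^ 2).re) + (A / 2 - τ)) z r = A / 2 - τ := by
    rw [Real.circleAverage_fun_add hgi (circInt_of_cont continuous_const _ _),
      Real.circleAverage_const, hg.2]
    simp
  rw [← havg]
  apply Real.circleAverage_mono (circInt_of_cont (hg.1.add continuous_const) _ _) hfi
  intro w hw
  rw [abs_of_pos hr] at hw
  have hwn : ‖w - z‖ = r := mem_sphere_iff_norm.1 hw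
  have h1 := abs_le.1 (h w hw)
  set l : ℝ := (a * (w - z)).re with hl'
  set l2 : ℝ := (a * (w - z)).im with hl2'
  have hsq : l ^ 2 + l2 ^ 2 = A ^ 2 := by
    have : ‖a * (w - z)‖ ^ 2 = A ^ 2 := by rw [norm_mul, hwn]
    rw [← this, ← Complex.normSq_eq_norm_sq, Complex.normSq_apply]
    ring
  have hre : (a ^ 2 * (w - z) ^ 2).re = l ^ 2 - l2 ^ 2 := by
    rw [← mul_pow, sq, Complex.mul_re]
    ring
  have hlA : |l| ≤ A := by
    apply abs_le_of_sq_le_sq _ hApos.le
    nlinarith [sq_nonneg l2]
  have hkey : (b / A) * l + l ^ 2 / A ≤ |b + l| := by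
    have e1 : (b / A) * l + l ^ 2 / A = (b + l) * (l / A) := by field_simp
    rw [e1]
    have e2 : |l / A| ≤ 1 := by
      rw [abs_div, abs_of_pos hApos, div_le_one hApos]
      exact hlA
    calc (b + l) * (l / A) ≤ |(b + l) * (l / A)| := le_abs_self _
      _ = |b + l| * |l / A| := abs_mul _ _
      _ ≤ |b + l| * 1 := by
        apply mul_le_mul_of_nonneg_left e2 (abs_nonneg _)
      _ = |b + l| := mul_one _
  have hfw : |b + l| - τ ≤ |f w - e| := by
    have : |b + l| ≤ |f w - e| + |f w - f z - l| := by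
      have e3 : b + l = (f w - e) - (f w - f z - l) := by rw [hb]; ring
      rw [e3]
      exact abs_sub _ _
    have h2 : |f w - f z - l| ≤ τ := h w hw
    linarith
  have hfin : (b / A) * l + (1 / (2 * A)) * (l ^ 2 - l2 ^ 2) + A / 2 = (b / A) * l + l ^ 2 / A := by
    have : l2 ^ 2 = A ^ 2 - l ^ 2 := by linarith
    rw [this]
    field_simp
    ring
  show (b / A) * l + (1 / (2 * A)) * (a ^ 2 * (w - z) ^ 2).re + (A / 2 - τ) ≤ |f w - e|
  rw [hre]
  linarith

/-- the convex increasing perturbation of the identity -/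
noncomputable def Fpert {ι : Type} (S : Finset ι) (M e : ι → ℝ) (s : ℝ) : ℝ :=
  s + ∑ j ∈ S, M j * |s - e j|

lemma Fpert_cont {ι : Type} (S : Finset ι) (M e : ι → ℝ) : Continuous (Fpert S M e) := by
  unfold Fpert
  fun_prop

lemma avg_Fpert {ι : Type} (S : Finset ι) (M e : ι → ℝ) {f : ℂ → ℝ} {z : ℂ} {r : ℝ} (hr : 0 < r)
    (hf : ContinuousOn f (sphere z r)) :
    Real.circleAverage (fun w => Fpert S M e (f w)) z r =
      Real.circleAverage f z r + ∑ j ∈ S, M j * Real.circleAverage (fun w => |f w - e j|) z r := by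
  have hi : ∀ j, CircleIntegrable (fun w => |f w - e j|) z r := by
    intro j
    apply ContinuousOn.circleIntegrable hr.le
    exact (hf.sub continuousOn_const).abs
  have hi2 : ∀ j, CircleIntegrable (fun w => M j * |f w - e j|) z r := by
    intro j
    apply ContinuousOn.circleIntegrable hr.le
    exact continuousOn_const.mul (hf.sub continuousOn_const).abs
  unfold Fpert
  rw [Real.circleAverage_fun_add]
  · congr 1
    rw [Real.circleAverage_fun_sum (fun j _ => hi2 j)]
    apply Finset.sum_congr rfl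
    intro j _
    have := Real.circleAverage_fun_smul (f := fun w => |f w - e j|) (c := z) (R := r) (a := M j)
    simpa only [smul_eq_mul] using this
  · exact ContinuousOn.circleIntegrable hr.le hf
  · apply ContinuousOn.circleIntegrable hr.le
    apply continuousOn_finsetSum
    intro j _
    exact continuousOn_const.mul (hf.sub continuousOn_const).abs

lemma abs_avg_sub_le_avg {f : ℂ → ℝ} {z : ℂ} {r e : ℝ} (hr : 0 < r)
    (hf : ContinuousOn f (sphere z r)) :
    |Real.circleAverage f z r - e| ≤ Real.circleAverage (fun w => |f w - e|) z r := by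
  have h1 : Real.circleAverage (fun w => f w - e) z r = Real.circleAverage f z r - e := by
    rw [Real.circleAverage_fun_sub (ContinuousOn.circleIntegrable hr.le hf)
      (circInt_of_cont continuous_const _ _), Real.circleAverage_const]
  rw [← h1]
  exact Real.abs_circleAverage_le_circleAverage_abs

lemma Fpert_submean_of_submean {ι : Type} (S : Finset ι) (M e : ι → ℝ) (hM : ∀ j ∈ S, 0 ≤ M j)
    (hM1 : ∑ j ∈ S, M j ≤ 1) {f : ℂ → ℝ} {z : ℂ} {r : ℝ} (hr : 0 < r)
    (hf : ContinuousOn f (sphere z r)) (h : f z ≤ Real.circleAverage f z r) :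
    Fpert S M e (f z) ≤ Real.circleAverage (fun w => Fpert S M e (f w)) z r := by
  rw [avg_Fpert S M e hr hf]
  set t : ℝ := Real.circleAverage f z r - f z with ht
  have ht0 : 0 ≤ t := by rw [ht]; linarith
  have h1 : ∑ j ∈ S, M j * (|f z - e j| - t) ≤
      ∑ j ∈ S, M j * Real.circleAverage (fun w => |f w - e j|) z r := by
    apply Finset.sum_le_sum
    intro j hj
    apply mul_le_mul_of_nonneg_left _ (hM j hj)
    have h2 := abs_avg_sub_le_avg (e := e j) hr hf
    have h3 : |f z - e j| ≤ |Real.circleAverage f z r - e j| + t := by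
      have : f z - e j = (Real.circleAverage f z r - e j) - t := by rw [ht]; ring
      rw [this]
      calc _ ≤ |Real.circleAverage f z r - e j| + |t| := abs_sub _ _
        _ = _ := by rw [abs_of_nonneg ht0]
    linarith
  have h4 : ∑ j ∈ S, M j * (|f z - e j| - t) = ∑ j ∈ S, M j * |f z - e j| - (∑ j ∈ S, M j) * t := by
    rw [Finset.sum_mul, ← Finset.sum_sub_distrib]
    apply Finset.sum_congr rfl
    intro j _
    ring
  have h5 : (∑ j ∈ S, M j) * t ≤ t := by nlinarith
  unfold Fpert
  linarith

lemma Fpert_submean_of_cover {ι : Type} (S : Finset ι) (M e : ι → ℝ) (hM : ∀ j ∈ S, 0 ≤ M j)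
    (hM1 : ∑ j ∈ S, M j ≤ 1) {f : ℂ → ℝ} {z a : ℂ} {r τ δ : ℝ} (hr : 0 < r)
    (hf : ContinuousOn f (sphere z r)) (hτ : 0 ≤ τ)
    (h : ∀ w ∈ sphere z r, |f w - f z - (a * (w - z)).re| ≤ τ) {k : ι} (hk : k ∈ S)
    (hδ : |f z - e k| ≤ δ) (har : 2 * δ ≤ ‖a‖ * r / 2) (hgain : 2 * τ ≤ M k * δ) :
    Fpert S M e (f z) ≤ Real.circleAverage (fun w => Fpert S M e (f w)) z r := by
  classical
  rw [avg_Fpert S M e hr hf]
  have h0 := abs_le.1 (abs_avg_sub_le hr hf h)
  have h1 : ∑ j ∈ S, (M j * (|f z - e j| - τ) + if j = k then M k * δ else 0) ≤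
      ∑ j ∈ S, M j * Real.circleAverage (fun w => |f w - e j|) z r := by
    apply Finset.sum_le_sum
    intro j hj
    by_cases hjk : j = k
    · subst hjk
      simp only [if_true]
      rw [← mul_add]
      apply mul_le_mul_of_nonneg_left _ (hM j hj)
      have h2 := avg_abs_ge (e := e j) hr hf hτ h
      linarith
    · simp only [hjk, if_false, add_zero]
      apply mul_le_mul_of_nonneg_left _ (hM j hj)
      have h2 := abs_avg_sub_le_avg (e := e j) hr hf
      have h3 : |f z - e j| ≤ |Real.circleAverage f z r - e j| + τ := by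
        have : f z - e j = (Real.circleAverage f z r - e j) - (Real.circleAverage f z r - f z) := by
          ring
        rw [this]
        calc _ ≤ |Real.circleAverage f z r - e j| + |Real.circleAverage f z r - f z| := abs_sub _ _
          _ ≤ _ := by
            have := abs_avg_sub_le hr hf h
            linarith
      linarith
  have h4 : ∑ j ∈ S, (M j * (|f z - e j| - τ) + if j = k then M k * δ else 0) =
      ∑ j ∈ S, M j * |f z - e j| - (∑ j ∈ S, M j) * τ + M k * δ := by
    rw [Finset.sum_add_distrib, Finset.sum_ite_eq' S k, if_pos hk, Finset.sum_mul,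
      ← Finset.sum_sub_distrib]
    congr 1
    apply Finset.sum_congr rfl
    intro j _
    ring
  have h5 : (∑ j ∈ S, M j) * τ ≤ τ := by nlinarith
  unfold Fpert
  linarith

lemma chain_bound {V : Type*} [NormedAddCommGroup V] {g : ℂ → V} {B : Set ℂ} (hB : Convex ℝ B)
    {δ m : ℝ} (h : ∀ u ∈ B, ∀ v ∈ B, ‖u - v‖ ≤ δ → ‖g u - g v‖ ≤ m) :
    ∀ N : ℕ, ∀ u ∈ B, ∀ v ∈ B, ‖u - v‖ ≤ N * δ → ‖g u - g v‖ ≤ N * m := by
  intro N
  induction N with
  | zero =>
    intro u _ v _ huv
    have : ‖u - v‖ = 0 := le_antisymm (by simpa using huv) (norm_nonneg _)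
    have huv' : u = v := sub_eq_zero.1 (norm_eq_zero.1 this)
    simp [huv']
  | succ N ih =>
    intro u hu v hv huv
    have hN : (0:ℝ) < N + 1 := by positivity
    set w : ℂ := v + ((N / (N + 1) : ℝ)) • (u - v) with hw
    have hwB : w ∈ B := by
      have : w = ((1 / (N + 1) : ℝ)) • v + ((N / (N + 1) : ℝ)) • u := by
        rw [hw]
        have e : (1 / (N + 1) : ℝ) = 1 - (N / (N + 1) : ℝ) := by field_simp; ring
        rw [e]
        module
      rw [this]
      apply hB hv hu (by positivity) (by positivity)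
      field_simp
      ring
    push_cast at huv
    have h1 : ‖u - w‖ ≤ δ := by
      have : u - w = ((1 / (N + 1) : ℝ)) • (u - v) := by
        rw [hw]
        have e : (1 / (N + 1) : ℝ) = 1 - (N / (N + 1) : ℝ) := by field_simp; ring
        rw [e]
        module
      rw [this, norm_smul, Real.norm_eq_abs, abs_of_pos (by positivity)]
      rw [div_mul_eq_mul_div, one_mul, div_le_iff₀ hN]
      linarith
    have h2 : ‖w - v‖ ≤ N * δ := by
      have : w - v = ((N / (N + 1) : ℝ)) • (u - v) := by rw [hw]; module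
      rw [this, norm_smul, Real.norm_eq_abs, abs_of_nonneg (by positivity)]
      rw [div_mul_eq_mul_div, div_le_iff₀ hN]
      have : (0:ℝ) ≤ N := by positivity
      nlinarith
    have h3 := h u hu w hwB h1
    have h4 := ih w hwB v hv h2
    calc ‖g u - g v‖ = ‖(g u - g w) + (g w - g v)‖ := by congr 1; abel
      _ ≤ ‖g u - g w‖ + ‖g w - g v‖ := norm_add_le _ _
      _ ≤ m + N * m := by linarith
      _ = ((N + 1 : ℕ) : ℝ) * m := by push_cast; ring

end Pool.Agent.Helper119.Kral
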