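import Pool.Agent.Helper119.KralE

open MeasureTheory Metric Set Filter Topology

namespace Pool.Agent.Helper119.Kral

/-- covering hypothesis used in the proof -/
def CoverHyp (f : ℂ → ℝ) (G' B : Set ℂ) : Prop :=
  ∀ d > (0:ℝ), ∀ ζ > (0:ℝ), ∃ (ι : Type) (S : Finset ι) (e δ m : ι → ℝ),
    (∀ k ∈ S, 0 < δ k ∧ δ k < d ∧ 0 ≤ m k ∧ (∃ z ∈ B, f z = e k) ∧
      ∀ u ∈ B, ∀ v ∈ B, ‖u - v‖ ≤ δ k → ‖fderiv ℝ f u - fderiv ℝ f v‖ ≤ m k) ∧
    (∀ z ∈ B \ G', ∃ k ∈ S, |f z - e k| ≤ δ k) ∧ ∑ k ∈ S, m k ≤ ζ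

lemma clm_eq_re (L : ℂ →L[ℝ] ℝ) (v : ℂ) :
    L v = (((L 1 : ℂ) - Complex.I * (L Complex.I : ℂ)) * v).re := by
  have hv : v = (v.re : ℝ) • (1 : ℂ) + (v.im : ℝ) • Complex.I := by
    apply Complex.ext <;> simp
  conv_lhs => rw [hv]
  rw [map_add, map_smul, map_smul]
  simp
  ring

theorem submean_of_cover {G G' : Set ℂ} (hG : IsOpen G) (hG' : IsOpen G') {f : ℂ → ℝ}
    (hf : ContDiffOn ℝ 1 f G)
    (hS : ∀ (c : ℂ) (r : ℝ), 0 < r → closedBall c r ⊆ G' → f c ≤ Real.circleAverage f c r)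
    (hcov : ∀ (c : ℂ) (r : ℝ), 0 < r → closedBall c r ⊆ G → CoverHyp f G' (closedBall c r)) :
    ∀ (c : ℂ) (R : ℝ), 0 < R → closedBall c R ⊆ G → f c ≤ Real.circleAverage f c R := by
  intro c R hR hsub
  by_contra hfail
  push Not at hfail
  obtain ⟨z1, hz1, ρ, hρ, κ, hκ, φ, hρG, hφ, hne, hmax⟩ := exists_touching hG hf hR hsub hfail
  have hfc : ContinuousOn f G := hf.continuousOn
  have hdiff : ∀ z ∈ G, DifferentiableAt ℝ f z := fun z hz =>
    (hf.differentiableOn one_ne_zero).differentiableAt (hG.mem_nhds hz)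
  have hdc : ContinuousOn (fderiv ℝ f) G := hf.continuousOn_fderiv_of_isOpen hG le_rfl
  set a : ℂ → ℂ := fun z => ((fderiv ℝ f z 1 : ℝ) : ℂ) - Complex.I * ((fderiv ℝ f z Complex.I : ℝ) : ℂ)
    with ha
  have hac : ContinuousOn a G := by
    have h1 : ContinuousOn (fun z => fderiv ℝ f z 1) G := hdc.clm_apply continuousOn_const
    have h2 : ContinuousOn (fun z => fderiv ℝ f z Complex.I) G := hdc.clm_apply continuousOn_const
    exact (Complex.continuous_ofReal.comp_continuousOn h1).sub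
      (continuousOn_const.mul (Complex.continuous_ofReal.comp_continuousOn h2))
  have ha1 : a z1 ≠ 0 := by
    intro h0
    apply hne
    ext1 v
    rw [clm_eq_re (fderiv ℝ f z1) v]
    have : ((fderiv ℝ f z1 1 : ℝ) : ℂ) - Complex.I * ((fderiv ℝ f z1 Complex.I : ℝ) : ℂ) = 0 := h0
    rw [this]
    simp
  have ha1pos : 0 < ‖a z1‖ := norm_pos_iff.2 ha1
  -- small ball where the gradient is bounded below
  obtain ⟨ρ', hρ'pos, hρ'ρ, hρ'a⟩ : ∃ ρ' > 0, ρ' ≤ ρ ∧ ∀ z ∈ closedBall z1 ρ', ‖a z1‖ / 2 ≤ ‖a z‖ := by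
    have hcat : ContinuousAt (fun z => ‖a z‖) z1 := (hac.continuousAt (hG.mem_nhds hz1)).norm
    have hev : ∀ᶠ z in 𝓝 z1, ‖a z1‖ / 2 < ‖a z‖ :=
      hcat.eventually (lt_mem_nhds (by linarith))
    rw [Metric.eventually_nhds_iff] at hev
    obtain ⟨e, he, hev⟩ := hev
    refine ⟨min ρ (e / 2), lt_min hρ (by linarith), min_le_left _ _, fun z hz => ?_⟩
    apply le_of_lt
    apply hev
    rw [mem_closedBall] at hz
    have := hz.trans (min_le_right _ _)
    linarith
  set B : Set ℂ := closedBall z1 ρ' with hB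
  have hBρ : B ⊆ closedBall z1 ρ := closedBall_subset_closedBall hρ'ρ
  have hBG : B ⊆ G := hBρ.trans hρG
  have hBconv : Convex ℝ B := convex_closedBall z1 ρ'
  have hBcomp : IsCompact B := isCompact_closedBall z1 ρ'
  -- φ2
  set φ2 : ℂ → ℝ := fun z => φ z + (κ / 2) * ‖z - z1‖ ^ 2 with hφ2
  have hφ2SM : SM φ2 (κ / 2) := by
    have := hφ.add ((SM_normSq z1).const_mul (κ / 2))
    have e : κ + κ / 2 * -1 = κ / 2 := by ring
    rwa [e] at this
  have hmax2 : ∀ z ∈ B, f z - φ2 z ≤ f z1 - φ2 z1 - (κ / 2) * ‖z - z1‖ ^ 2 := by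
    intro z hz
    have := hmax z (hBρ hz)
    simp only [hφ2, sub_self, norm_zero]
    linarith
  -- bound for f
  obtain ⟨Cb, hCb⟩ := hBcomp.exists_bound_of_continuousOn (hfc.mono hBG)
  have hz1B : z1 ∈ B := mem_closedBall_self hρ'pos.le
  have hCb0 : 0 ≤ Cb := (norm_nonneg _).trans (hCb z1 hz1B)
  set D : ℝ := 2 * Cb + 1 with hD
  have hDpos : 0 < D := by rw [hD]; linarith
  have hosc : ∀ u ∈ B, ∀ v ∈ B, |f u - f v| ≤ D := by
    intro u hu v hv
    have h1 := hCb u hu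
    have h2 := hCb v hv
    rw [Real.norm_eq_abs] at h1 h2
    calc |f u - f v| ≤ |f u| + |f v| := abs_sub _ _
      _ ≤ D := by rw [hD]; linarith
  set η : ℝ := κ * ρ' ^ 2 / 16 with hη
  have hηpos : 0 < η := by positivity
  obtain ⟨N, hN⟩ := exists_nat_ge (8 / ‖a z1‖)
  have hNpos : (0:ℝ) < N := lt_of_lt_of_le (by positivity) hN
  have hNa : ∀ z ∈ B, 4 ≤ ‖a z‖ * N := by
    intro z hz
    have h1 := hρ'a z hz
    have h2 : 8 ≤ N * ‖a z1‖ := by rwa [div_le_iff₀ ha1pos] at hN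
    nlinarith
  obtain ⟨ι, S, e, δ, m, hSd, hScov, hSsum⟩ := hcov z1 ρ' hρ'pos hBG (ρ' / (2 * N)) (by positivity)
    (min 1 (η / D) / (2 * N ^ 2)) (by positivity)
  set M : ι → ℝ := fun k => 2 * N ^ 2 * m k with hM
  have hM0 : ∀ k ∈ S, 0 ≤ M k := fun k hk => by
    have := (hSd k hk).2.2.1
    simp only [hM]
    positivity
  have hMsum : ∑ k ∈ S, M k ≤ min 1 (η / D) := by
    simp only [hM]
    rw [← Finset.mul_sum]
    have h2 : 2 * (N:ℝ) ^ 2 * ∑ k ∈ S, m k ≤ 2 * (N:ℝ) ^ 2 * (min 1 (η / D) / (2 * N ^ 2)) := by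
      apply mul_le_mul_of_nonneg_left hSsum
      positivity
    have h3 : 2 * (N:ℝ) ^ 2 * (min 1 (η / D) / (2 * N ^ 2)) = min 1 (η / D) := by
      field_simp
    linarith
  have hM1 : ∑ k ∈ S, M k ≤ 1 := hMsum.trans (min_le_left _ _)
  have hM2 : (∑ k ∈ S, M k) * D ≤ η := by
    have := hMsum.trans (min_le_right _ _)
    rwa [le_div_iff₀ hDpos] at this
  -- closeness of F∘f to f
  have hFup : ∀ z ∈ B, Fpert S M e (f z) ≤ f z + η := by
    intro z hz
    unfold Fpert
    have : ∑ j ∈ S, M j * |f z - e j| ≤ ∑ j ∈ S, M j * D := by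
      apply Finset.sum_le_sum
      intro j hj
      apply mul_le_mul_of_nonneg_left _ (hM0 j hj)
      obtain ⟨w, hw, hwe⟩ := (hSd j hj).2.2.2.1
      rw [← hwe]
      exact hosc z hz w hw
    rw [← Finset.sum_mul] at this
    linarith
  have hFlow : ∀ z, f z ≤ Fpert S M e (f z) := by
    intro z
    unfold Fpert
    have : 0 ≤ ∑ j ∈ S, M j * |f z - e j| :=
      Finset.sum_nonneg fun j hj => mul_nonneg (hM0 j hj) (abs_nonneg _)
    linarith
  -- the maximum of v
  have hvc : ContinuousOn (fun z => Fpert S M e (f z) - φ2 z) B :=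
    ((Fpert_cont S M e).comp_continuousOn (hfc.mono hBG)).sub hφ2SM.1.continuousOn
  obtain ⟨zs, hzsB, hzsmax⟩ := hBcomp.exists_isMaxOn ⟨z1, hz1B⟩ hvc
  have hzsmax' : ∀ z ∈ B, Fpert S M e (f z) - φ2 z ≤ Fpert S M e (f zs) - φ2 zs :=
    fun z hz => hzsmax hz
  have hzsball : ‖zs - z1‖ < ρ' / 2 := by
    by_contra hnot
    push Not at hnot
    have h1 := hzsmax' z1 hz1B
    have h2 := hFlow z1
    have h3 := hFup zs hzsB
    have h4 := hmax2 zs hzsB
    have h5 : (κ / 2) * (ρ' / 2) ^ 2 ≤ (κ / 2) * ‖zs - z1‖ ^ 2 := by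
      apply mul_le_mul_of_nonneg_left _ (by linarith)
      apply pow_le_pow_left₀ (by linarith) hnot
    have h6 : (κ / 2) * (ρ' / 2) ^ 2 = 2 * η := by rw [hη]; ring
    linarith
  have hcbB : ∀ r ≤ ρ' / 2, closedBall zs r ⊆ B := by
    intro r hr w hw
    rw [hB, mem_closedBall, dist_eq_norm]
    rw [mem_closedBall, dist_eq_norm] at hw
    calc ‖w - z1‖ = ‖(w - zs) + (zs - z1)‖ := by congr 1; ring
      _ ≤ ‖w - zs‖ + ‖zs - z1‖ := norm_add_le _ _
      _ ≤ ρ' := by linarith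
  -- sub-mean value inequality at some radius
  obtain ⟨r, hr, hrB, hsm⟩ : ∃ r > 0, closedBall zs r ⊆ B ∧
      Fpert S M e (f zs) ≤ Real.circleAverage (fun w => Fpert S M e (f w)) zs r := by
    by_cases hzG' : zs ∈ G'
    · obtain ⟨t, ht, htG⟩ := Metric.isOpen_iff.1 hG' zs hzG'
      set r : ℝ := min (t / 2) (ρ' / 2) with hr
      have hrpos : 0 < r := lt_min (by linarith) (by linarith)
      have hrB := hcbB r (min_le_right _ _)
      have hrG' : closedBall zs r ⊆ G' := by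
        refine (closedBall_subset_ball ?_).trans htG
        have : r ≤ t / 2 := min_le_left _ _
        linarith
      refine ⟨r, hrpos, hrB, ?_⟩
      apply Fpert_submean_of_submean S M e hM0 hM1 hrpos
      · exact hfc.mono ((sphere_subset_closedBall.trans hrB).trans hBG)
      · exact hS zs r hrpos hrG'
    · obtain ⟨k, hk, hfk⟩ := hScov zs ⟨hzsB, hzG'⟩
      obtain ⟨hδ0, hδd, hm0, -, hmod⟩ := hSd k hk
      set r : ℝ := N * δ k with hr
      have hrpos : 0 < r := by positivity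
      have hrle : r ≤ ρ' / 2 := by
        rw [hr]
        have : δ k * (2 * N) ≤ ρ' := by
          rw [lt_div_iff₀ (by positivity)] at hδd
          exact hδd.le
        linarith
      have hrB := hcbB r hrle
      refine ⟨r, hrpos, hrB, ?_⟩
      have hchain := chain_bound hBconv hmod N
      have hTaylor : ∀ w ∈ sphere zs r, |f w - f zs - (a zs * (w - zs)).re| ≤ N * m k * r := by
        intro w hw
        have h1 := (convex_closedBall zs r).norm_image_sub_le_of_norm_fderiv_le' (𝕜 := ℝ)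
          (f := f) (φ := fderiv ℝ f zs) (C := N * m k) (x := zs) (y := w)
          (fun x hx => hdiff x (hBG (hrB hx)))
          (fun x hx => hchain x (hrB hx) zs hzsB (by
            rw [mem_closedBall, dist_eq_norm] at hx
            exact hx))
          (mem_closedBall_self hrpos.le) (sphere_subset_closedBall hw)
        rw [clm_eq_re (fderiv ℝ f zs) (w - zs), mem_sphere_iff_norm.1 hw] at h1
        exact h1
      apply Fpert_submean_of_cover S M e hM0 hM1 hrpos
        (hfc.mono ((sphere_subset_closedBall.trans hrB).trans hBG)) (by positivity) hTaylor hk hfk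
      · have h4 := hNa zs hzsB
        rw [hr]
        nlinarith
      · simp only [hM, hr]
        apply le_of_eq
        ring
  -- final contradiction
  have hfi : CircleIntegrable (fun w => Fpert S M e (f w)) zs r := by
    apply ContinuousOn.circleIntegrable hr.le
    exact (Fpert_cont S M e).comp_continuousOn
      (hfc.mono ((sphere_subset_closedBall.trans hrB).trans hBG))
  have h1 : Real.circleAverage (fun w => Fpert S M e (f w) - φ2 w) zs r ≤
      Fpert S M e (f zs) - φ2 zs := by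
    apply Real.circleAverage_mono_on_of_le_circle
    · exact hfi.sub (circInt_of_cont hφ2SM.1 _ _)
    · intro w hw
      rw [abs_of_pos hr] at hw
      exact hzsmax' w (hrB (sphere_subset_closedBall hw))
  rw [Real.circleAverage_fun_sub hfi (circInt_of_cont hφ2SM.1 _ _), hφ2SM.2] at h1
  have h2 : 0 < κ / 2 * r ^ 2 := by positivity
  linarith

end Pool.Agent.Helper119.Kral
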