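import Pool.Agent.Helper119.KralF
import Pool.Agent.Helper119.KralDefs

open MeasureTheory Metric Set Filter Topology
open scoped ENNReal

namespace Pool.Agent.Helper119.Kral

lemma clm_norm_le (L : ℂ →L[ℝ] ℝ) : ‖L‖ ≤ |L 1| + |L Complex.I| := by
  apply L.opNorm_le_bound (by positivity)
  intro v
  have hv : v = (v.re : ℝ) • (1 : ℂ) + (v.im : ℝ) • Complex.I := by
    apply Complex.ext <;> simp
  have h1 : L v = v.re * L 1 + v.im * L Complex.I := by
    conv_lhs => rw [hv]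
    rw [map_add, map_smul, map_smul]
    simp
  rw [h1, Real.norm_eq_abs]
  have h2 := Complex.abs_re_le_norm v
  have h3 := Complex.abs_im_le_norm v
  calc |v.re * L 1 + v.im * L Complex.I| ≤ |v.re * L 1| + |v.im * L Complex.I| := abs_add_le _ _
    _ = |v.re| * |L 1| + |v.im| * |L Complex.I| := by rw [abs_mul, abs_mul]
    _ ≤ ‖v‖ * |L 1| + ‖v‖ * |L Complex.I| := by gcongr
    _ = (|L 1| + |L Complex.I|) * ‖v‖ := by ring

lemma exists_cover_of_lt {ω : ℝ → ℝ} {A : Set ℝ} {T : ℝ≥0∞} (hT : gaugeMeasure ω A < T)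
    {r : ℝ} (hr : 0 < r) :
    ∃ t : ℕ → Set ℝ, A ⊆ ⋃ n, t n ∧ (∀ n, ediam (t n) ≤ ENNReal.ofReal r) ∧
      ∑' n, ⨆ _ : (t n).Nonempty, ENNReal.ofReal (ω (ediam (t n)).toReal) < T := by
  unfold gaugeMeasure at hT
  rw [Measure.mkMetric_apply] at hT
  have h1 : ⨅ (t : ℕ → Set ℝ) (_ : A ⊆ iUnion t) (_ : ∀ n, ediam (t n) ≤ ENNReal.ofReal r),
      ∑' n, ⨆ _ : (t n).Nonempty, ENNReal.ofReal (ω (ediam (t n)).toReal) < T := by
    refine lt_of_le_of_lt ?_ hT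
    exact le_iSup₂_of_le (ENNReal.ofReal r) (ENNReal.ofReal_pos.2 hr) le_rfl
  simp only [iInf_lt_iff] at h1
  obtain ⟨t, h2, h3, h4⟩ := h1
  exact ⟨t, h2, h3, h4⟩

/-- Abstract covering lemma. -/
lemma coverHyp_step {ω : ℝ → ℝ} (hωc : ContinuousOn ω (Ici 0)) (hωm : MonotoneOn ω (Ici 0))
    (hω0 : 0 ≤ ω 0) {f : ℂ → ℝ} {G' B : Set ℂ} (hG' : IsOpen G') (hB : IsCompact B)
    (hf : ContinuousOn f B) {E : Set ℝ} (hE : ∀ z ∈ B \ G', f z ∈ E)
    {d ζ : ℝ} (hζ : 0 < ζ) {ι : Type} [Encodable ι] (t : ι → Set ℝ) (b c : ι → ℝ)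
    (hc : ∀ i, 0 ≤ c i) (hb : ∀ i, b i ≤ d)
    (ht : ∀ i, ediam (t i) ≠ ∞) (htb : ∀ i, (ediam (t i)).toReal < b i)
    (hmod : ∀ i, ∀ u ∈ B, ∀ v ∈ B, ‖u - v‖ < b i →
      ‖fderiv ℝ f u - fderiv ℝ f v‖ ≤ c i * ω ‖u - v‖)
    (hcov : E ⊆ ⋃ i, t i)
    (hsum : ∑' i, ⨆ _ : (t i).Nonempty, ENNReal.ofReal (c i * ω (ediam (t i)).toReal)
      ≤ ENNReal.ofReal (ζ / 2)) :
    ∃ (κ : Type) (S : Finset κ) (e δ m : κ → ℝ),
    (∀ k ∈ S, 0 < δ k ∧ δ k < d ∧ 0 ≤ m k ∧ (∃ z ∈ B, f z = e k) ∧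
      ∀ u ∈ B, ∀ v ∈ B, ‖u - v‖ ≤ δ k → ‖fderiv ℝ f u - fderiv ℝ f v‖ ≤ m k) ∧
    (∀ z ∈ B \ G', ∃ k ∈ S, |f z - e k| ≤ δ k) ∧ ∑ k ∈ S, m k ≤ ζ := by
  classical
  have hωnn : ∀ x, 0 ≤ x → 0 ≤ ω x := fun x hx => hω0.trans (hωm (mem_Ici.2 le_rfl) hx hx)
  obtain ⟨ε', hε'pos, cc, hε'sum, hcc⟩ := posSumOfEncodable (half_pos hζ) ι
  set D : ι → ℝ := fun i => (ediam (t i)).toReal with hD
  have hDnn : ∀ i, 0 ≤ D i := fun i => ENNReal.toReal_nonneg
  -- choose slightly larger numbers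
  have hδex : ∀ i, ∃ δ : ℝ, D i < δ ∧ δ < b i ∧ c i * ω δ ≤ c i * ω (D i) + ε' i := by
    intro i
    have h1 : ContinuousWithinAt (fun x => c i * ω x) (Ici 0) (D i) :=
      (continuousOn_const.mul hωc) (D i) (hDnn i)
    have h2 : ContinuousWithinAt (fun x => c i * ω x) (Ioi (D i)) (D i) :=
      h1.mono (fun x hx => mem_Ici.2 ((hDnn i).trans (le_of_lt hx)))
    have h3 : ∀ᶠ x in 𝓝[>] (D i), c i * ω x < c i * ω (D i) + ε' i :=
      h2.eventually (gt_mem_nhds (by linarith [hε'pos i]))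
    have h4 : ∀ᶠ x in 𝓝[>] (D i), x < b i := by
      apply eventually_nhdsWithin_of_eventually_nhds
      exact gt_mem_nhds (htb i)
    have h5 : ∀ᶠ x in 𝓝[>] (D i), D i < x := self_mem_nhdsWithin
    obtain ⟨x, h6, h7, h8⟩ := (h3.and (h4.and h5)).exists
    exact ⟨x, h8, h7, h6.le⟩
  choose δ hδD hδb hδω using hδex
  -- choose the centres
  set K1 : Set ℂ := B \ G' with hK1
  have hK1c : IsCompact K1 := hB.diff hG'
  have hfK1 : IsCompact (f '' K1) := hK1c.image_of_continuousOn (hf.mono sdiff_subset)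
  let κ : Type := {i : ι // ∃ z ∈ K1, f z ∈ t i}
  have hκ : ∀ k : κ, ∃ z ∈ K1, f z ∈ t k.1 := fun k => k.2
  choose z hzK hzt using hκ
  obtain ⟨S, hS⟩ := hfK1.elim_finite_subcover (fun k : κ => ball (f (z k)) (δ k.1))
    (fun k => isOpen_ball) (by
      rintro x ⟨w, hw, rfl⟩
      obtain ⟨i, hi⟩ := mem_iUnion.1 (hcov (hE w hw))
      refine mem_iUnion.2 ⟨⟨i, w, hw, hi⟩, ?_⟩
      rw [mem_ball]
      have h1 := edist_le_ediam_of_mem hi (hzt ⟨i, w, hw, hi⟩)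
      have h2 : dist (f w) (f (z ⟨i, w, hw, hi⟩)) ≤ D i := by
        rw [dist_edist]
        exact ENNReal.toReal_mono (ht i) h1
      exact lt_of_le_of_lt h2 (hδD i))
  refine ⟨κ, S, fun k => f (z k), fun k => δ k.1, fun k => c k.1 * ω (δ k.1), ?_, ?_, ?_⟩
  · intro k _
    have hδpos : 0 < δ k.1 := lt_of_le_of_lt (hDnn k.1) (hδD k.1)
    refine ⟨hδpos, lt_of_lt_of_le (hδb k.1) (hb k.1), mul_nonneg (hc _) (hωnn _ hδpos.le),
      ⟨z k, (hzK k).1, rfl⟩, ?_⟩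
    intro u hu v hv huv
    refine (hmod k.1 u hu v hv (lt_of_le_of_lt huv (hδb k.1))).trans ?_
    apply mul_le_mul_of_nonneg_left _ (hc _)
    exact hωm (mem_Ici.2 (norm_nonneg _)) (mem_Ici.2 hδpos.le) huv
  · intro w hw
    have h1 := hS (mem_image_of_mem f hw)
    simp only [mem_iUnion] at h1
    obtain ⟨k, hk, hk2⟩ := h1
    refine ⟨k, hk, ?_⟩
    rw [mem_ball, Real.dist_eq] at hk2
    exact hk2.le
  · have h1 : ∑ k ∈ S, c k.1 * ω (δ k.1) ≤ ∑ k ∈ S, (c k.1 * ω (D k.1) + ε' k.1) :=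
      Finset.sum_le_sum fun k _ => hδω k.1
    rw [Finset.sum_add_distrib] at h1
    have h2 : ∑ k ∈ S, ε' k.1 ≤ ζ / 2 := by
      have h3 : ∑ k ∈ S, ε' k.1 = ∑ i ∈ S.map (Function.Embedding.subtype _), ε' i := by
        rw [Finset.sum_map]
        rfl
      rw [h3]
      exact (sum_le_hasSum _ (fun i _ => (hε'pos i).le) hε'sum).trans hcc
    have h4 : ∑ k ∈ S, c k.1 * ω (D k.1) ≤ ζ / 2 := by
      rw [← ENNReal.ofReal_le_ofReal_iff (by linarith)]
      rw [ENNReal.ofReal_sum_of_nonneg (fun k _ => mul_nonneg (hc _) (hωnn _ (hDnn _)))]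
      calc ∑ k ∈ S, ENNReal.ofReal (c k.1 * ω (D k.1))
          ≤ ∑ k ∈ S, (fun i => ⨆ _ : (t i).Nonempty,
              ENNReal.ofReal (c i * ω (ediam (t i)).toReal)) k.1 := by
            apply Finset.sum_le_sum
            intro k _
            have hne : (t k.1).Nonempty := ⟨_, hzt k⟩
            exact le_iSup_of_le hne le_rfl
        _ ≤ ∑' k : κ, (fun i => ⨆ _ : (t i).Nonempty,
              ENNReal.ofReal (c i * ω (ediam (t i)).toReal)) k.1 := ENNReal.sum_le_tsum S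
        _ ≤ ∑' i, ⨆ _ : (t i).Nonempty, ENNReal.ofReal (c i * ω (ediam (t i)).toReal) :=
            ENNReal.tsum_comp_le_tsum_of_injective Subtype.val_injective _
        _ ≤ ENNReal.ofReal (ζ / 2) := hsum
    linarith

theorem negligible_of_null {ω : ℝ → ℝ} (hωc : ContinuousOn ω (Ici 0))
    (hωm : MonotoneOn ω (Ici 0)) (hω0 : 0 ≤ ω 0) {E : Set ℝ} (hE : gaugeMeasure ω E = 0) :
    Negligible (C1Omega ω) Subharmonic E := by
  intro G hG f hf G' hG' hsub hS hfE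
  obtain ⟨hf1, hfx, hfy⟩ := hf
  refine ⟨hf1.continuousOn.upperSemicontinuousOn, ?_⟩
  apply submean_of_cover hG hG' hf1 hS.2
  intro c r hr hBG d hd ζ hζ
  have hBc : IsCompact (closedBall c r) := isCompact_closedBall c r
  obtain ⟨C1, hC1, δ1, hδ1, hx⟩ := hfx _ hBG hBc
  obtain ⟨C2, hC2, δ2, hδ2, hy⟩ := hfy _ hBG hBc
  have hCpos : 0 < C1 + C2 := by linarith
  set b : ℝ := min d (min δ1 δ2) with hb
  have hbpos : 0 < b := lt_min hd (lt_min hδ1 hδ2)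
  obtain ⟨t, ht1, ht2, ht3⟩ := exists_cover_of_lt (ω := ω) (A := E)
    (T := ENNReal.ofReal (ζ / (2 * (C1 + C2)))) (by rw [hE]; exact ENNReal.ofReal_pos.2 (by positivity))
    (r := b / 2) (by linarith)
  apply coverHyp_step hωc hωm hω0 hG' hBc (hf1.continuousOn.mono hBG)
    (fun z hz => hfE z ⟨hBG hz.1, hz.2⟩) hζ t (fun _ => b) (fun _ => C1 + C2)
    (fun _ => hCpos.le) (fun _ => min_le_left _ _)
  · intro i
    exact ne_top_of_le_ne_top ENNReal.ofReal_ne_top (ht2 i)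
  · intro i
    have h1 : (ediam (t i)).toReal ≤ b / 2 := by
      have := ENNReal.toReal_mono ENNReal.ofReal_ne_top (ht2 i)
      rwa [ENNReal.toReal_ofReal (by linarith)] at this
    linarith
  · intro _ u hu v hv huv
    have h1 := hx u hu v hv (lt_of_lt_of_le huv ((min_le_right _ _).trans (min_le_left _ _)))
    have h2 := hy u hu v hv (lt_of_lt_of_le huv ((min_le_right _ _).trans (min_le_right _ _)))
    refine (clm_norm_le _).trans ?_
    have e1 : (fderiv ℝ f u - fderiv ℝ f v) 1 = fderiv ℝ f u 1 - fderiv ℝ f v 1 := rfl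
    have e2 : (fderiv ℝ f u - fderiv ℝ f v) Complex.I =
      fderiv ℝ f u Complex.I - fderiv ℝ f v Complex.I := rfl
    rw [e1, e2]
    linarith
  · exact ht1
  · have h1 : ∀ i, (⨆ _ : (t i).Nonempty, ENNReal.ofReal ((C1 + C2) * ω (ediam (t i)).toReal)) =
        ENNReal.ofReal (C1 + C2) * ⨆ _ : (t i).Nonempty, ENNReal.ofReal (ω (ediam (t i)).toReal) := by
      intro i
      rw [ENNReal.mul_iSup]
      simp only [ENNReal.ofReal_mul hCpos.le]
    simp only [h1]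
    rw [ENNReal.tsum_mul_left]
    calc ENNReal.ofReal (C1 + C2) * ∑' i, ⨆ _ : (t i).Nonempty, ENNReal.ofReal (ω (ediam (t i)).toReal)
        ≤ ENNReal.ofReal (C1 + C2) * ENNReal.ofReal (ζ / (2 * (C1 + C2))) := by gcongr
      _ = ENNReal.ofReal (ζ / 2) := by
        rw [← ENNReal.ofReal_mul hCpos.le]
        congr 1
        field_simp

theorem negligible_of_sigmaFinite {ω : ℝ → ℝ} (hωc : ContinuousOn ω (Ici 0))
    (hωm : MonotoneOn ω (Ici 0)) (hω0 : 0 ≤ ω 0) {E : Set ℝ}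
    (hE : ∃ A : ℕ → Set ℝ, E ⊆ ⋃ n, A n ∧ ∀ n, gaugeMeasure ω (A n) < ∞) :
    Negligible (C1OmegaStar ω) Subharmonic E := by
  obtain ⟨A, hEA, hA⟩ := hE
  intro G hG f hf G' hG' hsub hS hfE
  obtain ⟨hf1, hfx, hfy⟩ := hf
  refine ⟨hf1.continuousOn.upperSemicontinuousOn, ?_⟩
  apply submean_of_cover hG hG' hf1 hS.2
  intro c r hr hBG d hd ζ hζ
  have hBc : IsCompact (closedBall c r) := isCompact_closedBall c r
  obtain ⟨a, hapos, cc, hasum, hcc⟩ := posSumOfEncodable (half_pos hζ) ℕ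
  set T : ℕ → ℝ := fun n => (gaugeMeasure ω (A n)).toReal + 1 with hT
  have hTpos : ∀ n, 0 < T n := fun n => by
    have : 0 ≤ (gaugeMeasure ω (A n)).toReal := ENNReal.toReal_nonneg
    simp only [hT]; linarith
  have hAT : ∀ n, gaugeMeasure ω (A n) < ENNReal.ofReal (T n) := by
    intro n
    rw [ENNReal.lt_ofReal_iff_toReal_lt (hA n).ne]
    simp only [hT]; linarith
  set ε : ℕ → ℝ := fun n => a n / T n with hε
  have hεpos : ∀ n, 0 < ε n := fun n => div_pos (hapos n) (hTpos n)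
  have hmodex : ∀ n, ∃ b : ℝ, 0 < b ∧ b ≤ d ∧ ∀ u ∈ closedBall c r, ∀ v ∈ closedBall c r,
      ‖u - v‖ < b → ‖fderiv ℝ f u - fderiv ℝ f v‖ ≤ ε n * ω ‖u - v‖ := by
    intro n
    obtain ⟨δ1, hδ1, hx⟩ := hfx _ hBG hBc (ε n / 2) (half_pos (hεpos n))
    obtain ⟨δ2, hδ2, hy⟩ := hfy _ hBG hBc (ε n / 2) (half_pos (hεpos n))
    refine ⟨min d (min δ1 δ2), lt_min hd (lt_min hδ1 hδ2), min_le_left _ _, ?_⟩
    intro u hu v hv huv
    have h1 := hx u hu v hv (lt_of_lt_of_le huv ((min_le_right _ _).trans (min_le_left _ _)))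
    have h2 := hy u hu v hv (lt_of_lt_of_le huv ((min_le_right _ _).trans (min_le_right _ _)))
    refine (clm_norm_le _).trans ?_
    have e1 : (fderiv ℝ f u - fderiv ℝ f v) 1 = fderiv ℝ f u 1 - fderiv ℝ f v 1 := rfl
    have e2 : (fderiv ℝ f u - fderiv ℝ f v) Complex.I =
      fderiv ℝ f u Complex.I - fderiv ℝ f v Complex.I := rfl
    rw [e1, e2]
    linarith
  choose b hbpos hbd hmod using hmodex
  have htex : ∀ n, ∃ t : ℕ → Set ℝ, A n ⊆ ⋃ j, t j ∧ (∀ j, ediam (t j) ≤ ENNReal.ofReal (b n / 2)) ∧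
      ∑' j, ⨆ _ : (t j).Nonempty, ENNReal.ofReal (ω (ediam (t j)).toReal) < ENNReal.ofReal (T n) :=
    fun n => exists_cover_of_lt (hAT n) (half_pos (hbpos n))
  choose t ht1 ht2 ht3 using htex
  apply coverHyp_step hωc hωm hω0 hG' hBc (hf1.continuousOn.mono hBG)
    (fun z hz => hfE z ⟨hBG hz.1, hz.2⟩) hζ (ι := ℕ × ℕ) (fun i => t i.1 i.2) (fun i => b i.1)
    (fun i => ε i.1) (fun i => (hεpos i.1).le) (fun i => hbd i.1)
  · intro i
    exact ne_top_of_le_ne_top ENNReal.ofReal_ne_top (ht2 i.1 i.2)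
  · intro i
    have h1 : (ediam (t i.1 i.2)).toReal ≤ b i.1 / 2 := by
      have := ENNReal.toReal_mono ENNReal.ofReal_ne_top (ht2 i.1 i.2)
      rwa [ENNReal.toReal_ofReal (by linarith [hbpos i.1])] at this
    linarith [hbpos i.1]
  · intro i
    exact hmod i.1
  · intro x hx
    obtain ⟨n, hn⟩ := mem_iUnion.1 (hEA hx)
    obtain ⟨j, hj⟩ := mem_iUnion.1 (ht1 n hn)
    exact mem_iUnion.2 ⟨(n, j), hj⟩
  · have h1 : ∀ n j, (⨆ _ : (t n j).Nonempty, ENNReal.ofReal (ε n * ω (ediam (t n j)).toReal)) =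
        ENNReal.ofReal (ε n) * ⨆ _ : (t n j).Nonempty, ENNReal.ofReal (ω (ediam (t n j)).toReal) := by
      intro n j
      rw [ENNReal.mul_iSup]
      simp only [ENNReal.ofReal_mul (hεpos n).le]
    rw [ENNReal.tsum_prod']
    simp only [h1]
    calc ∑' n, ∑' j, ENNReal.ofReal (ε n) * ⨆ _ : (t n j).Nonempty,
          ENNReal.ofReal (ω (ediam (t n j)).toReal)
        = ∑' n, ENNReal.ofReal (ε n) * ∑' j, ⨆ _ : (t n j).Nonempty,
          ENNReal.ofReal (ω (ediam (t n j)).toReal) := by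
          congr 1; ext n; rw [ENNReal.tsum_mul_left]
      _ ≤ ∑' n, ENNReal.ofReal (ε n) * ENNReal.ofReal (T n) := by
          apply ENNReal.tsum_le_tsum
          intro n
          gcongr
          exact (ht3 n).le
      _ = ∑' n, ENNReal.ofReal (a n) := by
          congr 1; ext n
          rw [← ENNReal.ofReal_mul (hεpos n).le]
          congr 1
          simp only [hε]
          field_simp [(hTpos n).ne']
      _ = ENNReal.ofReal (∑' n, a n) := by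
          rw [ENNReal.ofReal_tsum_of_nonneg (fun n => (hapos n).le) hasum.summable]
      _ ≤ ENNReal.ofReal (ζ / 2) := by
          rw [hasum.tsum_eq]
          exact ENNReal.ofReal_le_ofReal hcc

end Pool.Agent.Helper119.Kral
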